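import Pool.Agent.H.MP_a6405b_nt.hc.AsymA

set_option autoImplicit false

namespace Pool.A6405.HC

open Filter

/-- Proof: `X = Q^(2-ε/3) / (100 R^4 N₀) ≥ Q^(ε/3) / 2` and `b^(J+1) > X`, so
`J ≥ log X / log b - 1`. With `w = b^(-m) ∈ (0,1]`: `(1 - w)^J ≤ exp(-J w) ≤
exp(w) * exp(-w log X / log b) ≤ e * X^(-w / log b) ≤ e * (Q^(ε/3) / 2)^(-w / log b)
≤ 2 e * Q^(-ε w / (3 log b))` (`w / log b ≤ 1` as `b ≥ 4`). -/
theorem sc_decay (m : ℕ) (θ : ℝ) (hθ : 1 / 2 < θ) (hθ1 : θ ≤ 1) (R : ℝ) (hR : 96 ≤ R) (b : ℕ)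
    (hb : 4 ≤ b) (Q : ℝ) (hQ : 1 ≤ Q) (N₀ J : ℕ) (h : Sc θ R b Q N₀ J) :
    (1 - 1 / (b : ℝ) ^ m) ^ J ≤
      2 * Real.exp 1 * Q ^ (-(eps θ / (3 * ((b : ℝ) ^ m * Real.log b)))) := by
  obtain ⟨he0, he1⟩ := eps_pos hθ hθ1
  obtain ⟨hN0, hN1, hN2, hN3, hN4⟩ := h
  have hQ0 : 0 < Q := by linarith
  have hR0 : 0 < R := by linarith
  have hR4 : 0 < 100 * R ^ 4 := by positivity
  have hNr : (0 : ℝ) < (N₀ : ℝ) := by exact_mod_cast hN0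
  have hb4 : (4 : ℝ) ≤ (b : ℝ) := by exact_mod_cast hb
  have hb0 : (0 : ℝ) < (b : ℝ) := by linarith
  have hlogb : 1 ≤ Real.log b := by
    rw [Real.le_log_iff_exp_le hb0]
    have := Real.exp_one_lt_d9
    linarith
  have hlogb0 : 0 < Real.log b := by linarith
  have hbm : (1 : ℝ) ≤ (b : ℝ) ^ m := one_le_pow₀ (by linarith)
  have hbm0 : (0 : ℝ) < (b : ℝ) ^ m := by linarith
  obtain ⟨w, hw⟩ : ∃ w : ℝ, w = 1 / (b : ℝ) ^ m := ⟨_, rfl⟩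
  have hw0 : 0 < w := by rw [hw]; positivity
  have hw1 : w ≤ 1 := by
    rw [hw, div_le_one hbm0]
    exact hbm
  -- the key inequality
  have hkey : Q ^ (eps θ / 3) < 2 * ((b : ℝ) ^ J * b) := by
    have h1 : Q ^ (2 - eps θ / 3) < (N₀ : ℝ) * (b : ℝ) ^ J * b * (100 * R ^ 4) := by
      rw [div_lt_iff₀ hR4] at hN4
      exact hN4
    have h2 : (N₀ : ℝ) * (100 * R ^ 4) ≤ 2 * Q ^ (2 - 2 * eps θ / 3) := by
      have := mul_le_mul_of_nonneg_right hN2 hR4.le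
      have h3 : 2 * (Q ^ (2 - 2 * eps θ / 3) / (100 * R ^ 4)) * (100 * R ^ 4) =
          2 * Q ^ (2 - 2 * eps θ / 3) := by
        field_simp
      linarith
    have h4 : Q ^ (2 - eps θ / 3) = Q ^ (2 - 2 * eps θ / 3) * Q ^ (eps θ / 3) := by
      rw [← Real.rpow_add hQ0]
      congr 1
      ring
    have h5 : 0 < Q ^ (2 - 2 * eps θ / 3) := Real.rpow_pos_of_pos hQ0 _
    have h6 : (N₀ : ℝ) * (b : ℝ) ^ J * b * (100 * R ^ 4) ≤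
        (2 * Q ^ (2 - 2 * eps θ / 3)) * ((b : ℝ) ^ J * b) := by
      have : (N₀ : ℝ) * (b : ℝ) ^ J * b * (100 * R ^ 4) =
        ((N₀ : ℝ) * (100 * R ^ 4)) * ((b : ℝ) ^ J * b) := by ring
      rw [this]
      exact mul_le_mul_of_nonneg_right h2 (by positivity)
    have h7 : Q ^ (2 - 2 * eps θ / 3) * Q ^ (eps θ / 3) <
        Q ^ (2 - 2 * eps θ / 3) * (2 * ((b : ℝ) ^ J * b)) := by
      rw [← h4]
      calc _ < _ := h1
        _ ≤ _ := h6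
        _ = _ := by ring
    exact lt_of_mul_lt_mul_left h7 h5.le
  have hlog : (eps θ / 3) * Real.log Q ≤ Real.log 2 + ((J : ℝ) + 1) * Real.log b := by
    have h1 := Real.log_le_log (Real.rpow_pos_of_pos hQ0 _) hkey.le
    rw [Real.log_rpow hQ0, Real.log_mul (by norm_num) (by positivity),
      Real.log_mul (by positivity) (by positivity), Real.log_pow] at h1
    linarith
  have hstep : (1 - w) ^ J ≤ Real.exp (-(w * J)) := by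
    have h1 : 1 - w ≤ Real.exp (-w) := Real.one_sub_le_exp_neg w
    have h2 : 0 ≤ 1 - w := by linarith
    calc (1 - w) ^ J ≤ (Real.exp (-w)) ^ J := pow_le_pow_left₀ h2 h1 J
      _ = Real.exp (-(w * J)) := by
        rw [← Real.exp_nat_mul]
        congr 1
        ring
  rw [← hw]
  refine le_trans hstep ?_
  have hexp : (2 : ℝ) * Real.exp 1 * Q ^ (-(eps θ / (3 * ((b : ℝ) ^ m * Real.log b)))) =
      Real.exp (Real.log 2 + 1 + Real.log Q * (-(eps θ / (3 * ((b : ℝ) ^ m * Real.log b))))) := by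
    rw [Real.exp_add, Real.exp_add, Real.exp_log (by norm_num), Real.rpow_def_of_pos hQ0]
  rw [hexp]
  apply Real.exp_le_exp.mpr
  have hwe : eps θ / (3 * ((b : ℝ) ^ m * Real.log b)) = w * ((eps θ / 3) / Real.log b) := by
    rw [hw]
    field_simp
  rw [hwe]
  -- w * (eps/3 * log Q)/log b ≤ w * log 2/log b + w (J+1)
  have h8 : (eps θ / 3) * Real.log Q / Real.log b ≤ Real.log 2 / Real.log b + ((J : ℝ) + 1) := by
    rw [div_le_iff₀ hlogb0, add_mul, div_mul_cancel₀ _ hlogb0.ne']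
    exact hlog
  have hlog2 : 0 ≤ Real.log 2 := Real.log_nonneg (by norm_num)
  have h9 : Real.log 2 / Real.log b ≤ Real.log 2 := div_le_self hlog2 hlogb
  have h10 : w * ((eps θ / 3) * Real.log Q / Real.log b) ≤ w * (Real.log 2 + ((J : ℝ) + 1)) :=
    mul_le_mul_of_nonneg_left (by linarith) hw0.le
  have h11 : w * Real.log 2 ≤ Real.log 2 := mul_le_of_le_one_left hlog2 hw1
  have h12 : Real.log Q * -(w * (eps θ / 3 / Real.log b)) =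
      - (w * ((eps θ / 3) * Real.log Q / Real.log b)) := by ring
  rw [h12]
  nlinarith

/-- Proof: let `N = N₀ b^J`, `m = n + 1`, `M = Q^(1-ε/3)`, `δ = ε / (12 b^m log b)`. Then
`N₀^m (b^m - 1)^J N^(-(m-δ)) = (1 - 1/b^m)^J N^δ`,
`N^n (384 M N / Q + 4 M^2) N^(-(m-δ)) = N^δ (384 M / Q + 4 M^2 / N)`, where `M / Q = Q^(-ε/3)`, and
`N ≥ Q^(2-ε/3) / (100 R^4 b)` gives `M^2 / N ≤ 100 R^4 b Q^(-ε/3)`. `N ≤ Q^2`, so `N^δ ≤ Q^(2δ)`.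
By `sc_decay` the sum is at most
`Q^(2δ) (2 e Q^(-ε/(3 b^m log b)) + (384 + 400 R^4 b) Q^(-ε/3))`, and `ε/3 ≥ ε/(3 b^m log b)`
(`b^m log b ≥ 1`), `2δ - ε/(3 b^m log b) = -ε/(6 b^m log b)`. -/
theorem sc_sum (n : ℕ) (θ : ℝ) (hθ : 1 / 2 < θ) (hθ1 : θ ≤ 1) (R : ℝ) (hR : 96 ≤ R) (b : ℕ)
    (hb : 4 ≤ b) : ∃ C' : ℝ, 0 < C' ∧ ∀ Q : ℝ, 1 ≤ Q → ∀ N₀ J : ℕ, Sc θ R b Q N₀ J →
      ((N₀ : ℝ) ^ (n + 1) * ((b : ℝ) ^ (n + 1) - 1) ^ J +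
          ((N₀ : ℝ) * (b : ℝ) ^ J) ^ n *
            (384 * Q ^ (1 - eps θ / 3) * ((N₀ : ℝ) * (b : ℝ) ^ J) / Q +
              4 * (Q ^ (1 - eps θ / 3)) ^ 2)) *
          ((N₀ : ℝ) * (b : ℝ) ^ J) ^
            (-((n : ℝ) + 1 - eps θ / (12 * ((b : ℝ) ^ (n + 1) * Real.log b)))) ≤
        C' * Q ^ (-(eps θ / (6 * ((b : ℝ) ^ (n + 1) * Real.log b)))) := by
  obtain ⟨he0, he1⟩ := eps_pos hθ hθ1
  have hR0 : 0 < R := by linarith
  have hR4 : 0 < 100 * R ^ 4 := by positivity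
  have hR41 : 1 ≤ 100 * R ^ 4 := by
    have : (1 : ℝ) ≤ R ^ 4 := one_le_pow₀ (by linarith)
    linarith
  have hb4 : (4 : ℝ) ≤ (b : ℝ) := by exact_mod_cast hb
  have hb0 : (0 : ℝ) < (b : ℝ) := by linarith
  have hlogb : 1 ≤ Real.log b := by
    rw [Real.le_log_iff_exp_le hb0]
    have := Real.exp_one_lt_d9
    linarith
  have hlogb0 : 0 < Real.log b := by linarith
  have hbm : (1 : ℝ) ≤ (b : ℝ) ^ (n + 1) := one_le_pow₀ (by linarith)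
  have hbm0 : (0 : ℝ) < (b : ℝ) ^ (n + 1) := by linarith
  have hbl : 1 ≤ (b : ℝ) ^ (n + 1) * Real.log b := by nlinarith
  refine ⟨2 * Real.exp 1 + 384 + 400 * R ^ 4 * b, by positivity, ?_⟩
  intro Q hQ N₀ J h
  have hdec := sc_decay (n + 1) θ hθ hθ1 R hR b hb Q hQ N₀ J h
  obtain ⟨hN0, hN1, hN2, hN3, hN4⟩ := h
  have hQ0 : 0 < Q := by linarith
  have hNr : (0 : ℝ) < (N₀ : ℝ) := by exact_mod_cast hN0
  obtain ⟨δ, hδ⟩ : ∃ δ : ℝ, δ = eps θ / (12 * ((b : ℝ) ^ (n + 1) * Real.log b)) := ⟨_, rfl⟩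
  have hδ0 : 0 < δ := by rw [hδ]; positivity
  have hδ4 : eps θ / (3 * ((b : ℝ) ^ (n + 1) * Real.log b)) = 4 * δ := by
    rw [hδ]
    field_simp
    norm_num
  have hδ2 : eps θ / (6 * ((b : ℝ) ^ (n + 1) * Real.log b)) = 2 * δ := by
    rw [hδ]
    field_simp
    norm_num
  have hδle : 4 * δ ≤ eps θ / 3 := by
    rw [← hδ4]
    apply div_le_div_of_nonneg_left he0.le (by norm_num)
    nlinarith
  rw [hδ4] at hdec
  rw [hδ2, ← hδ]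
  obtain ⟨N, hN⟩ : ∃ N : ℝ, N = (N₀ : ℝ) * (b : ℝ) ^ J := ⟨_, rfl⟩
  have hNpos : 0 < N := by rw [hN]; positivity
  rw [← hN] at hN3 hN4
  rw [← hN]
  obtain ⟨M, hM⟩ : ∃ M : ℝ, M = Q ^ (1 - eps θ / 3) := ⟨_, rfl⟩
  have hMpos : 0 < M := by rw [hM]; exact Real.rpow_pos_of_pos hQ0 _
  rw [← hM]
  -- powers of N
  have hNn : N ^ (n + 1) = (N₀ : ℝ) ^ (n + 1) * ((b : ℝ) ^ (n + 1)) ^ J := by
    rw [hN, mul_pow, ← pow_mul, ← pow_mul, mul_comm J (n + 1)]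
  have hfac : (N₀ : ℝ) ^ (n + 1) * ((b : ℝ) ^ (n + 1) - 1) ^ J =
      N ^ (n + 1) * (1 - 1 / (b : ℝ) ^ (n + 1)) ^ J := by
    rw [hNn, mul_assoc, ← mul_pow]
    congr 2
    field_simp
  have hpow : N ^ (-((n : ℝ) + 1 - δ)) = N ^ δ / N ^ (n + 1) := by
    have h1 : -((n : ℝ) + 1 - δ) = δ - ((n + 1 : ℕ) : ℝ) := by
      push_cast
      ring
    rw [h1, Real.rpow_sub hNpos, Real.rpow_natCast]
  have hLHS : ((N₀ : ℝ) ^ (n + 1) * ((b : ℝ) ^ (n + 1) - 1) ^ J +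
      N ^ n * (384 * M * N / Q + 4 * M ^ 2)) * N ^ (-((n : ℝ) + 1 - δ)) =
      N ^ δ * ((1 - 1 / (b : ℝ) ^ (n + 1)) ^ J + (384 * (M / Q) + 4 * (M ^ 2 / N))) := by
    rw [hfac, hpow]
    have hNn1 : N ^ (n + 1) = N ^ n * N := pow_succ N n
    have hNn0 : N ^ n ≠ 0 := by positivity
    rw [hNn1]
    generalize (1 - 1 / (b : ℝ) ^ (n + 1)) ^ J = u
    generalize N ^ δ = t
    field_simp
  rw [hLHS]
  have hMQ : M / Q = Q ^ (-(eps θ / 3)) := by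
    rw [hM, show (1 - eps θ / 3 : ℝ) = 1 + -(eps θ / 3) by ring, Real.rpow_add hQ0, Real.rpow_one]
    field_simp
  have hMM : M ^ 2 = Q ^ (2 - eps θ / 3) * Q ^ (-(eps θ / 3)) := by
    rw [hM, ← Real.rpow_natCast, ← Real.rpow_mul hQ0.le, ← Real.rpow_add hQ0]
    congr 1
    push_cast
    ring
  have hMN : M ^ 2 / N ≤ 100 * R ^ 4 * b * Q ^ (-(eps θ / 3)) := by
    rw [div_le_iff₀ hNpos, hMM]
    have h1 : Q ^ (2 - eps θ / 3) ≤ N * b * (100 * R ^ 4) := by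
      rw [div_lt_iff₀ hR4] at hN4
      exact hN4.le
    have h2 : 0 < Q ^ (-(eps θ / 3)) := Real.rpow_pos_of_pos hQ0 _
    calc Q ^ (2 - eps θ / 3) * Q ^ (-(eps θ / 3)) ≤ N * b * (100 * R ^ 4) * Q ^ (-(eps θ / 3)) :=
          mul_le_mul_of_nonneg_right h1 h2.le
      _ = _ := by ring
  have hNQ : N ≤ Q ^ (2 : ℝ) := by
    calc N ≤ Q ^ (2 - eps θ / 3) / (100 * R ^ 4) := hN3
      _ ≤ Q ^ (2 - eps θ / 3) := div_le_self (Real.rpow_nonneg hQ0.le _) hR41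
      _ ≤ Q ^ (2 : ℝ) := Real.rpow_le_rpow_of_exponent_le hQ (by linarith)
  have hNδ : N ^ δ ≤ Q ^ (2 * δ) := by
    calc N ^ δ ≤ (Q ^ (2 : ℝ)) ^ δ := Real.rpow_le_rpow hNpos.le hNQ hδ0.le
      _ = Q ^ (2 * δ) := by rw [← Real.rpow_mul hQ0.le]
  have hQe : Q ^ (-(eps θ / 3)) ≤ Q ^ (-(4 * δ)) :=
    Real.rpow_le_rpow_of_exponent_le hQ (by linarith)
  have hQ4 : 0 < Q ^ (-(4 * δ)) := Real.rpow_pos_of_pos hQ0 _
  have hRb : 0 ≤ 100 * R ^ 4 * (b : ℝ) := by positivity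
  have hsum : (1 - 1 / (b : ℝ) ^ (n + 1)) ^ J + (384 * (M / Q) + 4 * (M ^ 2 / N)) ≤
      (2 * Real.exp 1 + 384 + 400 * R ^ 4 * b) * Q ^ (-(4 * δ)) := by
    have h1 : 384 * (M / Q) ≤ 384 * Q ^ (-(4 * δ)) := by
      rw [hMQ]
      linarith
    have h2 : 4 * (M ^ 2 / N) ≤ 400 * R ^ 4 * b * Q ^ (-(4 * δ)) := by
      have h3 : 100 * R ^ 4 * b * Q ^ (-(eps θ / 3)) ≤ 100 * R ^ 4 * b * Q ^ (-(4 * δ)) :=
        mul_le_mul_of_nonneg_left hQe hRb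
      linarith
    linarith
  calc N ^ δ * ((1 - 1 / (b : ℝ) ^ (n + 1)) ^ J + (384 * (M / Q) + 4 * (M ^ 2 / N)))
      ≤ N ^ δ * ((2 * Real.exp 1 + 384 + 400 * R ^ 4 * b) * Q ^ (-(4 * δ))) :=
        mul_le_mul_of_nonneg_left hsum (Real.rpow_nonneg hNpos.le _)
    _ ≤ Q ^ (2 * δ) * ((2 * Real.exp 1 + 384 + 400 * R ^ 4 * b) * Q ^ (-(4 * δ))) :=
        mul_le_mul_of_nonneg_right hNδ (by positivity)
    _ = (2 * Real.exp 1 + 384 + 400 * R ^ 4 * b) * (Q ^ (2 * δ) * Q ^ (-(4 * δ))) := by ring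
    _ = (2 * Real.exp 1 + 384 + 400 * R ^ 4 * b) * Q ^ (-(2 * δ)) := by
        rw [← Real.rpow_add hQ0]
        congr 2
        ring

end Pool.A6405.HC
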