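import Pool.Agent.H.MP_a6405b_nt.hc.AsymB
import Pool.Agent.H.MP_a6405b_nt.hc.AsymC

set_option autoImplicit false

namespace Pool.A6405.HC

open Filter in
/-- Choice of the scales. Proof: take `Q = 2^k` (tends to infinity), `N₀, J` from `exists_sc`,
`M = Q^(1-ε/3)`, `ρ = 2^(-ε/(6 b^m log b))`, `C'` from `sc_sum`. The conditions: `sc_range`
(`Q^(1-2ε/3) ≥ 1`, `Q^(1-ε/3) ≤ Q`, and `96 T / R ≤ T` as `R ≥ 96`), `sc_small` with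
`T = 100 R^4 N₀ b^j / Q`, for which `25 R^4 / (T Q) = 1 / (4 N₀ b^j)`, `sc_ge`, `sc_sum`
(`(2^k)^(-β) = (2^(-β))^k`). The exponent here is the one of `sc_sum` with `eps θ` unfolded. -/
theorem scales (n : ℕ) (θ : ℝ) (hθ : 1 / 2 < θ) (hθ1 : θ ≤ 1) (R : ℝ) (hR : 96 ≤ R) (b : ℕ)
    (hb : 4 ≤ b) (C : ℝ) :
    ∃ (ρ C' : ℝ) (k₀ : ℕ), 0 < ρ ∧ ρ < 1 ∧ ∀ k : ℕ, k₀ ≤ k →
      ∃ (N₀ J : ℕ) (M : ℝ), 0 < N₀ ∧ 0 ≤ M ∧ 2 ^ k ≤ N₀ * b ^ J ∧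
        (∀ j < J, 1 ≤ 100 * R ^ 4 * (N₀ * (b : ℝ) ^ j) / ((2 ^ k : ℕ) : ℝ)) ∧
        (∀ j < J, 100 * R ^ 4 * (N₀ * (b : ℝ) ^ j) / ((2 ^ k : ℕ) : ℝ) ≤ ((2 ^ k : ℕ) : ℝ)) ∧
        (∀ j < J, 96 * (100 * R ^ 4 * (N₀ * (b : ℝ) ^ j) / ((2 ^ k : ℕ) : ℝ)) / R ≤ M) ∧
        (∀ j < J, C * (1 / (4 * (N₀ * (b : ℝ) ^ j))) ^ θ * ((2 ^ k : ℕ) : ℝ) ≤
          R * (100 * R ^ 4 * (N₀ * (b : ℝ) ^ j) / ((2 ^ k : ℕ) : ℝ)) / ((2 ^ k : ℕ) : ℝ)) ∧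
        ((N₀ : ℝ) ^ (n + 1) * ((b : ℝ) ^ (n + 1) - 1) ^ J +
          ((N₀ : ℝ) * (b : ℝ) ^ J) ^ n *
            (384 * M * ((N₀ : ℝ) * (b : ℝ) ^ J) / ((2 ^ k : ℕ) : ℝ) + 4 * M ^ 2)) *
          ((N₀ : ℝ) * (b : ℝ) ^ J) ^
            (-((n : ℝ) + 1 - (2 * θ - 1) / (1 + θ) / (12 * ((b : ℝ) ^ (n + 1) * Real.log b)))) ≤
          C' * ρ ^ k := by
  obtain ⟨he0, he1⟩ := eps_pos hθ hθ1
  have hR0 : 0 < R := by linarith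
  have hR4 : 0 < 100 * R ^ 4 := by positivity
  have hb4 : (4 : ℝ) ≤ (b : ℝ) := by exact_mod_cast hb
  have hb0 : (0 : ℝ) < (b : ℝ) := by linarith
  have hlogb : 0 < Real.log b := Real.log_pos (by linarith)
  obtain ⟨C', hC', hsum⟩ := sc_sum n θ hθ hθ1 R hR b hb
  obtain ⟨β, hβ⟩ : ∃ β : ℝ, β = eps θ / (6 * ((b : ℝ) ^ (n + 1) * Real.log b)) := ⟨_, rfl⟩
  have hβ0 : 0 < β := by rw [hβ]; positivity
  have htend : Tendsto (fun k : ℕ => ((2 ^ k : ℕ) : ℝ)) atTop atTop :=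
    tendsto_natCast_atTop_atTop.comp (tendsto_pow_atTop_atTop_of_one_lt (by norm_num))
  have hev := ((exists_sc θ hθ hθ1 R hR b hb).and
    ((sc_small θ hθ hθ1 R hR C).and ((sc_ge θ hθ hθ1 R hR b hb).and (eventually_ge_atTop 1))))
  obtain ⟨k₀, hk₀⟩ := eventually_atTop.1 (htend.eventually hev)
  refine ⟨(2 : ℝ) ^ (-β), C', k₀, Real.rpow_pos_of_pos (by norm_num) _,
    Real.rpow_lt_one_of_one_lt_of_neg (by norm_num) (by linarith), fun k hk => ?_⟩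
  obtain ⟨⟨N₀, J, hS⟩, hsm, hge, hQ1⟩ := hk₀ k hk
  have hpow : ((2 ^ k : ℕ) : ℝ) ^ (-β) = ((2 : ℝ) ^ (-β)) ^ k := by
    push_cast
    rw [← Real.rpow_natCast, ← Real.rpow_mul (by norm_num), ← Real.rpow_natCast,
      ← Real.rpow_mul (by norm_num), mul_comm]
  have h2k : (2 ^ k : ℕ) ≤ N₀ * b ^ J := by
    have := hge N₀ J hS
    exact_mod_cast this
  rw [← hpow, hβ]
  have hfin := hsum _ hQ1 N₀ J hS
  have hrange := fun j hj => sc_range θ R hR b hb _ hQ1 N₀ J hS j hj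
  have hN0 : 0 < N₀ := hS.1
  generalize hq : ((2 ^ k : ℕ) : ℝ) = Q at *
  have hQ0 : 0 < Q := by linarith
  have hNr : (0 : ℝ) < (N₀ : ℝ) := by exact_mod_cast hN0
  have hlow : 1 ≤ Q ^ (1 - 2 * eps θ / 3) := Real.one_le_rpow hQ1 (by linarith)
  have hup : Q ^ (1 - eps θ / 3) ≤ Q := by
    calc Q ^ (1 - eps θ / 3) ≤ Q ^ (1 : ℝ) :=
          Real.rpow_le_rpow_of_exponent_le hQ1 (by linarith)
      _ = Q := Real.rpow_one Q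
  refine ⟨N₀, J, Q ^ (1 - eps θ / 3), hN0, (Real.rpow_pos_of_pos hQ0 _).le, h2k,
    fun j hj => hlow.trans (hrange j hj).1, fun j hj => (hrange j hj).2.trans hup,
    fun j hj => ?_, fun j hj => ?_, hfin⟩
  · have h1 := (hrange j hj).2
    have h2 : 0 < 100 * R ^ 4 * (N₀ * (b : ℝ) ^ j) / Q := by positivity
    refine le_trans ?_ h1
    rw [div_le_iff₀ hR0]
    nlinarith
  · have h1 := hsm _ (hrange j hj).1
    have h2 : 25 * R ^ 4 / (100 * R ^ 4 * (N₀ * (b : ℝ) ^ j) / Q * Q) =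
        1 / (4 * (N₀ * (b : ℝ) ^ j)) := by
      field_simp
      norm_num
    rw [h2] at h1
    exact h1

end Pool.A6405.HC
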