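import Mathlib

set_option autoImplicit false

namespace Pool.A6405.HC

open Filter

/-- `ε = (2θ-1)/(1+θ)` -/
noncomputable def eps (θ : ℝ) : ℝ := (2 * θ - 1) / (1 + θ)

/-- the pair `N₀, J` is adapted to `Q` (with `τ₀ = 1 - 2ε/3`, `τ₁ = 1 - ε/3`) -/
def Sc (θ R : ℝ) (b : ℕ) (Q : ℝ) (N₀ J : ℕ) : Prop :=
  0 < N₀ ∧ Q ^ (2 - 2 * eps θ / 3) / (100 * R ^ 4) ≤ (N₀ : ℝ) ∧
    (N₀ : ℝ) ≤ 2 * (Q ^ (2 - 2 * eps θ / 3) / (100 * R ^ 4)) ∧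
    (N₀ : ℝ) * (b : ℝ) ^ J ≤ Q ^ (2 - eps θ / 3) / (100 * R ^ 4) ∧
    Q ^ (2 - eps θ / 3) / (100 * R ^ 4) < (N₀ : ℝ) * (b : ℝ) ^ J * b

/-- Proof: `θ > 1/2` gives `2θ-1 > 0`; `θ ≤ 1` gives `2 (2θ-1) ≤ 1+θ`. -/
theorem eps_pos {θ : ℝ} (hθ : 1 / 2 < θ) (hθ1 : θ ≤ 1) : 0 < eps θ ∧ eps θ ≤ 1 / 2 := by
  unfold eps
  refine ⟨div_pos (by linarith) (by linarith), ?_⟩
  rw [div_le_iff₀ (by linarith)]
  linarith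

/-- Proof: `N₀ = ⌈Q^(2 - 2ε/3) / (100 R^4)⌉₊`; for large `Q` the argument is `≥ 1`, so
`N₀ ≤ 2 (...)`. As `2ε/3 > ε/3`, for large `Q` one has `N₀ ≤ Q^(2 - ε/3) / (100 R^4)`, i.e.
`X = Q^(2 - ε/3) / (100 R^4 N₀) ≥ 1`; take the natural `J` with `b^J ≤ X < b^(J+1)`
(`exists_nat_pow_near`). -/
theorem exists_sc (θ : ℝ) (hθ : 1 / 2 < θ) (hθ1 : θ ≤ 1) (R : ℝ) (hR : 96 ≤ R) (b : ℕ)
    (hb : 4 ≤ b) : ∀ᶠ Q : ℝ in atTop, ∃ N₀ J : ℕ, Sc θ R b Q N₀ J := by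
  obtain ⟨he0, he1⟩ := eps_pos hθ hθ1
  unfold Sc
  generalize eps θ = e at he0 he1
  have hD : 0 < 100 * R ^ 4 := by positivity
  have t1 : Tendsto (fun Q : ℝ => Q ^ (2 - 2 * e / 3)) atTop atTop :=
    tendsto_rpow_atTop (by linarith)
  have t2 : Tendsto (fun Q : ℝ => Q ^ (e / 3)) atTop atTop :=
    tendsto_rpow_atTop (by linarith)
  filter_upwards [t1.eventually_ge_atTop (100 * R ^ 4), t2.eventually_ge_atTop 2,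
    eventually_gt_atTop 0] with Q h1 h2 hQ
  obtain ⟨A, hA⟩ : ∃ A, A = Q ^ (2 - 2 * e / 3) / (100 * R ^ 4) := ⟨_, rfl⟩
  obtain ⟨B, hB⟩ : ∃ B, B = Q ^ (2 - e / 3) / (100 * R ^ 4) := ⟨_, rfl⟩
  have hBA : B = A * Q ^ (e / 3) := by
    have e1 : (2 - e / 3) = (2 - 2 * e / 3) + e / 3 := by ring
    rw [hA, hB, e1, Real.rpow_add hQ]
    ring
  rw [← hA, ← hB]
  have hA1 : 1 ≤ A := by
    rw [hA]
    exact (one_le_div hD).2 h1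
  have hA0 : 0 < A := by linarith
  have hN1 : A ≤ (⌈A⌉₊ : ℝ) := Nat.le_ceil A
  have hN2 : (⌈A⌉₊ : ℝ) < A + 1 := Nat.ceil_lt_add_one hA0.le
  have hN0 : (0 : ℝ) < (⌈A⌉₊ : ℝ) := by linarith
  have hX : 1 ≤ B / (⌈A⌉₊ : ℝ) := by
    rw [one_le_div hN0, hBA]
    nlinarith
  have hb1 : (1 : ℝ) < (b : ℝ) := by
    have : (4 : ℝ) ≤ (b : ℝ) := by exact_mod_cast hb
    linarith
  obtain ⟨J, hJ1, hJ2⟩ := exists_nat_pow_near hX hb1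
  refine ⟨⌈A⌉₊, J, ?_, hN1, by linarith, ?_, ?_⟩
  · exact_mod_cast hN0
  · rw [le_div_iff₀ hN0] at hJ1
    linarith
  · rw [div_lt_iff₀ hN0, pow_succ] at hJ2
    linarith

end Pool.A6405.HC
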