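import Pool.Agent.H.MP_a6405b_nt.hc.AsymA

set_option autoImplicit false

namespace Pool.A6405.HC

open Filter

/-- Proof: `N₀ b^j ≥ N₀ ≥ Q^(2-2ε/3)/(100 R^4)`, and for `j < J`,
`N₀ b^j ≤ N₀ b^J ≤ Q^(2-ε/3)/(100 R^4)`; divide by `Q` (`Real.rpow_sub_one`). -/
theorem sc_range (θ R : ℝ) (hR : 96 ≤ R) (b : ℕ) (hb : 4 ≤ b) (Q : ℝ) (hQ : 1 ≤ Q) (N₀ J : ℕ)
    (h : Sc θ R b Q N₀ J) (j : ℕ) (hj : j < J) :
    Q ^ (1 - 2 * eps θ / 3) ≤ 100 * R ^ 4 * (N₀ * (b : ℝ) ^ j) / Q ∧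
      100 * R ^ 4 * (N₀ * (b : ℝ) ^ j) / Q ≤ Q ^ (1 - eps θ / 3) := by
  obtain ⟨h0, h1, -, h3, -⟩ := h
  have hQ0 : 0 < Q := by linarith
  have hD : 0 < 100 * R ^ 4 := by positivity
  have hb1 : (1 : ℝ) ≤ (b : ℝ) := by
    have : (4 : ℝ) ≤ (b : ℝ) := by exact_mod_cast hb
    linarith
  have hN : (0 : ℝ) < (N₀ : ℝ) := by exact_mod_cast h0
  rw [div_le_iff₀ hD] at h1
  rw [le_div_iff₀ hD] at h3
  have e1 : Q ^ (1 - 2 * eps θ / 3) = Q ^ (2 - 2 * eps θ / 3) / Q := by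
    rw [← Real.rpow_sub_one hQ0.ne']
    congr 1
    ring
  have e2 : Q ^ (1 - eps θ / 3) = Q ^ (2 - eps θ / 3) / Q := by
    rw [← Real.rpow_sub_one hQ0.ne']
    congr 1
    ring
  have hbj : (1 : ℝ) ≤ (b : ℝ) ^ j := one_le_pow₀ hb1
  have hbJ : (b : ℝ) ^ j ≤ (b : ℝ) ^ J := pow_le_pow_right₀ hb1 hj.le
  rw [e1, e2]
  constructor
  · refine div_le_div_of_nonneg_right ?_ hQ0.le
    have : (N₀ : ℝ) * 1 ≤ N₀ * (b : ℝ) ^ j := mul_le_mul_of_nonneg_left hbj hN.le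
    nlinarith
  · refine div_le_div_of_nonneg_right ?_ hQ0.le
    have : (N₀ : ℝ) * (b : ℝ) ^ j ≤ N₀ * (b : ℝ) ^ J := mul_le_mul_of_nonneg_left hbJ hN.le
    nlinarith

/-- Proof: multiply by `Q T^θ / R > 0`: the claim is `C (25 R^4)^θ Q^(2-θ) / R ≤ T^(1+θ)`, and
`T^(1+θ) ≥ Q^((1 - 2ε/3)(1+θ))` with `(1 - 2ε/3)(1+θ) - (2-θ) = (2θ-1)/3 > 0`; a positive power of
`Q` exceeds the constant `C (25 R^4)^θ / R` for large `Q`. -/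
theorem sc_small (θ : ℝ) (hθ : 1 / 2 < θ) (hθ1 : θ ≤ 1) (R : ℝ) (hR : 96 ≤ R) (C : ℝ) :
    ∀ᶠ Q : ℝ in atTop, ∀ T : ℝ, Q ^ (1 - 2 * eps θ / 3) ≤ T →
      C * (25 * R ^ 4 / (T * Q)) ^ θ * Q ≤ R * T / Q := by
  have hR0 : 0 < R := by linarith
  have t1 : Tendsto (fun Q : ℝ => Q ^ ((2 * θ - 1) / 3)) atTop atTop :=
    tendsto_rpow_atTop (by linarith)
  filter_upwards [t1.eventually_ge_atTop (C * (25 * R ^ 4) ^ θ / R), eventually_ge_atTop 1]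
    with Q h1 hQ T hT
  have hQ0 : 0 < Q := by linarith
  have hT0 : 0 < T := lt_of_lt_of_le (Real.rpow_pos_of_pos hQ0 _) hT
  rw [div_le_iff₀ hR0] at h1
  have hTθ : 0 < T ^ θ := Real.rpow_pos_of_pos hT0 _
  have hQθ : 0 < Q ^ θ := Real.rpow_pos_of_pos hQ0 _
  rw [Real.div_rpow (by positivity) (by positivity), Real.mul_rpow hT0.le hQ0.le,
    le_div_iff₀ hQ0]
  have e1 : C * ((25 * R ^ 4) ^ θ / (T ^ θ * Q ^ θ)) * Q * Q =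
      (C * (25 * R ^ 4) ^ θ * Q ^ 2) / (T ^ θ * Q ^ θ) := by
    field_simp
  rw [e1, div_le_iff₀ (by positivity)]
  have e2 : T * T ^ θ = T ^ (1 + θ) := by
    rw [Real.rpow_add hT0, Real.rpow_one]
  have e3 : Q ^ ((2 * θ - 1) / 3) * Q ^ 2 = (Q ^ (1 - 2 * eps θ / 3)) ^ (1 + θ) * Q ^ θ := by
    rw [← Real.rpow_natCast, ← Real.rpow_add hQ0, ← Real.rpow_mul hQ0.le, ← Real.rpow_add hQ0]
    congr 1
    unfold eps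
    have : 1 + θ ≠ 0 := by linarith
    push_cast
    field_simp
    ring
  have h2 : (Q ^ (1 - 2 * eps θ / 3)) ^ (1 + θ) ≤ T ^ (1 + θ) :=
    Real.rpow_le_rpow (Real.rpow_pos_of_pos hQ0 _).le hT (by linarith)
  calc C * (25 * R ^ 4) ^ θ * Q ^ 2 ≤ Q ^ ((2 * θ - 1) / 3) * R * Q ^ 2 :=
        mul_le_mul_of_nonneg_right h1 (by positivity)
    _ = R * ((Q ^ (1 - 2 * eps θ / 3)) ^ (1 + θ) * Q ^ θ) := by rw [← e3]; ring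
    _ ≤ R * (T ^ (1 + θ) * Q ^ θ) :=
        mul_le_mul_of_nonneg_left (mul_le_mul_of_nonneg_right h2 hQθ.le) hR0.le
    _ = R * T * (T ^ θ * Q ^ θ) := by rw [← e2]; ring

/-- Proof: `N₀ b^J > Q^(2-ε/3) / (100 R^4 b)` and `2 - ε/3 > 1`. -/
theorem sc_ge (θ : ℝ) (hθ : 1 / 2 < θ) (hθ1 : θ ≤ 1) (R : ℝ) (hR : 96 ≤ R) (b : ℕ)
    (hb : 4 ≤ b) : ∀ᶠ Q : ℝ in atTop, ∀ N₀ J : ℕ, Sc θ R b Q N₀ J →
      Q ≤ (N₀ : ℝ) * (b : ℝ) ^ J := by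
  obtain ⟨he0, he1⟩ := eps_pos hθ hθ1
  have hD : 0 < 100 * R ^ 4 := by positivity
  have hb0 : (0 : ℝ) < (b : ℝ) := by
    have : (4 : ℝ) ≤ (b : ℝ) := by exact_mod_cast hb
    linarith
  have t1 : Tendsto (fun Q : ℝ => Q ^ (1 - eps θ / 3)) atTop atTop :=
    tendsto_rpow_atTop (by linarith)
  filter_upwards [t1.eventually_ge_atTop (100 * R ^ 4 * b), eventually_gt_atTop 0]
    with Q h1 hQ N₀ J h
  obtain ⟨-, -, -, -, h5⟩ := h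
  rw [div_lt_iff₀ hD] at h5
  have e1 : Q ^ (2 - eps θ / 3) = Q ^ (1 - eps θ / 3) * Q := by
    rw [← Real.rpow_add_one hQ.ne']
    congr 1
    ring
  rw [e1] at h5
  have h2 : 100 * R ^ 4 * b * Q ≤ Q ^ (1 - eps θ / 3) * Q := mul_le_mul_of_nonneg_right h1 hQ.le
  have h3 : 0 < 100 * R ^ 4 * b := by positivity
  refine le_of_mul_le_mul_left ?_ h3
  calc 100 * R ^ 4 * b * Q ≤ Q ^ (1 - eps θ / 3) * Q := h2
    _ ≤ (N₀ : ℝ) * (b : ℝ) ^ J * b * (100 * R ^ 4) := h5.le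
    _ = 100 * R ^ 4 * b * ((N₀ : ℝ) * (b : ℝ) ^ J) := by ring

end Pool.A6405.HC
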