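import Mathlib

set_option autoImplicit false

namespace Pool.A6405.HC

/-- Proof: let `c ∈ (0,1]`, `γ = (c/2)^(1/3) ∈ (0,1)`, `R = A / γ ^ 2` with `A = 2400000`,
`X = 500 R ^ 6 / γ ^ 3 = 500 A ^ 6 γ ^ (-15) = 500 A ^ 6 (2/c) ^ 5`, `b = ⌈X⌉ ≤ 2 X = B₁ c ^ (-5)`
with `B₁ = 1000 * 32 * A ^ 6`. `log b ≤ log B₁ + 5 log (1/c) ≤ (log B₁ + 5) / c`
(`log (1/c) ≤ 1/c`, `1 ≤ 1/c`). So `b ^ m * log b ≤ (B₂ c ^ (-6)) ^ m` with
`B₂ = B₁ (log B₁ + 5)`, `m ≥ 1`. Let `κ = 1 / (24 B₂)`; since `1 + θ ≤ 2`,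
`(2θ-1)/(1+θ)/(12 b^m log b) ≥ (2θ-1) (B₂^(-1) c^6)^m / 24 ≥ (2θ-1) (κ c^6)^m`. -/
theorem constants : ∃ κ : ℝ, 0 < κ ∧ ∀ c : ℝ, 0 < c → c ≤ 1 → ∃ (γ R : ℝ) (b : ℕ),
    0 < γ ∧ γ < 1 ∧ γ ^ 3 = c / 2 ∧ R = 2400000 / γ ^ 2 ∧ 500 * R ^ 6 / γ ^ 3 ≤ b ∧
    ∀ (m : ℕ) (θ : ℝ), 1 ≤ m → 1 / 2 < θ → θ ≤ 1 →
      (2 * θ - 1) * (κ * c ^ 6) ^ m ≤
        (2 * θ - 1) / (1 + θ) / (12 * ((b : ℝ) ^ m * Real.log b)) := by
  obtain ⟨B₁, hB₁⟩ : ∃ B₁ : ℝ, B₁ = 1000 * 32 * 2400000 ^ 6 := ⟨_, rfl⟩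
  have hB₁1 : 2 ≤ B₁ := by rw [hB₁]; norm_num
  have hlog : 0 ≤ Real.log B₁ := Real.log_nonneg (by linarith)
  obtain ⟨L, hL⟩ : ∃ L : ℝ, L = Real.log B₁ + 5 := ⟨_, rfl⟩
  have hL5 : 5 ≤ L := by rw [hL]; linarith
  obtain ⟨B₂, hB₂⟩ : ∃ B₂ : ℝ, B₂ = B₁ * L := ⟨_, rfl⟩
  have hB₂0 : 0 < B₂ := by rw [hB₂]; exact mul_pos (by linarith) (by linarith)
  refine ⟨1 / (24 * B₂), by positivity, ?_⟩
  intro c hc0 hc1
  have hc2 : 0 < c / 2 := by linarith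
  obtain ⟨γ, hγ⟩ : ∃ γ : ℝ, γ = (c / 2) ^ ((1 : ℝ) / 3) := ⟨_, rfl⟩
  have hγ0 : 0 < γ := by rw [hγ]; exact Real.rpow_pos_of_pos hc2 _
  have hγ3 : γ ^ 3 = c / 2 := by
    rw [hγ, ← Real.rpow_natCast, ← Real.rpow_mul hc2.le]
    norm_num
  have hγ1 : γ < 1 := by
    rw [hγ]
    exact Real.rpow_lt_one hc2.le (by linarith) (by norm_num)
  obtain ⟨X, hX⟩ : ∃ X : ℝ, X = 500 * (2400000 / γ ^ 2) ^ 6 / γ ^ 3 := ⟨_, rfl⟩
  have hX2 : X = B₁ / 2 / c ^ 5 := by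
    have h1 : X = 500 * 2400000 ^ 6 / (γ ^ 3) ^ 5 := by
      rw [hX]
      field_simp
    rw [h1, hγ3, hB₁]
    field_simp
    norm_num
  have hc5 : 0 < c ^ 5 := by positivity
  have hc51 : c ^ 5 ≤ 1 := pow_le_one₀ hc0.le hc1
  have hX3 : B₁ / 2 ≤ X := by
    rw [hX2, le_div_iff₀ hc5]
    have : 0 ≤ B₁ / 2 := by linarith
    nlinarith
  have hX4 : 2 ≤ X := by
    have : (4 : ℝ) ≤ B₁ := by rw [hB₁]; norm_num
    linarith
  refine ⟨γ, 2400000 / γ ^ 2, ⌈X⌉₊, hγ0, hγ1, hγ3, rfl, ?_, ?_⟩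
  · rw [← hX]; exact Nat.le_ceil X
  intro m θ hm hθ1 hθ2
  obtain ⟨b, hb⟩ : ∃ b : ℝ, b = ((⌈X⌉₊ : ℕ) : ℝ) := ⟨_, rfl⟩
  rw [← hb]
  have hbX : X ≤ b := by rw [hb]; exact Nat.le_ceil X
  have hbU : b ≤ B₁ / c ^ 5 := by
    have h1 : b < X + 1 := by rw [hb]; exact Nat.ceil_lt_add_one (by linarith)
    have h2 : B₁ / c ^ 5 = 2 * X := by rw [hX2]; field_simp
    rw [h2]; linarith
  have hb2 : 2 ≤ b := by linarith
  have hlogb : 0 < Real.log b := Real.log_pos (by linarith)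
  have hlogU : Real.log b ≤ L / c := by
    have h1 : Real.log b ≤ Real.log (B₁ / c ^ 5) := Real.log_le_log (by linarith) hbU
    have h2 : Real.log (B₁ / c ^ 5) = Real.log B₁ - 5 * Real.log c := by
      rw [Real.log_div (by linarith) hc5.ne', Real.log_pow]
      norm_num
    have h3 : - Real.log c ≤ 1 / c - 1 := by
      rw [← Real.log_inv]
      have := Real.log_le_sub_one_of_pos (inv_pos.mpr hc0)
      rw [one_div]
      exact this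
    have h4 : (1 : ℝ) ≤ 1 / c := by rw [le_div_iff₀ hc0]; linarith
    have h5 : Real.log B₁ ≤ Real.log B₁ * (1 / c) := by nlinarith
    calc Real.log b ≤ Real.log B₁ - 5 * Real.log c := by rw [← h2]; exact h1
      _ ≤ Real.log B₁ * (1 / c) + 5 * (1 / c) := by linarith
      _ = L / c := by rw [hL]; ring
  have hLc : 1 ≤ L / c := by rw [le_div_iff₀ hc0]; linarith
  have hkey : b ^ m * Real.log b ≤ (B₂ / c ^ 6) ^ m := by
    calc b ^ m * Real.log b ≤ (B₁ / c ^ 5) ^ m * (L / c) := by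
          apply mul_le_mul _ hlogU hlogb.le (by positivity)
          exact pow_le_pow_left₀ (by linarith) hbU m
      _ ≤ (B₁ / c ^ 5) ^ m * (L / c) ^ m := by
          apply mul_le_mul_of_nonneg_left _ (by positivity)
          exact le_self_pow₀ hLc (by omega)
      _ = (B₂ / c ^ 6) ^ m := by
          rw [← mul_pow, hB₂]
          congr 1
          field_simp
  have hpos : 0 < (1 + θ) * (12 * (b ^ m * Real.log b)) := by
    have : 0 < b ^ m := by positivity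
    have : 0 < 1 + θ := by linarith
    positivity
  rw [div_div, le_div_iff₀ hpos]
  have hfin : (1 / (24 * B₂) * c ^ 6) ^ m * ((1 + θ) * (12 * (b ^ m * Real.log b))) ≤ 1 := by
    have hk0 : 0 ≤ (1 / (24 * B₂) * c ^ 6) ^ m := by positivity
    have hbl : 0 ≤ b ^ m * Real.log b := by positivity
    calc (1 / (24 * B₂) * c ^ 6) ^ m * ((1 + θ) * (12 * (b ^ m * Real.log b)))
        ≤ (1 / (24 * B₂) * c ^ 6) ^ m * (24 * (B₂ / c ^ 6) ^ m) := by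
          apply mul_le_mul_of_nonneg_left _ hk0
          nlinarith
      _ ≤ (1 / (24 * B₂) * c ^ 6) ^ m * (24 ^ m * (B₂ / c ^ 6) ^ m) := by
          apply mul_le_mul_of_nonneg_left _ hk0
          apply mul_le_mul_of_nonneg_right _ (by positivity)
          exact le_self_pow₀ (by norm_num) (by omega)
      _ = 1 := by
          rw [← mul_pow, ← mul_pow]
          have : 1 / (24 * B₂) * c ^ 6 * (24 * (B₂ / c ^ 6)) = 1 := by
            field_simp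
          rw [this, one_pow]
  have h2θ : 0 ≤ 2 * θ - 1 := by linarith
  calc (2 * θ - 1) * (1 / (24 * B₂) * c ^ 6) ^ m * ((1 + θ) * (12 * (b ^ m * Real.log b)))
      = (2 * θ - 1) * ((1 / (24 * B₂) * c ^ 6) ^ m * ((1 + θ) * (12 * (b ^ m * Real.log b)))) := by
        ring
    _ ≤ (2 * θ - 1) * 1 := mul_le_mul_of_nonneg_left hfin h2θ
    _ = 2 * θ - 1 := mul_one _

end Pool.A6405.HC
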