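import Pool.Agent.H.MP_a6405b_nt.hc.GridA

set_option autoImplicit false

namespace Pool.A6405.HC

/-- Porosity gives an empty child. Proof. Let `a = gidx N x₁`, `x₁ ∈ E`.
Case B: no `x ∈ E` with `gidx N x = a` satisfies `a i + 1/4 ≤ N x i ≤ a i + 3/4` for all `i`. Take
`a' i = b a i + b / 2` (integer division). `a' i / b = a i`. If `x ∈ E` has `gidx (N b) x = a'` then
`gidx N x = a` (`gidx_div`) and `N x i ∈ [a i + (b/2)/b, a i + (b/2 + 1)/b) ⊆ [a i + 1/4, a i + 3/4]`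
since `b ≥ 4`, contradiction.
Case A: there is such an `x ∈ E`. Take `y₀` from `hpor`, `r = ρ`. Put
`a' 0 = ⌊b N (y₀ - ρ)⌋ + 1` and `a' i = gidx (N b) x i` for `i ≠ 0`. For `i ≠ 0`,
`a' i / b = a i` by `gidx_div`. For `i = 0`: `y₀ - ρ ≥ x 0 - 1/(4N) ≥ a 0 / N` so
`a' 0 > b N (y₀ - ρ) ≥ b a 0`, and `a' 0 + 1 ≤ b N (y₀ - ρ) + 2 ≤ b N (y₀ + ρ) ≤ b (a 0 + 1)`
because `b N ρ ≥ 1` and `y₀ + ρ ≤ x 0 + 1/(4N) ≤ (a 0 + 1)/N`; so `a' 0 / b = a 0`. Suppose
`x' ∈ E`, `gidx (N b) x' = a'`. Then `x' 0 ≥ a' 0 / (b N) > y₀ - ρ` and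
`x' 0 < (a' 0 + 1) / (b N) ≤ y₀ + ρ`, so `|x' 0 - y₀| < ρ` and by `hpor` some `i` has
`|x' i - x i| > 1/(4N)`. If `i ≠ 0`, `x i` and `x' i` have the same floor of `N b · `, so
`|x' i - x i| < 1/(N b) ≤ 1/(4 N)`. If `i = 0`,
`|x' 0 - x 0| ≤ |x' 0 - y₀| + |x 0 - y₀| < ρ + |x 0 - y₀| ≤ 1/(4N)`. Contradiction. -/
theorem child_missing {n : ℕ} (N b : ℕ) (hN : 0 < N) (hb : 4 ≤ b)
    (E : Set (Fin (n + 1) → ℝ)) (ρ : ℝ) (hρ : 1 / ((b : ℝ) * N) ≤ ρ)
    (hpor : ∀ x ∈ E, ∃ y₀ : ℝ, |x 0 - y₀| + ρ ≤ 1 / (4 * (N : ℝ)) ∧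
      ∀ x' ∈ E, |x' 0 - y₀| < ρ → ∃ i, 1 / (4 * (N : ℝ)) < |x' i - x i|) :
    ∀ a ∈ gidx N '' E, ∃ a' : Fin (n + 1) → ℤ, (∀ i, a' i / (b : ℤ) = a i) ∧
      a' ∉ gidx (N * b) '' E := by
  intro a ha
  have hNR : (0 : ℝ) < (N : ℝ) := by exact_mod_cast hN
  have hbR : (4 : ℝ) ≤ (b : ℝ) := by exact_mod_cast hb
  have hb0 : 0 < b := by omega
  have hbR0 : (0 : ℝ) < (b : ℝ) := by linarith
  have hNb : (0 : ℝ) < (N : ℝ) * b := mul_pos hNR hbR0
  have hcast : ((N * b : ℕ) : ℝ) = (N : ℝ) * b := by push_cast; ring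
  have hbZ : (0 : ℤ) < (b : ℤ) := by exact_mod_cast hb0
  by_cases hA : ∃ x ∈ E, gidx N x = a ∧
      ∀ i, (a i : ℝ) + 1 / 4 ≤ N * x i ∧ (N : ℝ) * x i ≤ a i + 3 / 4
  · obtain ⟨x, hxE, hxa, hx⟩ := hA
    obtain ⟨y₀, hy, hsep⟩ := hpor x hxE
    have habs := abs_le.1 (le_refl |x 0 - y₀|)
    have hq : 1 / (4 * (N : ℝ)) * N = 1 / 4 := by field_simp
    have hlo : x 0 - 1 / (4 * (N : ℝ)) ≤ y₀ - ρ := by linarith [habs.2]
    have hhi : y₀ + ρ ≤ x 0 + 1 / (4 * (N : ℝ)) := by linarith [habs.1]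
    have hlo' : (a 0 : ℝ) ≤ N * (y₀ - ρ) := by
      have h1 := mul_le_mul_of_nonneg_left hlo hNR.le
      have h2 := (hx 0).1
      nlinarith [h1, h2, hq]
    have hhi' : (N : ℝ) * (y₀ + ρ) ≤ a 0 + 1 := by
      have h1 := mul_le_mul_of_nonneg_left hhi hNR.le
      have h2 := (hx 0).2
      nlinarith [h1, h2, hq]
    have hrho : 1 ≤ (b : ℝ) * N * ρ := by
      have h1 : 0 < (b : ℝ) * N := mul_pos hbR0 hNR
      have h2 := mul_le_mul_of_nonneg_left hρ h1.le
      have h3 : (b : ℝ) * N * (1 / ((b : ℝ) * N)) = 1 := by field_simp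
      linarith
    set F : ℤ := ⌊(b : ℝ) * N * (y₀ - ρ)⌋ with hF
    have hF1 : (F : ℝ) ≤ (b : ℝ) * N * (y₀ - ρ) := Int.floor_le _
    have hF2 : (b : ℝ) * N * (y₀ - ρ) < (F : ℝ) + 1 := Int.lt_floor_add_one _
    refine ⟨fun i => if i = 0 then F + 1 else gidx (N * b) x i, ?_, ?_⟩
    · intro i
      by_cases hi : i = 0
      · subst hi
        simp only [if_true]
        have h1 : (b : ℝ) * a 0 < (F : ℝ) + 1 := by
          have := mul_le_mul_of_nonneg_left hlo' hbR0.le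
          nlinarith [this, hF2]
        have h2 : (F : ℝ) + 2 ≤ (b : ℝ) * (a 0 + 1) := by
          have := mul_le_mul_of_nonneg_left hhi' hbR0.le
          nlinarith [this, hF1, hrho]
        have h1' : (b : ℤ) * a 0 < F + 1 := by exact_mod_cast h1
        have h2' : F + 2 ≤ (b : ℤ) * (a 0 + 1) := by exact_mod_cast h2
        apply le_antisymm
        · apply Int.lt_add_one_iff.1
          apply Int.ediv_lt_of_lt_mul hbZ
          rw [mul_comm]
          linarith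
        · apply Int.le_ediv_of_mul_le hbZ
          rw [mul_comm]
          exact h1'.le
      · simp only [if_neg hi]
        rw [gidx_div N b hb0 x i, hxa]
    · rintro ⟨x', hx'E, hx'⟩
      have h0 : ⌊((N * b : ℕ) : ℝ) * x' 0⌋ = F + 1 := by
        have := congrFun hx' 0
        simpa [gidx] using this
      rw [hcast] at h0
      have h1 := Int.floor_le ((N : ℝ) * b * x' 0)
      have h2 := Int.lt_floor_add_one ((N : ℝ) * b * x' 0)
      rw [h0] at h1 h2
      push_cast at h1 h2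
      have hl : y₀ - ρ < x' 0 := by
        have : (N : ℝ) * b * (y₀ - ρ) < (N : ℝ) * b * x' 0 := by
          have e : (N : ℝ) * b * (y₀ - ρ) = (b : ℝ) * N * (y₀ - ρ) := by ring
          rw [e]; linarith
        exact lt_of_mul_lt_mul_left this hNb.le
      have hr : x' 0 < y₀ + ρ := by
        have : (N : ℝ) * b * x' 0 < (N : ℝ) * b * (y₀ + ρ) := by
          have e : (N : ℝ) * b * (y₀ + ρ) = (b : ℝ) * N * (y₀ - ρ) + 2 * ((b : ℝ) * N * ρ) := by
            ring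
          rw [e]; linarith
        exact lt_of_mul_lt_mul_left this hNb.le
      have hd : |x' 0 - y₀| < ρ := abs_lt.2 ⟨by linarith, by linarith⟩
      obtain ⟨i, hi⟩ := hsep x' hx'E hd
      by_cases hi0 : i = 0
      · subst hi0
        have h3 : |x' 0 - x 0| ≤ |x' 0 - y₀| + |x 0 - y₀| := by
          have := abs_sub (x' 0 - y₀) (x 0 - y₀)
          have e : x' 0 - y₀ - (x 0 - y₀) = x' 0 - x 0 := by ring
          rw [e] at this
          exact this
        linarith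
      · have h3 : ⌊((N * b : ℕ) : ℝ) * x' i⌋ = ⌊((N * b : ℕ) : ℝ) * x i⌋ := by
          have := congrFun hx' i
          simpa [gidx, hi0] using this
        rw [hcast] at h3
        have h4 := Int.abs_sub_lt_one_of_floor_eq_floor h3
        have e : (N : ℝ) * b * x' i - (N : ℝ) * b * x i = (N : ℝ) * b * (x' i - x i) := by ring
        rw [e, abs_mul, abs_of_pos hNb] at h4
        have h5 : (N : ℝ) * b * (1 / (4 * (N : ℝ))) < 1 := by
          have := mul_lt_mul_of_pos_left hi hNb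
          linarith
        have h6 : (N : ℝ) * b * (1 / (4 * (N : ℝ))) = b / 4 := by field_simp
        rw [h6] at h5
        linarith
  · obtain ⟨c, hc1, hc2⟩ : ∃ c : ℕ, b ≤ 2 * c + 1 ∧ 2 * c ≤ b := ⟨b / 2, by omega, by omega⟩
    refine ⟨fun i => (b : ℤ) * a i + (c : ℤ), ?_, ?_⟩
    · intro i
      have h1 : (c : ℤ) < b := by exact_mod_cast (by omega : c < b)
      have h0 : (0 : ℤ) ≤ (c : ℤ) := by positivity
      show ((b : ℤ) * a i + (c : ℤ)) / (b : ℤ) = a i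
      rw [Int.add_comm, Int.add_mul_ediv_left _ _ hbZ.ne', Int.ediv_eq_zero_of_lt h0 h1]
      ring
    · rintro ⟨x, hxE, hx⟩
      apply hA
      have hd : ∀ i, ((b : ℤ) * a i + (c : ℤ)) / (b : ℤ) = a i := by
        intro i
        have h1 : (c : ℤ) < b := by exact_mod_cast (by omega : c < b)
        have h0 : (0 : ℤ) ≤ (c : ℤ) := by positivity
        rw [Int.add_comm, Int.add_mul_ediv_left _ _ hbZ.ne', Int.ediv_eq_zero_of_lt h0 h1]
        ring
      refine ⟨x, hxE, ?_, ?_⟩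
      · funext i
        rw [← gidx_div N b hb0 x i, hx]
        exact hd i
      · intro i
        have h0 : ⌊((N * b : ℕ) : ℝ) * x i⌋ = (b : ℤ) * a i + (c : ℤ) := congrFun hx i
        rw [hcast] at h0
        have h1 := Int.floor_le ((N : ℝ) * b * x i)
        have h2 := Int.lt_floor_add_one ((N : ℝ) * b * x i)
        rw [h0] at h1 h2
        push_cast at h1 h2
        have h3 : (b : ℝ) - 1 ≤ 2 * (c : ℝ) := by
          have : (b : ℝ) ≤ 2 * (c : ℝ) + 1 := by exact_mod_cast hc1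
          linarith
        have h4 : 2 * (c : ℝ) ≤ b := by
          exact_mod_cast hc2
        have h5 : (N : ℝ) * b * x i = b * (N * x i) := by ring
        rw [h5] at h1 h2
        constructor
        · by_contra hc
          push Not at hc
          have := mul_lt_mul_of_pos_left hc hbR0
          nlinarith
        · by_contra hc
          push Not at hc
          have := mul_lt_mul_of_pos_left hc hbR0
          nlinarith

end Pool.A6405.HC
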