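import Pool.Agent.H.MP_a6405b_nt.hc.GridA

set_option autoImplicit false

namespace Pool.A6405.HC

/-- Proof: an integer `z` with `u < z ≤ v` lies in `Finset.Ioc ⌊u⌋ ⌊v⌋`, whose cardinality is at
most `v - u + 1`. -/
theorem int_count (u v : ℝ) (huv : u ≤ v) (s : Finset ℤ) (hs : ∀ z ∈ s, u < (z : ℝ) ∧ (z : ℝ) ≤ v) :
    (s.card : ℝ) ≤ v - u + 1 := by
  have h1 : s ⊆ Finset.Ioc ⌊u⌋ ⌊v⌋ := by
    intro z hz
    obtain ⟨h1, h2⟩ := hs z hz
    rw [Finset.mem_Ioc]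
    exact ⟨Int.floor_lt.2 h1, Int.le_floor.2 h2⟩
  have h2 : (s.card : ℝ) ≤ ((Finset.Ioc ⌊u⌋ ⌊v⌋).card : ℝ) := by
    exact_mod_cast Finset.card_le_card h1
  have h3 : ((Finset.Ioc ⌊u⌋ ⌊v⌋).card : ℝ) = (⌊v⌋ : ℝ) - (⌊u⌋ : ℝ) := by
    have h4 : ⌊u⌋ ≤ ⌊v⌋ := Int.floor_le_floor huv
    have h5 : ((Finset.Ioc ⌊u⌋ ⌊v⌋).card : ℤ) = ⌊v⌋ - ⌊u⌋ := by
      rw [Int.card_Ioc, Int.toNat_of_nonneg (by omega)]
    have h6 : (((Finset.Ioc ⌊u⌋ ⌊v⌋).card : ℤ) : ℝ) = ((⌊v⌋ - ⌊u⌋ : ℤ) : ℝ) := by rw [h5]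
    push_cast at h6
    exact h6
  have h4 : (⌊v⌋ : ℝ) ≤ v := Int.floor_le v
  have h5 : u - 1 < (⌊u⌋ : ℝ) := Int.sub_one_lt_floor u
  linarith

/-- Cubes which meet the slabs. Proof: let `E` be the set. If `x ∈ E` then there are `1 ≤ k ≤ M`
and the integer `c = round (k x₀) ∈ [0, k]` (as `0 ≤ x₀ < 1`) with
`|x₀ - c / k| ≤ 96 / (k Q) =: r`; the index `z = ⌊N x₀⌋` satisfies
`N (c/k - r) - 1 < z ≤ N (c/k + r)`, so for fixed `k, c` there are at most `2 N r + 2` values of `z`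
(`int_count`). All entries of `gidx N x` are in `[0, N)`. Hence
`cnt N E ≤ N ^ n * ∑_{1 ≤ k ≤ M} (k + 1) (192 N / (k Q) + 2)
        ≤ N ^ n * ∑_{1 ≤ k ≤ M} 2 k (192 N / (k Q) + 2) = N ^ n * ∑_{k ≤ M} (384 N / Q + 4 k)`,
and `∑_{1 ≤ k ≤ M} 4 k ≤ 4 M ^ 2`. (Index sets: `k ∈ Finset.Icc 1 ⌊M⌋₊`, `c ∈ Finset.range (k+1)`,
union bound for `ncard`; the vectors with prescribed entry `0` in a finite set of size `s` and the
others in `[0, N)` are at most `s * N ^ n`.) -/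
theorem slab_count {n : ℕ} (N Q : ℕ) (hN : 0 < N) (hQ : 0 < Q) (M : ℝ) (hM : 0 ≤ M) :
    (cnt N {x : Fin (n + 1) → ℝ | x ∈ ucube (n + 1) ∧ NearFrac Q M (x 0)} : ℝ) ≤
      (N : ℝ) ^ n * (384 * M * N / Q + 4 * M ^ 2) := by
  classical
  set Z : ℕ → ℕ → Finset ℤ := fun k c => (Finset.Ico (0 : ℤ) (N : ℤ)).filter
    (fun z => (N : ℝ) * ((c : ℝ) / k - 96 / (k * Q)) - 1 < (z : ℝ) ∧
      (z : ℝ) ≤ (N : ℝ) * ((c : ℝ) / k + 96 / (k * Q))) with hZ
  set S : Finset ℤ := (Finset.Icc 1 ⌊M⌋₊).biUnion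
    (fun k => (Finset.range (k + 1)).biUnion (fun c => Z k c)) with hS
  have hNr : (0 : ℝ) < N := by exact_mod_cast hN
  have hQr : (0 : ℝ) < Q := by exact_mod_cast hQ
  -- the inclusion
  have hsub : gidx N '' {x : Fin (n + 1) → ℝ | x ∈ ucube (n + 1) ∧ NearFrac Q M (x 0)} ⊆
      ((Fintype.piFinset (Fin.cons S (fun _ : Fin n => Finset.Ico (0 : ℤ) (N : ℤ)) :
        Fin (n + 1) → Finset ℤ) : Finset (Fin (n + 1) → ℤ)) : Set (Fin (n + 1) → ℤ)) := by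
    rintro _ ⟨x, ⟨hx, hnf⟩, rfl⟩
    rw [Finset.mem_coe, Fintype.mem_piFinset]
    have hco : ∀ i, gidx N x i ∈ Finset.Ico (0 : ℤ) (N : ℤ) := by
      intro i
      rw [Finset.mem_Ico]
      obtain ⟨h0, h1⟩ := hx i
      constructor
      · exact Int.floor_nonneg.2 (mul_nonneg hNr.le h0)
      · refine Int.floor_lt.2 ?_
        push_cast
        calc (N : ℝ) * x i < N * 1 := mul_lt_mul_of_pos_left h1 hNr
          _ = N := mul_one _
    intro i
    refine Fin.cases ?_ ?_ i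
    · rw [Fin.cons_zero]
      obtain ⟨k, hk1, hkM, hk⟩ := hnf
      have hkr : (0 : ℝ) < k := by exact_mod_cast hk1
      obtain ⟨h0, h1⟩ := hx 0
      have hc0 : (0 : ℤ) ≤ round ((k : ℝ) * x 0) := by
        rw [round_eq]
        exact Int.floor_nonneg.2 (by positivity)
      have hck : round ((k : ℝ) * x 0) < (k : ℤ) + 1 := by
        rw [round_eq]
        refine Int.floor_lt.2 ?_
        push_cast
        have : (k : ℝ) * x 0 < k * 1 := mul_lt_mul_of_pos_left h1 hkr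
        linarith
      obtain ⟨c, hc⟩ := Int.eq_ofNat_of_zero_le hc0
      have hc' : ((round ((k : ℝ) * x 0) : ℤ) : ℝ) = (c : ℝ) := by
        rw [hc]; simp
      rw [hS]
      refine Finset.mem_biUnion.2 ⟨k, ?_, ?_⟩
      · rw [Finset.mem_Icc]
        exact ⟨hk1, Nat.le_floor hkM⟩
      refine Finset.mem_biUnion.2 ⟨c, ?_, ?_⟩
      · rw [Finset.mem_range]
        omega
      rw [hZ]
      refine Finset.mem_filter.2 ⟨hco 0, ?_⟩
      have hd : |(k : ℝ) * x 0 - c| * Q ≤ 96 := by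
        have h := hk
        unfold dni at h
        rw [hc'] at h
        exact h
      have hd2 : |x 0 - (c : ℝ) / k| ≤ 96 / (k * Q) := by
        rw [le_div_iff₀ (by positivity)]
        have h3 : |x 0 - (c : ℝ) / k| * k = |(k : ℝ) * x 0 - c| := by
          rw [← abs_of_pos hkr, ← abs_mul, abs_of_pos hkr]
          congr 1
          field_simp
        calc |x 0 - (c : ℝ) / k| * (k * Q) = (|x 0 - (c : ℝ) / k| * k) * Q := by ring
          _ = |(k : ℝ) * x 0 - c| * Q := by rw [h3]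
          _ ≤ 96 := hd
      obtain ⟨hd3, hd4⟩ := abs_le.1 hd2
      have hf1 : (gidx N x 0 : ℝ) ≤ N * x 0 := Int.floor_le _
      have hf2 : (N : ℝ) * x 0 - 1 < (gidx N x 0 : ℝ) := Int.sub_one_lt_floor _
      constructor
      · have h5 : (N : ℝ) * ((c : ℝ) / k - 96 / (k * Q)) ≤ N * x 0 :=
          mul_le_mul_of_nonneg_left (by linarith) hNr.le
        linarith
      · have h5 : (N : ℝ) * x 0 ≤ (N : ℝ) * ((c : ℝ) / k + 96 / (k * Q)) :=
          mul_le_mul_of_nonneg_left (by linarith) hNr.le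
        linarith
    · intro j
      rw [Fin.cons_succ]
      exact hco _
  have hcard : cnt N {x : Fin (n + 1) → ℝ | x ∈ ucube (n + 1) ∧ NearFrac Q M (x 0)} ≤
      S.card * N ^ n := by
    unfold cnt
    refine (Set.ncard_le_ncard hsub (Finset.finite_toSet _)).trans ?_
    rw [Set.ncard_coe_finset, Fintype.card_piFinset, Fin.prod_univ_succ]
    simp
  have hZc : ∀ k c : ℕ, ((Z k c).card : ℝ) ≤ 192 * N / (k * Q) + 2 := by
    intro k c
    have hr : (0 : ℝ) ≤ 96 / ((k : ℝ) * Q) := by positivity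
    have h := int_count ((N : ℝ) * ((c : ℝ) / k - 96 / (k * Q)) - 1)
      ((N : ℝ) * ((c : ℝ) / k + 96 / (k * Q))) (by
        have : (N : ℝ) * ((c : ℝ) / k - 96 / (k * Q)) ≤ (N : ℝ) * ((c : ℝ) / k + 96 / (k * Q)) :=
          mul_le_mul_of_nonneg_left (by linarith) hNr.le
        linarith) (Z k c) (by
        intro z hz
        exact (Finset.mem_filter.1 hz).2)
    refine h.trans (le_of_eq ?_)
    ring
  have hSc : (S.card : ℝ) ≤ 384 * M * N / Q + 4 * M ^ 2 := by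
    have h1 : (S.card : ℝ) ≤ ∑ k ∈ Finset.Icc 1 ⌊M⌋₊, (384 * N / Q + 4 * (k : ℝ)) := by
      have h2 : S.card ≤ ∑ k ∈ Finset.Icc 1 ⌊M⌋₊, ∑ c ∈ Finset.range (k + 1), (Z k c).card := by
        refine Finset.card_biUnion_le.trans ?_
        exact Finset.sum_le_sum (fun k _ => Finset.card_biUnion_le)
      have h3 : (S.card : ℝ) ≤
          ∑ k ∈ Finset.Icc 1 ⌊M⌋₊, ∑ c ∈ Finset.range (k + 1), ((Z k c).card : ℝ) := by
        exact_mod_cast h2
      refine h3.trans (Finset.sum_le_sum ?_)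
      intro k hk
      have hk1 : 1 ≤ k := (Finset.mem_Icc.1 hk).1
      have hkr : (1 : ℝ) ≤ k := by exact_mod_cast hk1
      have hkp : (0 : ℝ) < k := by linarith
      calc ∑ c ∈ Finset.range (k + 1), ((Z k c).card : ℝ)
          ≤ ∑ c ∈ Finset.range (k + 1), (192 * (N : ℝ) / (k * Q) + 2) :=
            Finset.sum_le_sum (fun c _ => hZc k c)
        _ = ((k : ℝ) + 1) * (192 * (N : ℝ) / (k * Q) + 2) := by
            rw [Finset.sum_const, Finset.card_range, nsmul_eq_mul]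
            push_cast
            ring
        _ ≤ (2 * (k : ℝ)) * (192 * (N : ℝ) / (k * Q) + 2) :=
            mul_le_mul_of_nonneg_right (by linarith) (by positivity)
        _ = 384 * N / Q + 4 * (k : ℝ) := by
            field_simp
            ring
    refine h1.trans ?_
    have hfl : ((⌊M⌋₊ : ℕ) : ℝ) ≤ M := Nat.floor_le hM
    have hf0 : (0 : ℝ) ≤ ((⌊M⌋₊ : ℕ) : ℝ) := Nat.cast_nonneg _
    have h4 : ∑ k ∈ Finset.Icc 1 ⌊M⌋₊, (384 * (N : ℝ) / Q + 4 * (k : ℝ)) ≤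
        ∑ k ∈ Finset.Icc 1 ⌊M⌋₊, (384 * (N : ℝ) / Q + 4 * M) := by
      refine Finset.sum_le_sum ?_
      intro k hk
      have hk2 : k ≤ ⌊M⌋₊ := (Finset.mem_Icc.1 hk).2
      have : (k : ℝ) ≤ ((⌊M⌋₊ : ℕ) : ℝ) := by exact_mod_cast hk2
      linarith
    refine h4.trans ?_
    rw [Finset.sum_const, Nat.card_Icc, nsmul_eq_mul, Nat.add_sub_cancel]
    calc ((⌊M⌋₊ : ℕ) : ℝ) * (384 * (N : ℝ) / Q + 4 * M)
        ≤ M * (384 * (N : ℝ) / Q + 4 * M) :=
          mul_le_mul_of_nonneg_right hfl (by positivity)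
      _ = 384 * M * N / Q + 4 * M ^ 2 := by ring
  calc (cnt N {x : Fin (n + 1) → ℝ | x ∈ ucube (n + 1) ∧ NearFrac Q M (x 0)} : ℝ)
      ≤ ((S.card * N ^ n : ℕ) : ℝ) := by exact_mod_cast hcard
    _ = (N : ℝ) ^ n * (S.card : ℝ) := by push_cast; ring
    _ ≤ (N : ℝ) ^ n * (384 * M * N / Q + 4 * M ^ 2) :=
        mul_le_mul_of_nonneg_left hSc (by positivity)

end Pool.A6405.HC
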