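import Pool.Agent.H.MP_a6405b_nt.hc.Hole
import Pool.Agent.H.MP_a6405b_nt.hc.GridB
import Pool.Agent.H.MP_a6405b_nt.hc.GridC

set_option autoImplicit false

namespace Pool.A6405.HC

/-- Counting at one `Q`. Proof: let `R = 2400000 / γ ^ 2` (so `2359296 / γ ^ 2 < R`, `R > 1`),
`E₀ = {x ∈ Ω ∩ ucube | BigAt (γ^3) Q (pt φ₁ φ₂ x)}`, `F` the part of `E₀` with
`¬ NearFrac Q M (x 0)`, `G = {x ∈ ucube | NearFrac Q M (x 0)}`; `cnt_union_le` and `slab_count` for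
`G`. For `F` use `cnt_iter`: for `j < J` let `N = N₀ b ^ j`, `T = 100 R ^ 4 N / Q`, so
`25 R ^ 4 / (T Q) = 1 / (4 N)`. `hole` for `x ∈ F` gives `y₀` with
`|x 0 - y₀| ≤ 24 R ^ 4 / (T Q)`; with `ρ = γ ^ 3 / (5 R ^ 2) / (T Q)` we have
`|x 0 - y₀| + ρ ≤ 25 R ^ 4 / (T Q) = 1 / (4 N)` since `γ ^ 3 / (5 R ^ 2) ≤ 1 ≤ R ^ 4`, and
`ρ = γ ^ 3 / (500 R ^ 6 N) ≥ 1 / (b N)` by `hb`. So `child_missing` applies to `F` (`b ≥ 4` because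
`500 R ^ 6 / γ ^ 3 ≥ 4`). -/
theorem count_one {n : ℕ} (γ : ℝ) (hγ : 0 < γ) (hγ1 : γ < 1) (R : ℝ) (hR : R = 2400000 / γ ^ 2)
    (b : ℕ) (hb : 500 * R ^ 6 / γ ^ 3 ≤ b) (Q : ℕ) (hQ : 96 < Q) (N₀ J : ℕ) (hN₀ : 0 < N₀)
    (M : ℝ) (hM : 0 ≤ M) (C θ : ℝ)
    (hT1 : ∀ j < J, 1 ≤ 100 * R ^ 4 * (N₀ * (b : ℝ) ^ j) / Q)
    (hT2 : ∀ j < J, 100 * R ^ 4 * (N₀ * (b : ℝ) ^ j) / Q ≤ Q)
    (hT3 : ∀ j < J, 96 * (100 * R ^ 4 * (N₀ * (b : ℝ) ^ j) / Q) / R ≤ M)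
    (hsm : ∀ j < J, C * (1 / (4 * (N₀ * (b : ℝ) ^ j))) ^ θ * Q ≤
      R * (100 * R ^ 4 * (N₀ * (b : ℝ) ^ j) / Q) / Q)
    (Ω : Set (Fin (n + 1) → ℝ)) (φ₁ φ₂ : (Fin (n + 1) → ℝ) → ℝ)
    (hφ₁ : ∀ x ∈ Ω, ∀ x' ∈ Ω, ∀ ρ : ℝ, (∀ i, |x' i - x i| ≤ ρ) →
      |φ₁ x' - φ₁ x| ≤ C * ρ ^ θ)
    (hφ₂ : ∀ x ∈ Ω, ∀ x' ∈ Ω, ∀ ρ : ℝ, (∀ i, |x' i - x i| ≤ ρ) →
      |φ₂ x' - φ₂ x| ≤ C * ρ ^ θ) :
    (cnt (N₀ * b ^ J) {x | x ∈ Ω ∧ x ∈ ucube (n + 1) ∧ BigAt (γ ^ 3) Q (pt φ₁ φ₂ x)} : ℝ) ≤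
      (N₀ : ℝ) ^ (n + 1) * ((b : ℝ) ^ (n + 1) - 1) ^ J +
        ((N₀ : ℝ) * (b : ℝ) ^ J) ^ n *
          (384 * M * ((N₀ : ℝ) * (b : ℝ) ^ J) / Q + 4 * M ^ 2) := by
  have hγ2 : 0 < γ ^ 2 := by positivity
  have hγ3 : 0 < γ ^ 3 := by positivity
  have hγ2' : γ ^ 2 ≤ 1 := pow_le_one₀ hγ.le hγ1.le
  have hγ3' : γ ^ 3 ≤ 1 := pow_le_one₀ hγ.le hγ1.le
  have hR1 : 2400000 ≤ R := by
    rw [hR, le_div_iff₀ hγ2]
    nlinarith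
  have hRpos : 0 < R := by linarith
  have hRγ : 2359296 / γ ^ 2 < R := by
    rw [hR]
    exact div_lt_div_of_pos_right (by norm_num) hγ2
  have hQr : (0 : ℝ) < (Q : ℝ) := by
    have : 0 < Q := by omega
    exact_mod_cast this
  have hR2 : 1 ≤ R ^ 2 := one_le_pow₀ (by linarith)
  have hR4 : 1 ≤ R ^ 4 := one_le_pow₀ (by linarith)
  have hR6 : 1 ≤ R ^ 6 := one_le_pow₀ (by linarith)
  have hb500 : 500 ≤ 500 * R ^ 6 / γ ^ 3 := by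
    rw [le_div_iff₀ hγ3]
    nlinarith
  have hb4r : (500 : ℝ) ≤ (b : ℝ) := hb500.trans hb
  have hb4 : 4 ≤ b := by
    have : 500 ≤ b := by exact_mod_cast hb4r
    omega
  have hb0 : 0 < b := by omega
  have hbr : (0 : ℝ) < (b : ℝ) := by linarith
  have hN₀r : (0 : ℝ) < (N₀ : ℝ) := by exact_mod_cast hN₀
  set E : Set (Fin (n + 1) → ℝ) :=
    {x | x ∈ Ω ∧ x ∈ ucube (n + 1) ∧ BigAt (γ ^ 3) Q (pt φ₁ φ₂ x)} with hE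
  set F : Set (Fin (n + 1) → ℝ) := {x | x ∈ E ∧ ¬ NearFrac Q M (x 0)} with hF
  set G : Set (Fin (n + 1) → ℝ) := {x | x ∈ ucube (n + 1) ∧ NearFrac Q M (x 0)} with hG
  have hFu : F ⊆ ucube (n + 1) := fun x hx => hx.1.2.1
  have hGu : G ⊆ ucube (n + 1) := fun x hx => hx.1
  have hcov : E ⊆ F ∪ G := by
    intro x hx
    by_cases hn : NearFrac Q M (x 0)
    · exact Or.inr ⟨hx.2.1, hn⟩
    · exact Or.inl ⟨hx, hn⟩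
  have h1 := cnt_union_le (N₀ * b ^ J) E F G hFu hGu hcov
  have h2 : cnt (N₀ * b ^ J) F ≤ N₀ ^ (n + 1) * (b ^ (n + 1) - 1) ^ J := by
    refine cnt_iter N₀ b J hN₀ hb0 F hFu fun j hj => ?_
    set N : ℝ := (N₀ : ℝ) * (b : ℝ) ^ j with hN
    have hNpos : 0 < N := by positivity
    have hNcast : ((N₀ * b ^ j : ℕ) : ℝ) = N := by push_cast; rfl
    set T : ℝ := 100 * R ^ 4 * N / Q with hT
    have hTQ : T * Q = 100 * R ^ 4 * N := by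
      rw [hT]
      field_simp
    have hTQpos : 0 < T * Q := by rw [hTQ]; positivity
    have h25 : 25 * R ^ 4 / (T * Q) = 1 / (4 * N) := by
      rw [hTQ]
      field_simp
      norm_num
    refine child_missing (N₀ * b ^ j) b (by positivity) hb4 F (γ ^ 3 / (5 * R ^ 2) / (T * Q)) ?_ ?_
    · rw [hNcast, hTQ]
      have e : γ ^ 3 / (5 * R ^ 2) / (100 * R ^ 4 * N) = γ ^ 3 / (500 * R ^ 6 * N) := by
        rw [div_div]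
        congr 1
        ring
      rw [e, div_le_div_iff₀ (by positivity) (by positivity)]
      rw [div_le_iff₀ hγ3] at hb
      nlinarith
    · intro x hx
      obtain ⟨y₀, hy1, hy2⟩ := hole γ R hγ hγ1 hRγ Q hQ T M (hT1 j hj) (hT2 j hj) (hT3 j hj) C θ Ω
        φ₁ φ₂ hφ₁ hφ₂ (by
          rw [h25]
          exact hsm j hj) x hx.1.1 hx.1.2.2 hx.2
      rw [hNcast]
      refine ⟨y₀, ?_, fun x' hx' hlt => ?_⟩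
      · have h3 : γ ^ 3 / (5 * R ^ 2) / (T * Q) ≤ R ^ 4 / (T * Q) := by
          apply div_le_div_of_nonneg_right _ hTQpos.le
          have h4 : γ ^ 3 / (5 * R ^ 2) ≤ 1 := by
            rw [div_le_one (by positivity)]
            linarith
          linarith
        have h5 : 24 * R ^ 4 / (T * Q) + R ^ 4 / (T * Q) = 1 / (4 * N) := by
          rw [← h25]
          ring
        linarith
      · obtain ⟨i, hi⟩ := hy2 x' hx'.1.1 hx'.1.2.2 hlt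
        rw [h25] at hi
        exact ⟨i, hi⟩
  have h3 := slab_count (n := n) (N₀ * b ^ J) Q (by positivity) (by omega) M hM
  have hcast : ((N₀ * b ^ J : ℕ) : ℝ) = (N₀ : ℝ) * (b : ℝ) ^ J := by push_cast; rfl
  rw [hcast] at h3
  have h4 : (cnt (N₀ * b ^ J) F : ℝ) ≤ (N₀ : ℝ) ^ (n + 1) * ((b : ℝ) ^ (n + 1) - 1) ^ J := by
    have h5 : (cnt (N₀ * b ^ J) F : ℝ) ≤ ((N₀ ^ (n + 1) * (b ^ (n + 1) - 1) ^ J : ℕ) : ℝ) := by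
      exact_mod_cast h2
    have h6 : 1 ≤ b ^ (n + 1) := Nat.one_le_pow _ _ hb0
    push_cast [Nat.cast_sub h6] at h5
    exact h5
  have h7 : (cnt (N₀ * b ^ J) E : ℝ) ≤ (cnt (N₀ * b ^ J) F : ℝ) + (cnt (N₀ * b ^ J) G : ℝ) := by
    exact_mod_cast h1
  linarith

end Pool.A6405.HC
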