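import Mathlib

set_option autoImplicit false

namespace Pool.A6405.HC

/-- distance of a real number to the nearest integer -/
noncomputable def dni (x : ℝ) : ℝ := |x - (round x : ℝ)|

/-- Euclidean norm on `Fin 4 → ℝ` -/
noncomputable def nrm (y : Fin 4 → ℝ) : ℝ := Real.sqrt (∑ i, y i ^ 2)

/-- the real vector `A v` for an integer vector `v` -/
def av (A : Matrix (Fin 4) (Fin 4) ℝ) (v : Fin 4 → ℤ) : Fin 4 → ℝ :=
  A.mulVec (fun i => (v i : ℝ))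

/-- the matrix of the scaled linear forms `q/Q`, `S_k (q ξ_k - p_k)/R` -/
noncomputable def siteM (Q R : ℝ) (ξ S : Fin 3 → ℝ) : Matrix (Fin 4) (Fin 4) ℝ :=
  !![1 / Q, 0, 0, 0;
     S 0 * ξ 0 / R, -(S 0 / R), 0, 0;
     S 1 * ξ 1 / R, 0, -(S 1 / R), 0;
     S 2 * ξ 2 / R, 0, 0, -(S 2 / R)]

/-- the integer functional `n` is small at the site `S` -/
def SmallFun (C Q R : ℝ) (ξ S : Fin 3 → ℝ) (n : Fin 4 → ℤ) : Prop :=
  |(n 0 : ℝ) + ∑ k : Fin 3, ξ k * (n k.succ : ℝ)| * Q ≤ C ∧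
    ∀ k : Fin 3, |(n k.succ : ℝ)| * R ≤ C * S k

/-- `Q` is bad for `ξ` with constant `g` -/
def BigAt (g : ℝ) (Q : ℕ) (ξ : Fin 3 → ℝ) : Prop :=
  ∀ q : ℕ, 1 ≤ q → q ≤ Q →
    g / Q ≤ dni ((q : ℝ) * ξ 0) * dni ((q : ℝ) * ξ 1) * dni ((q : ℝ) * ξ 2)

/-- `x₀` is very close to a fraction with denominator at most `M` -/
def NearFrac (Q : ℕ) (M x₀ : ℝ) : Prop :=
  ∃ m : ℕ, 1 ≤ m ∧ (m : ℝ) ≤ M ∧ dni ((m : ℝ) * x₀) * Q ≤ 96

/-- the point of `ℝ³` attached to `x` -/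
def pt {n : ℕ} (φ₁ φ₂ : (Fin (n + 1) → ℝ) → ℝ) (x : Fin (n + 1) → ℝ) : Fin 3 → ℝ :=
  ![φ₁ x, φ₂ x, x 0]

/-- index of the grid cube of side `1/N` containing `x` -/
noncomputable def gidx {m : ℕ} (N : ℕ) (x : Fin m → ℝ) : Fin m → ℤ :=
  fun i => ⌊(N : ℝ) * x i⌋

/-- number of grid cubes of side `1/N` which meet `E` -/
noncomputable def cnt {m : ℕ} (N : ℕ) (E : Set (Fin m → ℝ)) : ℕ := (gidx N '' E).ncard

/-- the half open unit cube -/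
def ucube (m : ℕ) : Set (Fin m → ℝ) := {x | ∀ i, 0 ≤ x i ∧ x i < 1}

end Pool.A6405.HC
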