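import Pool.Agent.H.MP_a6405b_nt.hc.Unit

set_option autoImplicit false

namespace Pool.A6405.HC

open Filter MeasureTheory
open scoped NNReal ENNReal

private theorem final_dni_add (x : ℝ) (z : ℤ) : dni (x + z) = dni x := by
  unfold dni
  rw [round_add_intCast]
  push_cast
  congr 1
  ring

private theorem final_hoelder {n : ℕ} (θ C : ℝ≥0) (Ω : Set (Fin (n + 1) → ℝ))
    (φ : (Fin (n + 1) → ℝ) → ℝ) (h : HolderOnWith C θ φ Ω) (w : Fin (n + 1) → ℝ) :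
    ∀ x ∈ {x : Fin (n + 1) → ℝ | x + w ∈ Ω}, ∀ x' ∈ {x : Fin (n + 1) → ℝ | x + w ∈ Ω},
      ∀ ρ : ℝ, (∀ i, |x' i - x i| ≤ ρ) →
      |φ (x' + w) - φ (x + w)| ≤ (C : ℝ) * ρ ^ (θ : ℝ) := by
  intro x hx x' hx' ρ hρ
  have h0 : 0 ≤ ρ := (abs_nonneg _).trans (hρ 0)
  have h1 : dist (x' + w) (x + w) ≤ ρ := by
    rw [dist_add_right, dist_pi_le_iff h0]
    intro i
    rw [Real.dist_eq]
    exact hρ i
  have h2 := h.dist_le_of_le hx' hx h1
  rwa [Real.dist_eq] at h2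

/-- All of `Ω`. Proof: `ℝ^(n+1)` is the union over `v : Fin (n+1) → ℤ` of `v + ucube`. For fixed `v`
put `Ω' = {x | x + v ∈ Ω}`, `φ' x = φ (x + v)`: the Hoelder conditions hold with the same
constants, and `dni (q (x 0 + v 0)) = dni (q x 0)` (`round_add_intCast`), so `BigAt` is the same.
The part of the set in `v + ucube` is the image under the isometry `x ↦ x + v` of the set of
`unit_zero` for `Ω', φ'`, so it has `μH = 0`, hence dimension `≤ d`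
(`dimH_le_of_hausdorffMeasure_ne_top` with `d` as `ℝ≥0`, `Isometry.dimH_image` or translation
invariance of `μH`), and `dimH_iUnion` for the countable union. The index
`d = n + 1 - δ` is nonnegative because `δ ≤ 1`. The set with the constant `c` is contained in the one
with `γ ^ 3 = c / 2` and powers of two by `dyadic`. The hypothesis of `unit_zero` on `φ` follows from
`HolderOnWith` (sup metric on `Fin (n+1) → ℝ`, `dist_pi_le_iff`, `Real.rpow_le_rpow`; note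
`0 ≤ ρ`). -/
theorem dim_all {n : ℕ} (θ C : ℝ≥0) (hθ : 1 / 2 < θ) (hθ1 : θ ≤ 1)
    (Ω : Set (Fin (n + 1) → ℝ)) (φ₁ φ₂ : (Fin (n + 1) → ℝ) → ℝ)
    (h₁ : HolderOnWith C θ φ₁ Ω) (h₂ : HolderOnWith C θ φ₂ Ω)
    (c γ : ℝ) (hγ : 0 < γ) (hγ1 : γ < 1) (hc : γ ^ 3 = c / 2) (R : ℝ)
    (hR : R = 2400000 / γ ^ 2) (b : ℕ) (hb : 500 * R ^ 6 / γ ^ 3 ≤ b) :
    dimH {x | x ∈ Ω ∧ ∃ᶠ Q : ℕ in atTop, ∀ q : ℕ, 1 ≤ q → q ≤ Q →
      c ≤ (Q : ℝ) * (dni ((q : ℝ) * φ₁ x) * dni ((q : ℝ) * φ₂ x) * dni ((q : ℝ) * x 0))} ≤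
    ENNReal.ofReal ((n : ℝ) + 1 -
      (2 * (θ : ℝ) - 1) / (1 + θ) / (12 * ((b : ℝ) ^ (n + 1) * Real.log b))) := by
  have hθ' : (1 / 2 : ℝ) < (θ : ℝ) := by
    have : ((1 / 2 : ℝ≥0) : ℝ) < (θ : ℝ) := by exact_mod_cast hθ
    simpa using this
  have hθ1' : (θ : ℝ) ≤ 1 := by exact_mod_cast hθ1
  have hc0 : 0 < c := by
    have : 0 < γ ^ 3 := by positivity
    linarith
  have hγ2 : γ ^ 2 ≤ 1 := pow_le_one₀ hγ.le hγ1.le
  have hγ3 : γ ^ 3 ≤ 1 := pow_le_one₀ hγ.le hγ1.le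
  have hR1 : 1 ≤ R := by
    rw [hR, one_le_div (by positivity)]
    linarith
  have hb3 : (3 : ℝ) ≤ (b : ℝ) := by
    refine le_trans ?_ hb
    rw [le_div_iff₀ (by positivity)]
    have : 1 ≤ R ^ 6 := one_le_pow₀ hR1
    linarith
  have hlog : 1 ≤ Real.log (b : ℝ) := by
    rw [Real.le_log_iff_exp_le (by linarith)]
    have := Real.exp_one_lt_d9
    linarith
  have hpow : 1 ≤ (b : ℝ) ^ (n + 1) := one_le_pow₀ (by linarith)
  have hbl : 1 ≤ (b : ℝ) ^ (n + 1) * Real.log b := by nlinarith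
  obtain ⟨δ, hδ⟩ : ∃ δ, δ = (2 * (θ : ℝ) - 1) / (1 + θ) /
      (12 * ((b : ℝ) ^ (n + 1) * Real.log b)) := ⟨_, rfl⟩
  have hδ1 : δ ≤ 1 := by
    rw [hδ, div_le_one (by positivity)]
    have h1 : (2 * (θ : ℝ) - 1) / (1 + θ) ≤ 1 := by
      rw [div_le_one (by positivity)]
      linarith
    linarith
  have hd0 : 0 ≤ (n : ℝ) + 1 - δ := by
    have : (0 : ℝ) ≤ n := Nat.cast_nonneg n
    linarith
  rw [← hδ]
  obtain ⟨W, hW⟩ : ∃ W : (Fin (n + 1) → ℤ) → (Fin (n + 1) → ℝ), W = fun v i => (v i : ℝ) :=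
    ⟨_, rfl⟩
  obtain ⟨S, hS⟩ : ∃ S : (Fin (n + 1) → ℤ) → Set (Fin (n + 1) → ℝ),
      S = fun v => {x | x ∈ {x : Fin (n + 1) → ℝ | x + W v ∈ Ω} ∧ x ∈ ucube (n + 1) ∧
        ∃ᶠ k : ℕ in atTop, BigAt (γ ^ 3) (2 ^ k)
          (pt (fun x => φ₁ (x + W v)) (fun x => φ₂ (x + W v)) x)} := ⟨_, rfl⟩
  have hdim : ∀ v, dimH (S v) ≤ ENNReal.ofReal ((n : ℝ) + 1 - δ) := by
    intro v
    have h1 := unit_zero γ hγ hγ1 R hR b hb (C : ℝ) (θ : ℝ) hθ' hθ1'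
      {x : Fin (n + 1) → ℝ | x + W v ∈ Ω} (fun x => φ₁ (x + W v)) (fun x => φ₂ (x + W v))
      (final_hoelder θ C Ω φ₁ h₁ (W v)) (final_hoelder θ C Ω φ₂ h₂ (W v))
    rw [← hδ] at h1
    have h3 : dimH (S v) ≤ ((Real.toNNReal ((n : ℝ) + 1 - δ) : ℝ≥0) : ℝ≥0∞) := by
      refine dimH_le_of_hausdorffMeasure_ne_top ?_
      rw [Real.coe_toNNReal _ hd0, hS, h1]
      exact ENNReal.zero_ne_top
    exact h3
  have hiso : ∀ v, Isometry (fun x : Fin (n + 1) → ℝ => x + W v) := fun v =>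
    Isometry.of_dist_eq fun x y => dist_add_right x y (W v)
  have hcov : {x | x ∈ Ω ∧ ∃ᶠ Q : ℕ in atTop, ∀ q : ℕ, 1 ≤ q → q ≤ Q →
      c ≤ (Q : ℝ) * (dni ((q : ℝ) * φ₁ x) * dni ((q : ℝ) * φ₂ x) * dni ((q : ℝ) * x 0))} ⊆
      ⋃ v, (fun x : Fin (n + 1) → ℝ => x + W v) '' (S v) := by
    rintro x ⟨hxΩ, hx⟩
    rw [Set.mem_iUnion]
    obtain ⟨v, hv⟩ : ∃ v : Fin (n + 1) → ℤ, v = fun i => ⌊x i⌋ := ⟨_, rfl⟩
    have hxy : (x - W v) + W v = x := sub_add_cancel x (W v)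
    refine ⟨v, x - W v, ?_, hxy⟩
    rw [hS]
    refine ⟨?_, ?_, ?_⟩
    · show (x - W v) + W v ∈ Ω
      rw [hxy]
      exact hxΩ
    · intro i
      have e : (x - W v) i = x i - (⌊x i⌋ : ℝ) := by
        rw [hW, hv]
        rfl
      rw [e]
      constructor
      · linarith [Int.floor_le (x i)]
      · linarith [Int.lt_floor_add_one (x i)]
    · have h5 := dyadic (pt φ₁ φ₂ x) c hc0 hx
      rw [hc]
      refine h5.mono fun k hk => ?_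
      intro q hq1 hq2
      have h6 := hk q hq1 hq2
      have e0 : pt (fun x => φ₁ (x + W v)) (fun x => φ₂ (x + W v)) (x - W v) 0 = φ₁ x := by
        show φ₁ ((x - W v) + W v) = φ₁ x
        rw [hxy]
      have e1 : pt (fun x => φ₁ (x + W v)) (fun x => φ₂ (x + W v)) (x - W v) 1 = φ₂ x := by
        show φ₂ ((x - W v) + W v) = φ₂ x
        rw [hxy]
      have e2 : pt (fun x => φ₁ (x + W v)) (fun x => φ₂ (x + W v)) (x - W v) 2 =
          x 0 - (v 0 : ℝ) := by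
        show (x - W v) 0 = x 0 - (v 0 : ℝ)
        rw [hW]
        rfl
      have e3 : dni ((q : ℝ) * (x 0 - (v 0 : ℝ))) = dni ((q : ℝ) * x 0) := by
        have e4 : (q : ℝ) * (x 0 - (v 0 : ℝ)) = (q : ℝ) * x 0 + ((-((q : ℤ) * v 0) : ℤ) : ℝ) := by
          push_cast
          ring
        rw [e4, final_dni_add]
      rw [e0, e1, e2, e3]
      exact h6
  refine (dimH_mono hcov).trans ?_
  rw [dimH_iUnion]
  refine iSup_le fun v => ?_
  rw [(hiso v).dimH_image]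
  exact hdim v

end Pool.A6405.HC
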