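import Pool.Agent.H.MP_a6405b_nt.hc.Defs

set_option autoImplicit false

namespace Pool.A6405.HC

/-- Proof: for `x` in the unit cube all entries of `gidx N x` lie in `[0, N)`. -/
theorem gidx_mem {m : ℕ} (N : ℕ) (hN : 0 < N) (x : Fin m → ℝ) (hx : x ∈ ucube m) (i : Fin m) :
    0 ≤ gidx N x i ∧ gidx N x i < N := by
  obtain ⟨h0, h1⟩ := hx i
  have hN' : (0 : ℝ) < N := by exact_mod_cast hN
  refine ⟨Int.floor_nonneg.2 (mul_nonneg hN'.le h0), ?_⟩
  change ⌊(N : ℝ) * x i⌋ < (N : ℤ)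
  rw [Int.floor_lt]
  have h2 := mul_lt_mul_of_pos_left h1 hN'
  rw [mul_one] at h2
  exact_mod_cast h2

/-- Proof: subset of a finite product of intervals (`Set.Finite.pi`, `gidx_mem`). -/
theorem image_finite {m : ℕ} (N : ℕ) (E : Set (Fin m → ℝ)) (hE : E ⊆ ucube m) :
    (gidx N '' E).Finite := by
  refine (Set.Finite.pi (fun _ : Fin m => Set.finite_Icc (0 : ℤ) (N : ℤ))).subset ?_
  rintro _ ⟨x, hx, rfl⟩
  rw [Set.mem_univ_pi]
  intro i
  obtain ⟨h0, h1⟩ := hE hx i
  have hN' : (0 : ℝ) ≤ N := Nat.cast_nonneg N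
  refine ⟨Int.floor_nonneg.2 (mul_nonneg hN' h0), ?_⟩
  change ⌊(N : ℝ) * x i⌋ ≤ (N : ℤ)
  have h2 : (N : ℝ) * x i ≤ ((N : ℤ) : ℝ) := by
    have h3 := mul_le_mul_of_nonneg_left h1.le hN'
    rw [mul_one] at h3
    exact_mod_cast h3
  exact (Int.floor_le_floor h2).trans (by rw [Int.floor_intCast])

/-- Proof: the image is a subset of the integer points of `[0, N)^m`, of cardinality `N ^ m`
(`Fintype.piFinset`, `Finset.Ico 0 N`). -/
theorem cnt_le_pow {m : ℕ} (N : ℕ) (hN : 0 < N) (E : Set (Fin m → ℝ)) (hE : E ⊆ ucube m) :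
    cnt N E ≤ N ^ m := by
  have h1 : gidx N '' E ⊆ (Fintype.piFinset (fun _ : Fin m => Finset.Ico (0 : ℤ) (N : ℤ)) :
      Set (Fin m → ℤ)) := by
    rintro _ ⟨x, hx, rfl⟩
    rw [Finset.mem_coe, Fintype.mem_piFinset]
    intro i
    rw [Finset.mem_Ico]
    exact gidx_mem N hN x (hE hx) i
  have h2 := Set.ncard_le_ncard h1 (Finset.finite_toSet _)
  rw [Set.ncard_coe_finset, Fintype.card_piFinset] at h2
  simpa [cnt] using h2

/-- Proof: `Set.image_union`, `Set.ncard_union_le`, and monotonicity of `ncard` on finite sets. -/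
theorem cnt_union_le {m : ℕ} (N : ℕ) (E F G : Set (Fin m → ℝ)) (hF : F ⊆ ucube m)
    (hG : G ⊆ ucube m) (h : E ⊆ F ∪ G) : cnt N E ≤ cnt N F + cnt N G := by
  have h1 : gidx N '' E ⊆ gidx N '' F ∪ gidx N '' G := by
    rw [← Set.image_union]
    exact Set.image_mono h
  exact (Set.ncard_le_ncard h1 ((image_finite N F hF).union (image_finite N G hG))).trans
    (Set.ncard_union_le _ _)

/-- Proof: `⌊y⌋ = ⌊b y⌋ / b` (floor division) for a natural number `b > 0`
(`Int.floor_div_natCast`-type lemma, or from the definition of floor). -/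
theorem gidx_div {m : ℕ} (N b : ℕ) (hb : 0 < b) (x : Fin m → ℝ) (i : Fin m) :
    gidx (N * b) x i / (b : ℤ) = gidx N x i := by
  have hb' : (b : ℝ) ≠ 0 := by exact_mod_cast hb.ne'
  have h1 := Int.floor_div_natCast (((N * b : ℕ) : ℝ) * x i) b
  have h2 : ((N * b : ℕ) : ℝ) * x i / (b : ℝ) = (N : ℝ) * x i := by
    push_cast
    field_simp
  rw [h2] at h1
  exact h1.symm

/-- One step. Proof: the map `a' ↦ (fun i => a' i / b)` sends the image at level `N * b` into the
image at level `N` (`gidx_div`). The fibre over `a` of this map on all integer vectors is the box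
`∏ [b a i, b a i + b)` with `b ^ m` elements, and by `h` at least one of them is not in the image at
level `N * b`. So each fibre of the finite image at level `N * b` has at most `b ^ m - 1` elements
(`Finset.card_le_mul_card_image_of_maps_to` or `Finset.card_eq_sum_card_fiberwise`). -/
theorem cnt_step {m : ℕ} (N b : ℕ) (hb : 0 < b) (E : Set (Fin m → ℝ)) (hE : E ⊆ ucube m)
    (h : ∀ a ∈ gidx N '' E, ∃ a' : Fin m → ℤ, (∀ i, a' i / (b : ℤ) = a i) ∧
      a' ∉ gidx (N * b) '' E) :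
    cnt (N * b) E ≤ (b ^ m - 1) * cnt N E := by
  classical
  have hA := image_finite (N * b) E hE
  have hB := image_finite N E hE
  have hA' : cnt (N * b) E = hA.toFinset.card := Set.ncard_eq_toFinset_card _ hA
  have hB' : cnt N E = hB.toFinset.card := Set.ncard_eq_toFinset_card _ hB
  rw [hA', hB']
  refine Finset.card_le_mul_card_image_of_maps_to
    (f := fun (a' : Fin m → ℤ) (i : Fin m) => a' i / (b : ℤ)) ?_ _ ?_
  · intro a' ha'
    rw [Set.Finite.mem_toFinset] at ha' ⊢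
    obtain ⟨x, hx, rfl⟩ := ha'
    refine ⟨x, hx, ?_⟩
    funext i
    exact (gidx_div N b hb x i).symm
  · intro a ha
    rw [Set.Finite.mem_toFinset] at ha
    obtain ⟨a0, ha0, ha0'⟩ := h a ha
    have hb' : (0 : ℤ) < b := by exact_mod_cast hb
    have hbox : ∀ a' : Fin m → ℤ, (∀ i, a' i / (b : ℤ) = a i) →
        a' ∈ Fintype.piFinset (fun i : Fin m => Finset.Ico ((b : ℤ) * a i) (b * a i + b)) := by
      intro a' h'
      rw [Fintype.mem_piFinset]
      intro i
      rw [Finset.mem_Ico, ← h' i]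
      have e1 := Int.mul_ediv_add_emod (a' i) b
      have e2 := Int.emod_nonneg (a' i) hb'.ne'
      have e3 := Int.emod_lt_of_pos (a' i) hb'
      constructor <;> linarith
    have hsub : {a' ∈ hA.toFinset | (fun i : Fin m => a' i / (b : ℤ)) = a} ⊆
        (Fintype.piFinset (fun i : Fin m =>
          Finset.Ico ((b : ℤ) * a i) (b * a i + b))).erase a0 := by
      intro a' ha'
      rw [Finset.mem_filter, Set.Finite.mem_toFinset] at ha'
      rw [Finset.mem_erase]
      refine ⟨?_, hbox a' fun i => congrFun ha'.2 i⟩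
      rintro rfl
      exact ha0' ha'.1
    refine (Finset.card_le_card hsub).trans ?_
    rw [Finset.card_erase_of_mem (hbox a0 ha0), Fintype.card_piFinset]
    refine Nat.sub_le_sub_right (le_of_eq ?_) 1
    simp

/-- Iteration. Proof: induction on `J` with `cnt_step` (`N₀ * b ^ (J+1) = N₀ * b ^ J * b`) and
`cnt_le_pow` for `J = 0`. -/
theorem cnt_iter {m : ℕ} (N₀ b J : ℕ) (hN₀ : 0 < N₀) (hb : 0 < b) (E : Set (Fin m → ℝ)) (hE : E ⊆ ucube m)
    (h : ∀ j < J, ∀ a ∈ gidx (N₀ * b ^ j) '' E, ∃ a' : Fin m → ℤ,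
      (∀ i, a' i / (b : ℤ) = a i) ∧ a' ∉ gidx (N₀ * b ^ j * b) '' E) :
    cnt (N₀ * b ^ J) E ≤ N₀ ^ m * (b ^ m - 1) ^ J := by
  induction J with
  | zero =>
    rw [pow_zero, mul_one, pow_zero, mul_one]
    exact cnt_le_pow N₀ hN₀ E hE
  | succ J ih =>
    have h1 := ih fun j hj => h j (hj.trans (Nat.lt_succ_self J))
    have h2 := cnt_step (N₀ * b ^ J) b hb E hE (h J (Nat.lt_succ_self J))
    rw [pow_succ, ← mul_assoc]
    refine h2.trans ?_
    rw [pow_succ]
    calc (b ^ m - 1) * cnt (N₀ * b ^ J) E ≤ (b ^ m - 1) * (N₀ ^ m * (b ^ m - 1) ^ J) :=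
          Nat.mul_le_mul_left _ h1
      _ = N₀ ^ m * ((b ^ m - 1) ^ J * (b ^ m - 1)) := by ring

end Pool.A6405.HC
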