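import Pool.Agent.H.MP_a6405b_nt.hc.GridA

set_option autoImplicit false

namespace Pool.A6405.HC

open Filter MeasureTheory

/-- Proof: two points with the same index differ by less than `1/N` in each coordinate; the metric on
`Fin m → ℝ` is the sup metric. -/
theorem diam_cell {m : ℕ} (N : ℕ) (hN : 0 < N) (a : Fin m → ℤ) :
    Metric.ediam {x : Fin m → ℝ | gidx N x = a} ≤ ENNReal.ofReal (1 / N) := by
  have hN' : (0 : ℝ) < (N : ℝ) := by exact_mod_cast hN
  refine Metric.ediam_le ?_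
  intro x hx y hy
  rw [edist_dist]
  apply ENNReal.ofReal_le_ofReal
  rw [dist_pi_le_iff (by positivity)]
  intro i
  have hxi : ⌊(N : ℝ) * x i⌋ = a i := congrFun hx i
  have hyi : ⌊(N : ℝ) * y i⌋ = a i := congrFun hy i
  have h1 := Int.floor_le ((N : ℝ) * x i)
  have h2 := Int.lt_floor_add_one ((N : ℝ) * x i)
  have h3 := Int.floor_le ((N : ℝ) * y i)
  have h4 := Int.lt_floor_add_one ((N : ℝ) * y i)
  rw [hxi] at h1 h2
  rw [hyi] at h3 h4
  have h5 : |x i - y i| * (N : ℝ) = |(x i - y i) * N| := by rw [abs_mul, abs_of_pos hN']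
  rw [Real.dist_eq, le_div_iff₀ hN', h5, abs_le]
  constructor <;> nlinarith

/-- Hausdorff-Cantelli. Proof: for `K ≥ k₀` the set `L` on the left is covered by the countable
family (index `(k, a)`, `k ≥ K`, `a` in the finite set `gidx (N k) '' G k`) of the cells
`{x | gidx (N k) x = a}`, of diameter at most `1 / N k ≤ 2 ^ (-K)`, and the sum of the `d`-th powers
of the diameters is at most `∑_{k ≥ K} cnt (N k) (G k) * (1 / N k) ^ d ≤ C' ρ ^ K / (1 - ρ)`, which
tends to `0`. Use `MeasureTheory.Measure.hausdorffMeasure_le_liminf_tsum` (index `K → ∞`). -/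
theorem hausdorff_zero {m : ℕ} (d : ℝ) (hd : 0 ≤ d) (G : ℕ → Set (Fin m → ℝ)) (N : ℕ → ℕ)
    (C' ρ : ℝ) (hρ0 : 0 < ρ) (hρ1 : ρ < 1) (k₀ : ℕ)
    (hG : ∀ k, G k ⊆ ucube m) (hN : ∀ k, k₀ ≤ k → 2 ^ k ≤ N k)
    (hc : ∀ k, k₀ ≤ k → (cnt (N k) (G k) : ℝ) * (N k : ℝ) ^ (-d) ≤ C' * ρ ^ k) :
    μH[d] {x | ∃ᶠ k in atTop, x ∈ G k} = 0 := by
  classical
  have hNpos : ∀ k, k₀ ≤ k → 0 < N k := fun k hk => lt_of_lt_of_le (by positivity) (hN k hk)
  let ι : ℕ → Type := fun K => Σ j : ℕ, ↥(gidx (N (K + j)) '' G (K + j))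
  let t : ∀ K : ℕ, ι K → Set (Fin m → ℝ) := fun K i => {x | gidx (N (K + i.1)) x = i.2.1}
  let r : ℕ → ENNReal := fun K => ENNReal.ofReal ((1 / 2) ^ K)
  have hr : Tendsto r atTop (nhds 0) := by
    have h1 : Tendsto (fun K : ℕ => ((1 : ℝ) / 2) ^ K) atTop (nhds 0) :=
      tendsto_pow_atTop_nhds_zero_of_lt_one (by norm_num) (by norm_num)
    have h2 := ENNReal.tendsto_ofReal h1
    rwa [ENNReal.ofReal_zero] at h2
  have hdiam : ∀ K, k₀ ≤ K → ∀ i : ι K, Metric.ediam (t K i) ≤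
      ENNReal.ofReal (1 / N (K + i.1)) := by
    intro K hK i
    exact diam_cell (N (K + i.1)) (hNpos _ (by omega)) i.2.1
  have ht : ∀ᶠ K in atTop, ∀ i : ι K, Metric.ediam (t K i) ≤ r K := by
    filter_upwards [eventually_ge_atTop k₀] with K hK i
    refine (hdiam K hK i).trans (ENNReal.ofReal_le_ofReal ?_)
    have h1 : (2 : ℝ) ^ (K + i.1) ≤ (N (K + i.1) : ℝ) := by
      exact_mod_cast hN (K + i.1) (by omega)
    have h2 : (2 : ℝ) ^ K ≤ 2 ^ (K + i.1) := pow_le_pow_right₀ (by norm_num) (by omega)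
    rw [one_div, one_div, inv_pow]
    exact inv_anti₀ (by positivity) (h2.trans h1)
  have hst : ∀ᶠ K in atTop, {x | ∃ᶠ k in atTop, x ∈ G k} ⊆ ⋃ i, t K i := by
    refine Eventually.of_forall fun K x hx => ?_
    obtain ⟨k, hk, hxk⟩ := (frequently_atTop.1 hx) K
    obtain ⟨j, rfl⟩ : ∃ j, k = K + j := ⟨k - K, by omega⟩
    exact Set.mem_iUnion.2 ⟨⟨j, ⟨gidx (N (K + j)) x, ⟨x, hxk, rfl⟩⟩⟩, rfl⟩
  have hmain := Measure.hausdorffMeasure_le_liminf_tsum d {x | ∃ᶠ k in atTop, x ∈ G k} r hr t ht hst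
  have hC0 : 0 ≤ C' := by
    have h1 := hc k₀ le_rfl
    have h2 : (0 : ℝ) ≤ (cnt (N k₀) (G k₀) : ℝ) * (N k₀ : ℝ) ^ (-d) := by positivity
    have h3 : (0 : ℝ) < ρ ^ k₀ := by positivity
    by_contra hneg
    rw [not_le] at hneg
    nlinarith
  have hsum : ∀ K, k₀ ≤ K → ∑' i, Metric.ediam (t K i) ^ d ≤
      ENNReal.ofReal (C' * ρ ^ K / (1 - ρ)) := by
    intro K hK
    rw [ENNReal.tsum_sigma']
    have h1 : ∀ j : ℕ, ∑' a : ↥(gidx (N (K + j)) '' G (K + j)), Metric.ediam (t K ⟨j, a⟩) ^ d ≤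
        ENNReal.ofReal (C' * ρ ^ K * ρ ^ j) := by
      intro j
      have hk : k₀ ≤ K + j := by omega
      have hNp := hNpos _ hk
      have hfin : (gidx (N (K + j)) '' G (K + j)).Finite :=
        image_finite (N (K + j)) (G (K + j)) (hG _)
      have := hfin.fintype
      rw [tsum_fintype]
      have h2 : ∀ a ∈ (Finset.univ : Finset ↥(gidx (N (K + j)) '' G (K + j))),
          Metric.ediam (t K ⟨j, a⟩) ^ d ≤ ENNReal.ofReal ((N (K + j) : ℝ) ^ (-d)) := by
        intro a _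
        refine (ENNReal.rpow_le_rpow (hdiam K hK ⟨j, a⟩) hd).trans ?_
        rw [ENNReal.ofReal_rpow_of_nonneg (by positivity) hd]
        apply ENNReal.ofReal_le_ofReal
        rw [Real.rpow_neg (by positivity), one_div, Real.inv_rpow (by positivity)]
      refine (Finset.sum_le_sum h2).trans ?_
      rw [Finset.sum_const, nsmul_eq_mul, Finset.card_univ]
      have h3 : (Fintype.card ↥(gidx (N (K + j)) '' G (K + j))) = cnt (N (K + j)) (G (K + j)) := by
        rw [cnt, ← Nat.card_coe_set_eq, Nat.card_eq_fintype_card]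
      rw [h3, ← ENNReal.ofReal_natCast, ← ENNReal.ofReal_mul (by positivity)]
      apply ENNReal.ofReal_le_ofReal
      refine (hc _ hk).trans (le_of_eq ?_)
      rw [pow_add]; ring
    refine (ENNReal.tsum_le_tsum h1).trans ?_
    have hsummable : Summable fun j : ℕ => C' * ρ ^ K * ρ ^ j :=
      (summable_geometric_of_lt_one hρ0.le hρ1).mul_left _
    rw [← ENNReal.ofReal_tsum_of_nonneg (fun j => by positivity) hsummable, tsum_mul_left,
      tsum_geometric_of_lt_one hρ0.le hρ1, div_eq_mul_inv]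
  have hlim : Tendsto (fun K : ℕ => ENNReal.ofReal (C' * ρ ^ K / (1 - ρ))) atTop (nhds 0) := by
    have h1 : Tendsto (fun K : ℕ => C' * ρ ^ K / (1 - ρ)) atTop (nhds (C' * 0 / (1 - ρ))) :=
      ((tendsto_pow_atTop_nhds_zero_of_lt_one hρ0.le hρ1).const_mul C').div_const _
    have h2 := ENNReal.tendsto_ofReal h1
    rwa [mul_zero, zero_div, ENNReal.ofReal_zero] at h2
  have hle : liminf (fun K => ∑' i, Metric.ediam (t K i) ^ d) atTop ≤ 0 := by
    rw [← hlim.liminf_eq]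
    have h1 : ∀ᶠ K in atTop, ∑' i, Metric.ediam (t K i) ^ d ≤
        ENNReal.ofReal (C' * ρ ^ K / (1 - ρ)) := by
      filter_upwards [eventually_ge_atTop k₀] with K hK
      exact hsum K hK
    exact liminf_le_liminf h1
  exact le_antisymm (hmain.trans hle) zero_le

end Pool.A6405.HC
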