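import Pool.Agent.H.MP_a6405b_nt.hc.SiteF

set_option autoImplicit false

namespace Pool.A6405.HC

/-- Hole lemma. Proof: apply `site_lemma` to `ξ = pt φ₁ φ₂ x` (`ξ 2 = x 0`; `hfar` comes from `hnf`,
since `m R ≤ 96 T` means `m ≤ 96 T / R ≤ M`). Get `q, p, s₀, s₁`; let `y₀ = p 2 / q`. Then
`|x 0 - y₀| = |q x 0 - p 2| / q ≤ R / (T q) ≤ 24 R ^ 4 / (T Q)`. Let `x' ∈ Ω` with `BigAt` and
`|x' 0 - y₀| < κ / (T Q)`, `κ = γ ^ 3 / (5 R ^ 2)`, and suppose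
`|x' i - x i| ≤ 25 R ^ 4 / (T Q)` for all `i`. Then by `hφ₁` and `hsm`
`|q φ₁ x' - p 0| ≤ |q φ₁ x - p 0| + Q * C * (25 R ^ 4 / (T Q)) ^ θ ≤ R / s₀ + R T / Q ≤ 2 R / s₀`,
because `s₀ ≤ Q / T` (as `s₁ ≥ 1`); in the same way for `φ₂` and `s₁`. And
`|q x' 0 - p 2| = q |x' 0 - y₀| < q κ / (T Q) ≤ κ / T`. So by `dni_le` the product of the three
distances is `< (2 R / s₀) (2 R / s₁) κ / T = 4 R ^ 2 κ / Q = (4/5) γ ^ 3 / Q < γ ^ 3 / Q`, against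
`BigAt (γ ^ 3) Q (pt φ₁ φ₂ x')`. -/
theorem hole {n : ℕ} (γ R : ℝ) (hγ : 0 < γ) (hγ1 : γ < 1) (hRγ : 2359296 / γ ^ 2 < R)
    (Q : ℕ) (hQ : 96 < Q) (T M : ℝ) (hT : 1 ≤ T) (hTQ : T ≤ Q) (hM : 96 * T / R ≤ M)
    (C θ : ℝ) (Ω : Set (Fin (n + 1) → ℝ)) (φ₁ φ₂ : (Fin (n + 1) → ℝ) → ℝ)
    (hφ₁ : ∀ x ∈ Ω, ∀ x' ∈ Ω, ∀ ρ : ℝ, (∀ i, |x' i - x i| ≤ ρ) →
      |φ₁ x' - φ₁ x| ≤ C * ρ ^ θ)
    (hφ₂ : ∀ x ∈ Ω, ∀ x' ∈ Ω, ∀ ρ : ℝ, (∀ i, |x' i - x i| ≤ ρ) →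
      |φ₂ x' - φ₂ x| ≤ C * ρ ^ θ)
    (hsm : C * (25 * R ^ 4 / (T * Q)) ^ θ * Q ≤ R * T / Q)
    (x : Fin (n + 1) → ℝ) (hx : x ∈ Ω) (hbig : BigAt (γ ^ 3) Q (pt φ₁ φ₂ x))
    (hnf : ¬ NearFrac Q M (x 0)) :
    ∃ y₀ : ℝ, |x 0 - y₀| ≤ 24 * R ^ 4 / (T * Q) ∧
      ∀ x' ∈ Ω, BigAt (γ ^ 3) Q (pt φ₁ φ₂ x') →
        |x' 0 - y₀| < γ ^ 3 / (5 * R ^ 2) / (T * Q) →
          ∃ i, 25 * R ^ 4 / (T * Q) < |x' i - x i| := by
  have hγ2 : (0 : ℝ) < γ ^ 2 := by positivity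
  have hγ21 : γ ^ 2 ≤ 1 := by nlinarith
  have hR1 : (1 : ℝ) < R := by
    have h1 : (2359296 : ℝ) ≤ 2359296 / γ ^ 2 := by
      rw [le_div_iff₀ hγ2]
      nlinarith
    linarith
  have hR0 : (0 : ℝ) < R := by linarith
  have hQ0 : (0 : ℝ) < (Q : ℝ) := by
    have : 0 < Q := by omega
    exact_mod_cast this
  have hT0 : (0 : ℝ) < T := by linarith
  have hTQ0 : (0 : ℝ) < T * Q := by positivity
  obtain ⟨q, p, s₀, s₁, hs₀, hs₁, hss, hq1, hqQ, hQq, h0, h1, h2⟩ :=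
    site_lemma γ R hγ hγ1 hRγ Q hQ (pt φ₁ φ₂ x) T hT hTQ hbig (by
      intro m hm hmR
      by_contra hcon
      rw [not_lt] at hcon
      refine hnf ⟨m, hm, ?_, hcon⟩
      refine le_trans ?_ hM
      rw [le_div_iff₀ hR0]
      exact hmR)
  have e0 : pt φ₁ φ₂ x 0 = φ₁ x := rfl
  have e1 : pt φ₁ φ₂ x 1 = φ₂ x := rfl
  have e2 : pt φ₁ φ₂ x 2 = x 0 := rfl
  rw [e0] at h0
  rw [e1] at h1
  rw [e2] at h2
  have hs₀0 : (0 : ℝ) < s₀ := by linarith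
  have hs₁0 : (0 : ℝ) < s₁ := by linarith
  have hq0 : (0 : ℝ) < (q : ℝ) := by
    have : 0 < q := by omega
    exact_mod_cast this
  have hqQ' : (q : ℝ) ≤ (Q : ℝ) := by exact_mod_cast hqQ
  have hy : ∀ t : ℝ, (q : ℝ) * t - p 2 = q * (t - p 2 / q) := by
    intro t
    field_simp
  have hya : ∀ t : ℝ, |(q : ℝ) * t - p 2| = q * |t - p 2 / q| := by
    intro t
    rw [hy, abs_mul, abs_of_pos hq0]
  refine ⟨p 2 / q, ?_, ?_⟩
  · rw [le_div_iff₀ hTQ0]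
    rw [hya] at h2
    have a0 : 0 ≤ |x 0 - (p 2 : ℝ) / q| := abs_nonneg _
    calc |x 0 - (p 2 : ℝ) / q| * (T * Q)
        = (|x 0 - (p 2 : ℝ) / q| * T) * Q := by ring
      _ ≤ (|x 0 - (p 2 : ℝ) / q| * T) * (24 * R ^ 3 * q) := by
          apply mul_le_mul_of_nonneg_left hQq (by positivity)
      _ = 24 * R ^ 3 * (q * |x 0 - (p 2 : ℝ) / q| * T) := by ring
      _ ≤ 24 * R ^ 3 * R := by
          apply mul_le_mul_of_nonneg_left h2 (by positivity)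
      _ = 24 * R ^ 4 := by ring
  · intro x' hx' hbig' hclose
    by_contra hcon
    have hall : ∀ i, |x' i - x i| ≤ 25 * R ^ 4 / (T * Q) := by
      intro i
      by_contra hi
      exact hcon ⟨i, not_le.1 hi⟩
    have key : ∀ (φ : (Fin (n + 1) → ℝ) → ℝ) (P s : ℝ), 0 < s → s * T ≤ Q →
        |φ x' - φ x| ≤ C * (25 * R ^ 4 / (T * Q)) ^ θ → |(q : ℝ) * φ x - P| * s ≤ R →
        |(q : ℝ) * φ x' - P| * s ≤ 2 * R := by
      intro φ P s hs hsT hd hP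
      have b1 : |(q : ℝ) * φ x' - P| ≤ |(q : ℝ) * φ x - P| + q * |φ x' - φ x| := by
        have : (q : ℝ) * φ x' - P = ((q : ℝ) * φ x - P) + q * (φ x' - φ x) := by ring
        rw [this]
        refine (abs_add_le _ _).trans ?_
        rw [abs_mul, abs_of_pos hq0]
      have b2 : (q : ℝ) * |φ x' - φ x| ≤ R * T / Q := by
        calc (q : ℝ) * |φ x' - φ x| ≤ Q * |φ x' - φ x| :=
              mul_le_mul_of_nonneg_right hqQ' (abs_nonneg _)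
          _ ≤ Q * (C * (25 * R ^ 4 / (T * Q)) ^ θ) := mul_le_mul_of_nonneg_left hd hQ0.le
          _ = C * (25 * R ^ 4 / (T * Q)) ^ θ * Q := by ring
          _ ≤ R * T / Q := hsm
      have b3 : R * T / Q * s ≤ R := by
        rw [div_mul_eq_mul_div, div_le_iff₀ hQ0]
        calc R * T * s = R * (s * T) := by ring
          _ ≤ R * Q := mul_le_mul_of_nonneg_left hsT hR0.le
      have b4 : (q : ℝ) * |φ x' - φ x| * s ≤ R :=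
        (mul_le_mul_of_nonneg_right b2 hs.le).trans b3
      calc |(q : ℝ) * φ x' - P| * s ≤ (|(q : ℝ) * φ x - P| + q * |φ x' - φ x|) * s :=
            mul_le_mul_of_nonneg_right b1 hs.le
        _ = |(q : ℝ) * φ x - P| * s + q * |φ x' - φ x| * s := by ring
        _ ≤ 2 * R := by linarith
    have hs0T : s₀ * T ≤ Q := by
      rw [← hss]
      have : 0 ≤ s₀ * T := by positivity
      nlinarith
    have hs1T : s₁ * T ≤ Q := by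
      rw [← hss]
      have : 0 ≤ s₁ * T := by positivity
      nlinarith
    have k0 := key φ₁ (p 0) s₀ hs₀0 hs0T (hφ₁ x hx x' hx' _ hall) h0
    have k1 := key φ₂ (p 1) s₁ hs₁0 hs1T (hφ₂ x hx x' hx' _ hall) h1
    have k2 : |(q : ℝ) * x' 0 - p 2| * T ≤ γ ^ 3 / (5 * R ^ 2) := by
      rw [hya]
      rw [lt_div_iff₀ hTQ0] at hclose
      calc (q : ℝ) * |x' 0 - (p 2 : ℝ) / q| * T ≤ Q * |x' 0 - (p 2 : ℝ) / q| * T := by
            apply mul_le_mul_of_nonneg_right _ hT0.le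
            exact mul_le_mul_of_nonneg_right hqQ' (abs_nonneg _)
        _ = |x' 0 - (p 2 : ℝ) / q| * (T * Q) := by ring
        _ ≤ γ ^ 3 / (5 * R ^ 2) := hclose.le
    have hb := hbig' q hq1 hqQ
    have f0 : pt φ₁ φ₂ x' 0 = φ₁ x' := rfl
    have f1 : pt φ₁ φ₂ x' 1 = φ₂ x' := rfl
    have f2 : pt φ₁ φ₂ x' 2 = x' 0 := rfl
    rw [f0, f1, f2] at hb
    have d0 := dni_le ((q : ℝ) * φ₁ x') (p 0)
    have d1 := dni_le ((q : ℝ) * φ₂ x') (p 1)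
    have d2 := dni_le ((q : ℝ) * x' 0) (p 2)
    have n0 : 0 ≤ dni ((q : ℝ) * φ₁ x') := abs_nonneg _
    have n1 : 0 ≤ dni ((q : ℝ) * φ₂ x') := abs_nonneg _
    have n2 : 0 ≤ dni ((q : ℝ) * x' 0) := abs_nonneg _
    have c0 : dni ((q : ℝ) * φ₁ x') * s₀ ≤ 2 * R :=
      (mul_le_mul_of_nonneg_right d0 hs₀0.le).trans k0
    have c1 : dni ((q : ℝ) * φ₂ x') * s₁ ≤ 2 * R :=
      (mul_le_mul_of_nonneg_right d1 hs₁0.le).trans k1
    have c2 : dni ((q : ℝ) * x' 0) * T ≤ γ ^ 3 / (5 * R ^ 2) :=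
      (mul_le_mul_of_nonneg_right d2 hT0.le).trans k2
    rw [div_le_iff₀ hQ0, ← hss] at hb
    have hg3 : 0 < γ ^ 3 := by positivity
    have hfin : γ ^ 3 ≤ (2 * R) * (2 * R) * (γ ^ 3 / (5 * R ^ 2)) := by
      calc γ ^ 3 ≤ dni ((q : ℝ) * φ₁ x') * dni ((q : ℝ) * φ₂ x') * dni ((q : ℝ) * x' 0) *
            (s₀ * s₁ * T) := hb
        _ = (dni ((q : ℝ) * φ₁ x') * s₀) * (dni ((q : ℝ) * φ₂ x') * s₁) *
            (dni ((q : ℝ) * x' 0) * T) := by ring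
        _ ≤ (2 * R) * (2 * R) * (γ ^ 3 / (5 * R ^ 2)) := by
            apply mul_le_mul _ c2 (by positivity) (by positivity)
            exact mul_le_mul c0 c1 (by positivity) (by positivity)
    have he : (2 * R) * (2 * R) * (γ ^ 3 / (5 * R ^ 2)) = 4 / 5 * γ ^ 3 := by
      field_simp
      ring
    rw [he] at hfin
    linarith

end Pool.A6405.HC
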