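import Pool.Agent.H.MP_a6405b_nt.hc.Defs

set_option autoImplicit false

namespace Pool.A6405.HC

theorem minA_abs_le (y : Fin 4 → ℝ) (i : Fin 4) : |y i| ≤ nrm y := by
  unfold nrm
  apply Real.abs_le_sqrt
  exact Finset.single_le_sum (f := fun i => y i ^ 2) (fun j _ => sq_nonneg (y j))
    (Finset.mem_univ i)

theorem minA_nonneg (y : Fin 4 → ℝ) : 0 ≤ nrm y := Real.sqrt_nonneg _

theorem minA_pos (A : Matrix (Fin 4) (Fin 4) ℝ) (hA : A.det ≠ 0) (v : Fin 4 → ℤ) (hv : v ≠ 0) :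
    0 < nrm (av A v) := by
  have h1 : av A v ≠ 0 := by
    intro h
    have h2 := Matrix.eq_zero_of_mulVec_eq_zero hA h
    apply hv
    funext i
    have := congrFun h2 i
    simpa using this
  obtain ⟨i, hi⟩ := Function.ne_iff.mp h1
  have h3 := minA_abs_le (av A v) i
  have h4 : 0 < |av A v i| := abs_pos.mpr (by simpa using hi)
  linarith

/-- Proof: `A` is invertible, so `v = A⁻¹ (A v)` and each `|v i|` is bounded by a constant times
`nrm (av A v)`; there are finitely many integer vectors with bounded entries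
(`Set.Finite.pi`/`Set.finite_Icc`, subset of a product of finite intervals). -/
theorem finite_le (A : Matrix (Fin 4) (Fin 4) ℝ) (hA : A.det ≠ 0) (r : ℝ) :
    {v : Fin 4 → ℤ | nrm (av A v) ≤ r}.Finite := by
  obtain ⟨C, hC⟩ : ∃ C : Fin 4 → ℝ, C = fun i => ∑ j, |A⁻¹ i j| := ⟨_, rfl⟩
  have hfin : (Set.pi Set.univ (fun i : Fin 4 => Set.Icc (-⌈C i * r⌉) ⌈C i * r⌉)).Finite :=
    Set.Finite.pi' (fun i => Set.finite_Icc _ _) |>.subset (fun v hv i => hv i (Set.mem_univ i))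
  refine hfin.subset ?_
  intro v hv i _
  have hv' : nrm (av A v) ≤ r := hv
  have h1 : (A⁻¹).mulVec (av A v) = fun i => (v i : ℝ) := by
    unfold av
    rw [Matrix.mulVec_mulVec, Matrix.nonsing_inv_mul _ (isUnit_iff_ne_zero.mpr hA),
      Matrix.one_mulVec]
  have h2 : (v i : ℝ) = ∑ j, A⁻¹ i j * av A v j := by
    have := congrFun h1 i
    rw [← this]
    rfl
  have h3 : |(v i : ℝ)| ≤ C i * r := by
    rw [h2, hC]
    calc |∑ j, A⁻¹ i j * av A v j| ≤ ∑ j, |A⁻¹ i j * av A v j| :=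
          Finset.abs_sum_le_sum_abs _ _
      _ ≤ ∑ j, |A⁻¹ i j| * r := by
          refine Finset.sum_le_sum (fun j _ => ?_)
          rw [abs_mul]
          exact mul_le_mul_of_nonneg_left ((minA_abs_le _ j).trans hv') (abs_nonneg _)
      _ = (∑ j, |A⁻¹ i j|) * r := by rw [Finset.sum_mul]
  have h4 := abs_le.mp h3
  have h5 : C i * r ≤ (⌈C i * r⌉ : ℝ) := Int.le_ceil _
  constructor
  · have : (((-⌈C i * r⌉ : ℤ)) : ℝ) ≤ (v i : ℝ) := by
      push_cast
      linarith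
    exact_mod_cast this
  · have : (v i : ℝ) ≤ ((⌈C i * r⌉ : ℤ) : ℝ) := by linarith
    exact_mod_cast this

/-- Proof: the set of `v` with `nrm (av A v) ≤ 1` is finite (`finite_le`); for `v ≠ 0` the value
`nrm (av A v)` is positive (`A` injective). Take the minimum of `1` and the values at the finitely
many nonzero `v` of that set. -/
theorem exists_lower (A : Matrix (Fin 4) (Fin 4) ℝ) (hA : A.det ≠ 0) :
    ∃ μ : ℝ, 0 < μ ∧ ∀ v : Fin 4 → ℤ, v ≠ 0 → μ ≤ nrm (av A v) := by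
  obtain ⟨T, hT⟩ : ∃ T : Set (Fin 4 → ℤ), T = {v | nrm (av A v) ≤ 1} \ {0} := ⟨_, rfl⟩
  have hTf : T.Finite := by
    rw [hT]
    exact (finite_le A hA 1).subset Set.sdiff_subset
  rcases T.eq_empty_or_nonempty with he | hne
  · refine ⟨1, one_pos, fun v hv => ?_⟩
    by_contra hlt
    push Not at hlt
    have : v ∈ T := by
      rw [hT]
      exact ⟨hlt.le, hv⟩
    rw [he] at this
    exact this
  · obtain ⟨v₀, hv₀, hmin⟩ := Set.exists_min_image T (fun v => nrm (av A v)) hTf hne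
    have hv₀' : v₀ ≠ 0 := by
      rw [hT] at hv₀
      exact hv₀.2
    refine ⟨min 1 (nrm (av A v₀)), lt_min one_pos (minA_pos A hA v₀ hv₀'), fun v hv => ?_⟩
    by_cases h1 : nrm (av A v) ≤ 1
    · have : v ∈ T := by
        rw [hT]
        exact ⟨h1, hv⟩
      exact (min_le_right _ _).trans (hmin v this)
    · push Not at h1
      exact (min_le_left _ _).trans h1.le

theorem minA_row_ne {V : Matrix (Fin 4) (Fin 4) ℤ} (hV : V.det ≠ 0) (i : Fin 4) : V i ≠ 0 := by
  intro h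
  exact hV (Matrix.det_eq_zero_of_row_eq_zero i (fun j => congrFun h j))

/-- Proof: take `μ` from `exists_lower`. A matrix `V` with `det ≠ 0` has nonzero rows, so each
`nrm (av A (V i)) ≥ μ`. Let `P₀` be the product for `V = 1`. If the product of `V` is at most `P₀`
then each `nrm (av A (V i)) ≤ P₀ / μ ^ 3`, so by `finite_le` there are only finitely many such `V`
(matrix = function of rows, `Set.Finite.pi`); choose one with the least product
(`Set.exists_min_image`). -/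
theorem exists_min (A : Matrix (Fin 4) (Fin 4) ℝ) (hA : A.det ≠ 0) :
    ∃ V : Matrix (Fin 4) (Fin 4) ℤ, V.det ≠ 0 ∧
      ∀ V' : Matrix (Fin 4) (Fin 4) ℤ, V'.det ≠ 0 →
        ∏ i, nrm (av A (V i)) ≤ ∏ i, nrm (av A (V' i)) := by
  obtain ⟨μ, hμ, hlow⟩ := exists_lower A hA
  obtain ⟨P₀, hP₀⟩ : ∃ P₀ : ℝ, P₀ = ∏ i, nrm (av A ((1 : Matrix (Fin 4) (Fin 4) ℤ) i)) :=
    ⟨_, rfl⟩
  obtain ⟨S, hS⟩ : ∃ S : Set (Matrix (Fin 4) (Fin 4) ℤ),
      S = {V | V.det ≠ 0 ∧ ∏ i, nrm (av A (V i)) ≤ P₀} := ⟨_, rfl⟩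
  have hbound : ∀ V ∈ S, ∀ i, nrm (av A (V i)) ≤ P₀ / μ ^ 3 := by
    intro V hV i
    rw [hS] at hV
    obtain ⟨hdet, hprod⟩ := hV
    rw [le_div_iff₀ (by positivity)]
    refine le_trans ?_ hprod
    rw [← Finset.mul_prod_erase Finset.univ (fun j => nrm (av A (V j))) (Finset.mem_univ i)]
    refine mul_le_mul_of_nonneg_left ?_ (minA_nonneg _)
    have hcard : (Finset.univ.erase i).card = 3 := by
      rw [Finset.card_erase_of_mem (Finset.mem_univ i)]
      simp
    have h1 : μ ^ 3 = ∏ _j ∈ Finset.univ.erase i, μ := by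
      rw [Finset.prod_const, hcard]
    rw [h1]
    exact Finset.prod_le_prod (fun _ _ => hμ.le) (fun j _ => hlow _ (minA_row_ne hdet j))
  have hfin : S.Finite := by
    have h1 : {f : Fin 4 → (Fin 4 → ℤ) | ∀ i, f i ∈
        {v : Fin 4 → ℤ | nrm (av A v) ≤ P₀ / μ ^ 3}}.Finite :=
      Set.Finite.pi' (fun _ => finite_le A hA _)
    exact h1.subset (fun V hV i => hbound V hV i)
  have hne : S.Nonempty := by
    refine ⟨1, ?_⟩
    rw [hS]
    refine ⟨?_, hP₀.ge⟩
    rw [Matrix.det_one]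
    exact one_ne_zero
  obtain ⟨V, hV, hmin⟩ := Set.exists_min_image S
    (fun V : Matrix (Fin 4) (Fin 4) ℤ => ∏ i, nrm (av A (V i))) hfin hne
  have hV' : V.det ≠ 0 ∧ ∏ i, nrm (av A (V i)) ≤ P₀ := by
    rw [hS] at hV
    exact hV
  refine ⟨V, hV'.1, fun V' hdet => ?_⟩
  by_cases h1 : ∏ i, nrm (av A (V' i)) ≤ P₀
  · have : V' ∈ S := by
      rw [hS]
      exact ⟨hdet, h1⟩
    exact hmin V' this
  · push Not at h1
    exact hV'.2.trans h1.le

/-- Proof: take `V` from `exists_min` and permute its rows by `Tuple.sort` of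
`fun i => nrm (av A (V i))` (`Tuple.monotone_sort`); a permutation of the rows changes the
determinant by a sign (`Matrix.det_permute'`/`Matrix.det_permute`) and does not change the product
(`Equiv.prod_comp`). -/
theorem exists_min_sorted (A : Matrix (Fin 4) (Fin 4) ℝ) (hA : A.det ≠ 0) :
    ∃ V : Matrix (Fin 4) (Fin 4) ℤ, V.det ≠ 0 ∧
      (∀ i j : Fin 4, i ≤ j → nrm (av A (V i)) ≤ nrm (av A (V j))) ∧
      ∀ V' : Matrix (Fin 4) (Fin 4) ℤ, V'.det ≠ 0 →
        ∏ i, nrm (av A (V i)) ≤ ∏ i, nrm (av A (V' i)) := by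
  obtain ⟨V, hV, hmin⟩ := exists_min A hA
  obtain ⟨σ, hσ⟩ : ∃ σ : Equiv.Perm (Fin 4), σ = Tuple.sort (fun i => nrm (av A (V i))) :=
    ⟨_, rfl⟩
  have hmono : Monotone ((fun i => nrm (av A (V i))) ∘ σ) := by
    rw [hσ]
    exact Tuple.monotone_sort _
  refine ⟨V.submatrix σ id, ?_, ?_, ?_⟩
  · rw [Matrix.det_permute]
    exact mul_ne_zero (by simp) hV
  · intro i j hij
    exact hmono hij
  · intro V' hV'
    have h1 : ∏ i, nrm (av A ((V.submatrix σ id) i)) = ∏ i, nrm (av A (V i)) :=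
      Equiv.prod_comp σ (fun i => nrm (av A (V i)))
    rw [h1]
    exact hmin V' hV'

end Pool.A6405.HC
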