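import Pool.Agent.H.MP_a6405b_nt.hc.MinA

set_option autoImplicit false

namespace Pool.A6405.HC

private lemma cast_det (V : Matrix (Fin 4) (Fin 4) ℤ) :
    ((V.map (fun z : ℤ => (z : ℝ))).det) = (V.det : ℝ) := by
  have h := RingHom.map_det (Int.castRingHom ℝ) V
  simp only [eq_intCast] at h
  rw [h]
  congr 1

/-- Exchange. Proof: let `V' = V.updateRow k y`. Over the reals `det V' = c k * det V`: the rows of
`V'` are those of `V` except the `k`-th one, which is `∑ i, c i * V i`
(`Matrix.det_updateRow_sum`, or linearity of the determinant in the row and vanishing for equal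
rows). So `det V' ≠ 0` over the integers (cast). By minimality
`∏ i, nrm (av A (V i)) ≤ ∏ i, nrm (av A (V' i))`; all factors with `i ≠ k` are equal and positive
(rows of a matrix with nonzero determinant are nonzero, `exists_lower`), cancel them. -/
theorem exchange (A : Matrix (Fin 4) (Fin 4) ℝ) (hA : A.det ≠ 0)
    (V : Matrix (Fin 4) (Fin 4) ℤ) (hV : V.det ≠ 0)
    (hmin : ∀ V' : Matrix (Fin 4) (Fin 4) ℤ, V'.det ≠ 0 →
        ∏ i, nrm (av A (V i)) ≤ ∏ i, nrm (av A (V' i)))
    (y : Fin 4 → ℤ) (c : Fin 4 → ℝ) (hy : ∀ j, (y j : ℝ) = ∑ i, c i * (V i j : ℝ))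
    (k : Fin 4) (hk : c k ≠ 0) : nrm (av A (V k)) ≤ nrm (av A y) := by
  set VR : Matrix (Fin 4) (Fin 4) ℝ := V.map (fun z : ℤ => (z : ℝ)) with hVR
  have hVRdet : VR.det ≠ 0 := by
    rw [hVR, cast_det]
    exact_mod_cast hV
  have hupd : (V.updateRow k y).map (fun z : ℤ => (z : ℝ)) =
      VR.updateRow k (∑ i, c i • VR i) := by
    ext i j
    by_cases hi : i = k
    · subst hi
      simp [Matrix.updateRow_self, hVR, hy j, Matrix.map_apply, Finset.sum_apply]
    · simp [Matrix.updateRow_ne hi, hVR, Matrix.map_apply]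
  have hdet' : (V.updateRow k y).det ≠ 0 := by
    have h1 : (((V.updateRow k y).det : ℤ) : ℝ) = c k * VR.det := by
      rw [← cast_det, hupd, Matrix.det_updateRow_sum, smul_eq_mul]
    intro h0
    rw [h0] at h1
    have : c k * VR.det ≠ 0 := mul_ne_zero hk hVRdet
    exact this (by rw [← h1]; simp)
  have hm := hmin _ hdet'
  obtain ⟨μ, hμ, hlow⟩ := exists_lower A hA
  have hrow : ∀ i, V i ≠ 0 := by
    intro i h0
    exact hV (Matrix.det_eq_zero_of_row_eq_zero i (fun j => by rw [h0]; rfl))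
  have hpos : ∀ i, 0 < nrm (av A (V i)) := fun i => lt_of_lt_of_le hμ (hlow _ (hrow i))
  rw [← Finset.mul_prod_erase Finset.univ (fun i => nrm (av A (V i))) (Finset.mem_univ k),
    ← Finset.mul_prod_erase Finset.univ (fun i => nrm (av A ((V.updateRow k y) i)))
      (Finset.mem_univ k)] at hm
  have heq : ∏ x ∈ Finset.univ.erase k, nrm (av A ((V.updateRow k y) x)) =
      ∏ x ∈ Finset.univ.erase k, nrm (av A (V x)) := by
    apply Finset.prod_congr rfl
    intro x hx
    rw [Matrix.updateRow_ne (Finset.ne_of_mem_erase hx)]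
  rw [heq] at hm
  simp only [Matrix.updateRow_self] at hm
  have hP : 0 < ∏ x ∈ Finset.univ.erase k, nrm (av A (V x)) :=
    Finset.prod_pos (fun i _ => hpos i)
  exact le_of_mul_le_mul_right hm hP

end Pool.A6405.HC
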