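import Pool.Agent.H.MP_a6405b_nt.hc.Defs

set_option autoImplicit false

namespace Pool.A6405.HC

open Matrix in
/-- Gram-Schmidt. Proof: work in `EuclideanSpace ℝ (Fin 4)`; `nrm y` is the norm of `y` there. The
rows `W i` are linearly independent (`det ≠ 0`), so Gram-Schmidt
(`InnerProductSpace.gramSchmidtNormed` / `gramSchmidtOrthonormalBasis`, triangular property
`inner_gramSchmidtOrthonormalBasis_eq_zero` or `gramSchmidtOrthonormalBasis_inv_triangular`) gives
an orthonormal basis `e 0, ..., e 3` with `⟪e j, W i⟫ = 0` for `i < j`. Let `B` be the matrix with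
rows `B j = (nrm (W j))⁻¹ • e j`. Then `|det B| = ∏ (nrm (W j))⁻¹` (the matrix of an orthonormal
basis is orthogonal, determinant `±1`). Let `y = ∑ i, c i • W i` with `c i = 0` for `i > k`. Then
`⟪e j, y⟫ = 0` for `j > k`, so by Parseval `nrm y ^ 2 = ∑_{j ≤ k} ⟪e j, y⟫ ^ 2`, and
`(B y) j = ⟪e j, y⟫ / nrm (W j)` with `nrm (W j) ≤ nrm (W k)` for `j ≤ k`. -/
theorem gram (W : Matrix (Fin 4) (Fin 4) ℝ) (hW : W.det ≠ 0)
    (hmono : ∀ i j : Fin 4, i ≤ j → nrm (W i) ≤ nrm (W j)) :
    ∃ B : Matrix (Fin 4) (Fin 4) ℝ, |B.det| * ∏ i, nrm (W i) = 1 ∧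
      ∀ (c : Fin 4 → ℝ) (k : Fin 4), (∀ i, k < i → c i = 0) →
        (nrm (∑ i, c i • W i) / nrm (W k)) ^ 2 ≤ ∑ j, (B.mulVec (∑ i, c i • W i) j) ^ 2 := by
  have hpos : ∀ i, 0 < nrm (W i) := by
    intro i
    unfold nrm
    apply Real.sqrt_pos.mpr
    rcases (Finset.sum_nonneg (fun j _ => sq_nonneg (W i j)) : 0 ≤ ∑ j, W i j ^ 2).lt_or_eq with h | h
    · exact h
    · exfalso
      apply hW
      apply Matrix.det_eq_zero_of_row_eq_zero i
      intro j
      have := (Finset.sum_eq_zero_iff_of_nonneg (fun j _ => sq_nonneg (W i j))).mp h.symm j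
        (Finset.mem_univ j)
      exact pow_eq_zero_iff (two_ne_zero) |>.mp this
  let f : Fin 4 → EuclideanSpace ℝ (Fin 4) := fun i => WithLp.toLp 2 (W i)
  have hcard : Module.finrank ℝ (EuclideanSpace ℝ (Fin 4)) = Fintype.card (Fin 4) := by simp
  let e : OrthonormalBasis (Fin 4) ℝ (EuclideanSpace ℝ (Fin 4)) :=
    InnerProductSpace.gramSchmidtOrthonormalBasis hcard f
  have htri : ∀ i j : Fin 4, i < j → inner ℝ (e j) (f i) = 0 := fun i j hij =>
    InnerProductSpace.gramSchmidtOrthonormalBasis_inv_triangular hcard f hij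
  have hin : ∀ x y : EuclideanSpace ℝ (Fin 4), inner ℝ x y = ∑ i, x i * y i := by
    intro x y
    rw [PiLp.inner_apply]
    refine Finset.sum_congr rfl fun i _ => ?_
    simp [mul_comm]
  let E : Matrix (Fin 4) (Fin 4) ℝ := Matrix.of fun j i => e j i
  have hE : E * Eᵀ = 1 := by
    ext i j
    rw [Matrix.mul_apply]
    have h1 : ∑ k, E i k * Eᵀ k j = inner ℝ (e i) (e j) := by
      rw [hin]
      rfl
    rw [h1, orthonormal_iff_ite.mp e.orthonormal i j, Matrix.one_apply]
  have hdet : |E.det| = 1 := by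
    have h1 : E.det * E.det = 1 := by
      have := congrArg Matrix.det hE
      rwa [Matrix.det_mul, Matrix.det_transpose, Matrix.det_one] at this
    have h2 : |E.det| * |E.det| = 1 := by rw [← abs_mul, h1, abs_one]
    nlinarith [abs_nonneg E.det]
  refine ⟨Matrix.of fun j i => (nrm (W j))⁻¹ * E j i, ?_, ?_⟩
  · rw [Matrix.det_mul_column, abs_mul, hdet, mul_one, Finset.abs_prod]
    rw [← Finset.prod_mul_distrib]
    apply Finset.prod_eq_one
    intro i _
    rw [abs_of_pos (inv_pos.mpr (hpos i))]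
    exact inv_mul_cancel₀ (hpos i).ne'
  · intro c k hc
    set y : Fin 4 → ℝ := ∑ i, c i • W i with hy
    have hyf : WithLp.toLp 2 y = ∑ i, c i • f i := by
      ext j
      simp [hy, f, Finset.sum_apply]
    have hnrm : ∀ z : Fin 4 → ℝ, nrm z = ‖(WithLp.toLp 2 z : EuclideanSpace ℝ (Fin 4))‖ := by
      intro z
      rw [EuclideanSpace.norm_eq]
      unfold nrm
      congr 1
      refine Finset.sum_congr rfl fun i _ => ?_
      rw [Real.norm_eq_abs, sq_abs]
    have hpar : nrm y ^ 2 = ∑ j, (inner ℝ (e j) (WithLp.toLp 2 y)) ^ 2 := by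
      rw [hnrm, ← e.sum_sq_norm_inner_right]
      refine Finset.sum_congr rfl fun i _ => ?_
      rw [Real.norm_eq_abs, sq_abs]
    have hzero : ∀ j, k < j → inner ℝ (e j) (WithLp.toLp 2 y) = 0 := by
      intro j hj
      rw [hyf, inner_sum]
      apply Finset.sum_eq_zero
      intro i _
      rw [inner_smul_right]
      rcases lt_or_ge k i with h | h
      · rw [hc i h, zero_mul]
      · rw [htri i j (lt_of_le_of_lt h hj), mul_zero]
    have hB : ∀ j, (Matrix.of fun j i => (nrm (W j))⁻¹ * E j i).mulVec y j =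
        (nrm (W j))⁻¹ * inner ℝ (e j) (WithLp.toLp 2 y) := by
      intro j
      rw [hin, Matrix.mulVec, dotProduct, Finset.mul_sum]
      refine Finset.sum_congr rfl fun i _ => ?_
      simp only [Matrix.of_apply, E]
      ring
    rw [div_pow, hpar, Finset.sum_div]
    refine Finset.sum_le_sum fun j _ => ?_
    rw [hB j]
    rcases lt_or_ge k j with h | h
    · rw [hzero j h]
      simp
    · rw [mul_pow, inv_pow, div_eq_inv_mul]
      refine mul_le_mul_of_nonneg_right ?_ (sq_nonneg _)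
      apply inv_anti₀ (pow_pos (hpos j) 2)
      exact pow_le_pow_left₀ (hpos j).le (hmono j k h) 2

end Pool.A6405.HC
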