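import Pool.Agent.H.MP_a6405b_nt.hc.Defs

set_option autoImplicit false

namespace Pool.A6405.HC

/-- Minkowski's theorem on linear forms, strict version. Proof: the set
`s = {y | ∀ j, |B.mulVec y j| < 1/2}` is convex, symmetric, measurable, and it is the preimage of
the open cube `(-1/2, 1/2)^4` of volume `1` under the linear map of `B`, so its volume is
`1 / |det B| > 16 = 2 ^ 4` (`Real.volume_preserving...`, `MeasureTheory.Measure.addHaar_preimage_linearMap`).
The lattice `ℤ⁴` in `Fin 4 → ℝ` has the fundamental domain `[0,1)^4` of volume `1`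
(`ZSpan.isAddFundamentalDomain`, `Pi.basisFun`). Use
`MeasureTheory.exists_ne_zero_mem_lattice_of_measure_mul_two_pow_lt_measure`. Applications of this
theorem in our tree: grep `exists_ne_zero_mem_lattice_of_measure` in `Pool/Agent/H/MP_96e181_an`,
`Pool/Agent/S05588.lean` (if any), or write it directly. -/
theorem linear_forms (B : Matrix (Fin 4) (Fin 4) ℝ) (h0 : B.det ≠ 0) (h : |B.det| < 1 / 16) :
    ∃ y : Fin 4 → ℤ, y ≠ 0 ∧ ∀ j, |av B y j| < 1 / 2 := by
  classical
  set T : (Fin 4 → ℝ) →ₗ[ℝ] (Fin 4 → ℝ) := Matrix.toLin' B with hT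
  set c : Set (Fin 4 → ℝ) := Set.pi Set.univ (fun _ : Fin 4 => Set.Ioo (-(1 / 2 : ℝ)) (1 / 2))
    with hc
  have hdet : LinearMap.det T = B.det := LinearMap.det_toLin' B
  have hvc : MeasureTheory.volume c = 1 := by
    rw [hc, Real.volume_pi_Ioo]
    norm_num
  have hvs : MeasureTheory.volume (T ⁻¹' c) = ENNReal.ofReal |(B.det)⁻¹| := by
    rw [MeasureTheory.Measure.addHaar_preimage_linearMap _ (by rw [hdet]; exact h0), hdet, hvc,
      mul_one]
  have hpos : 0 < |B.det| := abs_pos.2 h0
  have hbig : (16 : ℝ) < |(B.det)⁻¹| := by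
    rw [abs_inv, lt_inv_comm₀ (by norm_num) hpos]
    norm_num at h ⊢
    exact h
  have hfund := ZSpan.isAddFundamentalDomain' (Pi.basisFun ℝ (Fin 4))
    (MeasureTheory.volume : MeasureTheory.Measure (Fin 4 → ℝ))
  have hvF : MeasureTheory.volume (ZSpan.fundamentalDomain (Pi.basisFun ℝ (Fin 4))) = 1 := by
    rw [ZSpan.fundamentalDomain_pi_basisFun, Real.volume_pi_Ico]
    norm_num
  have : Countable (Submodule.span ℤ (Set.range (Pi.basisFun ℝ (Fin 4)))).toAddSubgroup := by
    change Countable (Submodule.span ℤ (Set.range (Pi.basisFun ℝ (Fin 4))))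
    infer_instance
  obtain ⟨x, hx0, hxs⟩ :=
    MeasureTheory.exists_ne_zero_mem_lattice_of_measure_mul_two_pow_lt_measure
      (μ := (MeasureTheory.volume : MeasureTheory.Measure (Fin 4 → ℝ))) hfund (s := T ⁻¹' c)
      (by
        intro v hv i hi
        have h1 := hv i hi
        rw [Set.mem_Ioo] at h1 ⊢
        rw [map_neg, Pi.neg_apply]
        constructor <;> linarith [h1.1, h1.2])
      (by
        apply Convex.linear_preimage
        exact convex_pi (fun _ _ => convex_Ioo _ _))
      (by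
        rw [hvF, hvs, one_mul, Module.finrank_fin_fun]
        rw [show (2 : ENNReal) ^ 4 = ENNReal.ofReal 16 by
          rw [show (16 : ℝ) = 2 ^ 4 by norm_num, ENNReal.ofReal_pow (by norm_num)]
          norm_num]
        exact (ENNReal.ofReal_lt_ofReal_iff (by linarith)).2 hbig)
  have hmem : (x : Fin 4 → ℝ) ∈ Submodule.span ℤ (Set.range (Pi.basisFun ℝ (Fin 4))) := x.2
  rw [Module.Basis.mem_span_iff_repr_mem] at hmem
  choose y hy using hmem
  have hxy : (x : Fin 4 → ℝ) = fun i => ((y i : ℤ) : ℝ) := by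
    funext i
    have h1 := hy i
    simpa using h1.symm
  refine ⟨y, ?_, ?_⟩
  · rintro rfl
    apply hx0
    apply Subtype.ext
    rw [hxy]
    funext i
    simp
  · intro j
    have h1 := hxs j (Set.mem_univ j)
    rw [hT, Matrix.toLin'_apply, hxy] at h1
    rw [av, abs_lt]
    exact ⟨h1.1, h1.2⟩

end Pool.A6405.HC
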