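import Pool.Agent.H.MP_a6405b_nt.hc.MinB
import Pool.Agent.H.MP_a6405b_nt.hc.MinC
import Pool.Agent.H.MP_a6405b_nt.hc.MinD

set_option autoImplicit false

namespace Pool.A6405.HC

/-- Minkowski's second theorem (upper bound, Euclidean norm, constant 16). Proof: take `V` from
`exists_min_sorted`, `W i = av A (V i)` (real matrix, `det W = det V * det A ≠ 0`: `W = V A^T`), and
`B` from `gram`. Suppose `∏ nrm (W i) > 16 |det A|`. The matrix `B * A` has
`|det (B A)| = |det A| / ∏ nrm (W i) < 1/16` and is nonzero, so `linear_forms` gives `y ≠ 0` integer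
with `|(B A y) j| < 1/2` for all `j`, hence `∑ j (B A y)_j ^ 2 < 1`. As `det V ≠ 0` there are real
`c` with `y = ∑ i, c i * V i` (rows; `c = y V⁻¹`), `c ≠ 0`; let `k` be the largest index with
`c k ≠ 0`. Then `A y = ∑ i, c i • W i`, and `gram` gives
`(nrm (A y) / nrm (W k)) ^ 2 ≤ ∑ j (B A y)_j ^ 2 < 1`, while `exchange` gives
`nrm (W k) ≤ nrm (A y)` with `nrm (W k) > 0`: contradiction. -/
theorem minkowski_two (A : Matrix (Fin 4) (Fin 4) ℝ) (hA : A.det ≠ 0) :
    ∃ V : Matrix (Fin 4) (Fin 4) ℤ, V.det ≠ 0 ∧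
      (∀ i j : Fin 4, i ≤ j → nrm (av A (V i)) ≤ nrm (av A (V j))) ∧
      ∏ i, nrm (av A (V i)) ≤ 16 * |A.det| := by
  classical
  obtain ⟨V, hV, hmono, hmin⟩ := exists_min_sorted A hA
  refine ⟨V, hV, hmono, ?_⟩
  set Vr : Matrix (Fin 4) (Fin 4) ℝ := (Int.castRingHom ℝ).mapMatrix V with hVr
  have hVr' : ∀ i j, Vr i j = (V i j : ℝ) := by
    intro i j
    rw [hVr]
    simp
  have hVrdet : Vr.det = (V.det : ℝ) := by
    rw [hVr, ← RingHom.map_det]
    simp
  have hVr0 : Vr.det ≠ 0 := by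
    rw [hVrdet]
    exact_mod_cast hV
  set W : Matrix (Fin 4) (Fin 4) ℝ := Matrix.of (fun i => av A (V i)) with hW
  have hWi : ∀ i, W i = av A (V i) := fun i => rfl
  have hWeq : W = Vr * A.transpose := by
    ext i j
    rw [hWi, av, Matrix.mulVec, dotProduct, Matrix.mul_apply]
    refine Finset.sum_congr rfl fun k _ => ?_
    rw [Matrix.transpose_apply, hVr', mul_comm]
  have hWdet : W.det = Vr.det * A.det := by
    rw [hWeq, Matrix.det_mul, Matrix.det_transpose]
  have hW0 : W.det ≠ 0 := by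
    rw [hWdet]
    exact mul_ne_zero hVr0 hA
  obtain ⟨B, hB1, hB2⟩ := gram W hW0 (fun i j hij => by
    rw [hWi, hWi]
    exact hmono i j hij)
  by_contra hcon
  push Not at hcon
  have hnn : ∀ i, 0 ≤ nrm (W i) := fun i => Real.sqrt_nonneg _
  have hP0 : (∏ i, nrm (W i)) ≠ 0 := by
    intro h0
    rw [h0, mul_zero] at hB1
    exact zero_ne_one hB1
  have hPpos : 0 < ∏ i, nrm (W i) :=
    lt_of_le_of_ne (Finset.prod_nonneg fun i _ => hnn i) (Ne.symm hP0)
  have hBdet : B.det ≠ 0 := by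
    intro h0
    rw [h0, abs_zero, zero_mul] at hB1
    exact zero_ne_one hB1
  have hcon' : 16 * |A.det| < ∏ i, nrm (W i) := hcon
  have hBA : |(B * A).det| < 1 / 16 := by
    rw [Matrix.det_mul, abs_mul]
    have hb : 0 < |B.det| := abs_pos.2 hBdet
    have h1 : |B.det| * (16 * |A.det|) < |B.det| * ∏ i, nrm (W i) :=
      mul_lt_mul_of_pos_left hcon' hb
    rw [hB1] at h1
    linarith
  have hBA0 : (B * A).det ≠ 0 := by
    rw [Matrix.det_mul]
    exact mul_ne_zero hBdet hA
  obtain ⟨y, hy0, hy⟩ := linear_forms (B * A) hBA0 hBA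
  have hav : av (B * A) y = B.mulVec (av A y) := by
    rw [av, av, Matrix.mulVec_mulVec]
  have hsum : ∑ j, (B.mulVec (av A y) j) ^ 2 < 1 := by
    have h4 : ∀ j, (B.mulVec (av A y) j) ^ 2 < 1 / 4 := by
      intro j
      have h := hy j
      rw [hav] at h
      rw [abs_lt] at h
      nlinarith [h.1, h.2]
    rw [Fin.sum_univ_four]
    linarith [h4 0, h4 1, h4 2, h4 3]
  set yr : Fin 4 → ℝ := fun i => (y i : ℝ) with hyr
  set c : Fin 4 → ℝ := Matrix.vecMul yr Vr⁻¹ with hc
  have hcV : Matrix.vecMul c Vr = yr := by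
    rw [hc, Matrix.vecMul_vecMul, Matrix.nonsing_inv_mul _ (isUnit_iff_ne_zero.2 hVr0),
      Matrix.vecMul_one]
  have hyc : ∀ j, (y j : ℝ) = ∑ i, c i * (V i j : ℝ) := by
    intro j
    have h := congrFun hcV j
    rw [Matrix.vecMul, dotProduct] at h
    rw [show (y j : ℝ) = yr j from rfl, ← h]
    refine Finset.sum_congr rfl fun i _ => ?_
    rw [hVr']
  have hc0 : ∃ i, c i ≠ 0 := by
    by_contra h
    push Not at h
    apply hy0
    funext j
    have h1 := hyc j
    simp only [h, zero_mul, Finset.sum_const_zero] at h1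
    exact_mod_cast h1
  obtain ⟨i0, hi0⟩ := hc0
  obtain ⟨k, hk, hkmax⟩ := Finset.exists_max_image (Finset.univ.filter fun i : Fin 4 => c i ≠ 0)
    (fun i => i) ⟨i0, by simp [hi0]⟩
  have hck : c k ≠ 0 := (Finset.mem_filter.1 hk).2
  have hbig : ∀ i, k < i → c i = 0 := by
    intro i hi
    by_contra h
    exact absurd (hkmax i (by simp [h])) (not_le.2 hi)
  have hAy : av A y = ∑ i, c i • W i := by
    funext j
    rw [Finset.sum_apply, av, Matrix.mulVec, dotProduct]
    simp only [Pi.smul_apply, smul_eq_mul, hWi, av, Matrix.mulVec, dotProduct]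
    simp only [hyc, Finset.mul_sum]
    rw [Finset.sum_comm]
    refine Finset.sum_congr rfl fun i _ => Finset.sum_congr rfl fun l _ => ?_
    ring
  have h1 := hB2 c k hbig
  rw [← hAy] at h1
  have h2 : nrm (W k) ≤ nrm (av A y) := by
    rw [hWi]
    exact exchange A hA V hV hmin y c hyc k hck
  have hWk : 0 < nrm (W k) := by
    refine lt_of_le_of_ne (hnn k) ?_
    intro h0
    exact hP0 (Finset.prod_eq_zero (Finset.mem_univ k) h0.symm)
  have h3 : 1 ≤ nrm (av A y) / nrm (W k) := by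
    rw [one_le_div hWk]
    exact h2
  have h4 : 1 ≤ (nrm (av A y) / nrm (W k)) ^ 2 := one_le_pow₀ h3
  linarith

end Pool.A6405.HC
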