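import Pool.Agent.H.MP_a6405b_nt.hc.Defs

set_option autoImplicit false

namespace Pool.A6405.HC

/-- Proof: lower triangular matrix; `Matrix.det_succ_row_zero` / `simp`. -/
theorem siteM_det (Q R : ℝ) (ξ S : Fin 3 → ℝ) :
    (siteM Q R ξ S).det = -(S 0 * S 1 * S 2) / (Q * R ^ 3) := by
  simp [siteM, Matrix.det_succ_row_zero, Fin.sum_univ_succ, Fin.succAbove]
  ring

/-- Proof: unfold. -/
theorem av_site_zero (Q R : ℝ) (ξ S : Fin 3 → ℝ) (v : Fin 4 → ℤ) :
    av (siteM Q R ξ S) v 0 = (v 0 : ℝ) / Q := by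
  simp [av, siteM, Matrix.mulVec, dotProduct, Fin.sum_univ_succ]
  ring

/-- Proof: unfold, `fin_cases k`. -/
theorem av_site_succ (Q R : ℝ) (ξ S : Fin 3 → ℝ) (v : Fin 4 → ℤ) (k : Fin 3) :
    av (siteM Q R ξ S) v k.succ = S k * ((v 0 : ℝ) * ξ k - (v k.succ : ℝ)) / R := by
  fin_cases k <;> simp [av, siteM, Matrix.mulVec, dotProduct, Fin.sum_univ_succ] <;> ring

/-- Proof: one square is at most the sum of the squares. -/
theorem coord_le_nrm (y : Fin 4 → ℝ) (i : Fin 4) : |y i| ≤ nrm y := by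
  unfold nrm
  apply Real.abs_le_sqrt
  exact Finset.single_le_sum (f := fun j => y j ^ 2) (fun j _ => sq_nonneg (y j))
    (Finset.mem_univ i)

/-- Proof: Cauchy-Schwarz with the vector `(1,1,1,1)`. -/
theorem sum_abs_le (y : Fin 4 → ℝ) : ∑ i, |y i| ≤ 2 * nrm y := by
  have h1 : (∑ i, |y i|) ^ 2 ≤ 4 * ∑ i, y i ^ 2 := by
    have h2 := sq_sum_le_card_mul_sum_sq (s := (Finset.univ : Finset (Fin 4)))
      (f := fun i => |y i|)
    simpa using h2
  have h3 : nrm y ^ 2 = ∑ i, y i ^ 2 := by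
    unfold nrm
    exact Real.sq_sqrt (Finset.sum_nonneg (fun i _ => sq_nonneg (y i)))
  have h4 : 0 ≤ nrm y := Real.sqrt_nonneg _
  have h5 : (∑ i, |y i|) ^ 2 ≤ (2 * nrm y) ^ 2 := by
    rw [mul_pow, h3]
    linarith
  exact le_of_sq_le_sq h5 (by positivity)

/-- Proof: `round x` is the nearest integer (`round_le`). -/
theorem dni_le (x : ℝ) (p : ℤ) : dni x ≤ |x - (p : ℝ)| := round_le x p

/-- Proof: suppose `nrm (...) < γ / R`. By `coord_le_nrm` and `av_site_zero`, `|v 0| < γ Q / R ≤ Q`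
(as `γ < 1 ≤ R`), and `|v 0 ξ k - v (k+1)| < γ / S k ≤ γ < 1` for the three `k`. If `v 0 = 0` then
`|v (k+1)| < 1`, so `v = 0`, contradiction. Otherwise let `q = |v 0|` (`Int.natAbs`), `1 ≤ q ≤ Q`;
replacing `v` by `-v` when `v 0 < 0`, `dni (q ξ k) ≤ |q ξ k - (± v (k+1))| < γ / S k`
(`dni_le`), so the product of the three is `< γ ^ 3 / (S 0 S 1 S 2) = γ ^ 3 / Q`, against
`BigAt`. -/
theorem site_lower (γ R : ℝ) (hγ : 0 < γ) (hγ1 : γ < 1) (hR : 1 ≤ R) (Q : ℕ) (hQ : 1 ≤ Q)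
    (ξ S : Fin 3 → ℝ) (hS : ∀ k, 1 ≤ S k) (hSQ : S 0 * S 1 * S 2 = Q)
    (hbig : BigAt (γ ^ 3) Q ξ) (v : Fin 4 → ℤ) (hv : v ≠ 0) :
    γ / R ≤ nrm (av (siteM Q R ξ S) v) := by
  by_contra hcon
  push Not at hcon
  have hR0 : 0 < R := by linarith
  have hQ0 : (0 : ℝ) < Q := by exact_mod_cast hQ
  have h0 : |(v 0 : ℝ)| < Q := by
    have h1 := (coord_le_nrm (av (siteM Q R ξ S) v) 0).trans_lt hcon
    rw [av_site_zero, abs_div, abs_of_pos hQ0, div_lt_div_iff₀ hQ0 hR0] at h1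
    have h2 : |(v 0 : ℝ)| * 1 ≤ |(v 0 : ℝ)| * R := mul_le_mul_of_nonneg_left hR (abs_nonneg _)
    have h3 : γ * (Q : ℝ) < 1 * Q := mul_lt_mul_of_pos_right hγ1 hQ0
    linarith
  have hk : ∀ k : Fin 3, |(v 0 : ℝ) * ξ k - (v k.succ : ℝ)| < γ / S k := by
    intro k
    have hSk : 0 < S k := by linarith [hS k]
    have h1 := (coord_le_nrm (av (siteM Q R ξ S) v) k.succ).trans_lt hcon
    rw [av_site_succ, abs_div, abs_of_pos hR0, div_lt_div_iff_of_pos_right hR0, abs_mul,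
      abs_of_pos hSk] at h1
    rw [lt_div_iff₀ hSk]
    linarith
  have hγS : ∀ k : Fin 3, γ / S k < 1 := by
    intro k
    have hSk : 0 < S k := by linarith [hS k]
    rw [div_lt_one hSk]
    linarith [hS k]
  by_cases hv0 : v 0 = 0
  · apply hv
    have h1 : ∀ k : Fin 3, v k.succ = 0 := by
      intro k
      have h2 := (hk k).trans (hγS k)
      rw [hv0, Int.cast_zero, zero_mul, zero_sub, abs_neg] at h2
      have h3 : |v k.succ| < 1 := by exact_mod_cast h2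
      exact Int.abs_lt_one_iff.1 h3
    funext i
    refine Fin.cases ?_ ?_ i
    · exact hv0
    · intro k
      exact h1 k
  · have hq1 : 1 ≤ (v 0).natAbs := Nat.one_le_iff_ne_zero.2 (Int.natAbs_ne_zero.2 hv0)
    have hqR : (((v 0).natAbs : ℕ) : ℝ) = |(v 0 : ℝ)| := by
      rw [Nat.cast_natAbs, Int.cast_abs]
    have hqQ : (v 0).natAbs ≤ Q := by
      have h1 : (((v 0).natAbs : ℕ) : ℝ) ≤ Q := by
        rw [hqR]
        exact h0.le
      exact_mod_cast h1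
    have hd : ∀ k : Fin 3, dni ((((v 0).natAbs : ℕ) : ℝ) * ξ k) < γ / S k := by
      intro k
      rcases abs_choice (v 0 : ℝ) with h1 | h1
      · refine lt_of_le_of_lt (dni_le _ (v k.succ)) ?_
        rw [hqR, h1]
        exact hk k
      · refine lt_of_le_of_lt (dni_le _ (-(v k.succ))) ?_
        rw [hqR, h1]
        have h2 : -(v 0 : ℝ) * ξ k - ((-(v k.succ) : ℤ) : ℝ) =
            -((v 0 : ℝ) * ξ k - (v k.succ : ℝ)) := by
          push_cast
          ring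
        rw [h2, abs_neg]
        exact hk k
    have hd0 : ∀ x : ℝ, 0 ≤ dni x := fun x => abs_nonneg _
    have hb := hbig _ hq1 hqQ
    have h1 := mul_lt_mul'' (mul_lt_mul'' (hd 0) (hd 1) (hd0 _) (hd0 _)) (hd 2)
      (mul_nonneg (hd0 _) (hd0 _)) (hd0 _)
    have h2 : γ / S 0 * (γ / S 1) * (γ / S 2) = γ ^ 3 / Q := by
      rw [← hSQ, div_mul_div_comm, div_mul_div_comm]
      congr 1
      ring
    rw [h2] at h1
    linarith

end Pool.A6405.HC
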