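import Pool.Agent.H.MP_a6405b_nt.hc.SiteA

set_option autoImplicit false

namespace Pool.A6405.HC

/-- Good site. Proof: let `a i = av (siteM ...) (V i)`, so the matrix `a` equals `V * A^T` and
`det a = det V * det A`, `|det A| = 1 / R ^ 3` (`siteM_det`), `|det V| ≥ 1` (nonzero integer), so
`|det a| ≥ 1 / R ^ 3`. All entries of `a` are at most `1` in absolute value (`coord_le_nrm`). If all
`|V i 0| < Q / (24 R ^ 3)` then, expanding the determinant over the 24 permutations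
(`Matrix.det_apply`, every term contains exactly one entry of column `0`, which is
`|V i 0| / Q < 1 / (24 R ^ 3)`, the other three are at most `1`), `|det a| < 1 / R ^ 3`,
contradiction. So `|V i 0| ≥ Q / (24 R ^ 3)` for some `i`; take `v = V i` or `v = - V i`. -/
theorem good_site (Q R : ℝ) (hQ : 0 < Q) (hR : 0 < R) (ξ S : Fin 3 → ℝ)
    (hSQ : S 0 * S 1 * S 2 = Q) (V : Matrix (Fin 4) (Fin 4) ℤ) (hV : V.det ≠ 0)
    (hn : ∀ i, nrm (av (siteM Q R ξ S) (V i)) ≤ 1) :
    ∃ v : Fin 4 → ℤ, nrm (av (siteM Q R ξ S) v) ≤ 1 ∧ Q / (24 * R ^ 3) ≤ (v 0 : ℝ) := by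
  by_contra hcon
  push Not at hcon
  have hneg : ∀ i, nrm (av (siteM Q R ξ S) (-V i)) ≤ 1 := by
    intro i
    have h1 : av (siteM Q R ξ S) (-V i) = -av (siteM Q R ξ S) (V i) := by
      unfold av
      rw [← Matrix.mulVec_neg]
      congr 1
      funext j
      simp
    have h2 : nrm (-av (siteM Q R ξ S) (V i)) = nrm (av (siteM Q R ξ S) (V i)) := by
      unfold nrm
      simp
    rw [h1, h2]
    exact hn i
  have hR3 : 0 < R ^ 3 := by positivity
  have hsmall : ∀ i, |(V i 0 : ℝ)| < Q / (24 * R ^ 3) := by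
    intro i
    have h1 := hcon (V i) (hn i)
    have h2 := hcon (-V i) (hneg i)
    rw [Pi.neg_apply, Int.cast_neg] at h2
    rw [abs_lt]
    constructor
    · linarith
    · exact h1
  have hcol : ∀ i, |av (siteM Q R ξ S) (V i) 0| < 1 / (24 * R ^ 3) := by
    intro i
    rw [av_site_zero, abs_div, abs_of_pos hQ, div_lt_iff₀ hQ]
    have h1 : 1 / (24 * R ^ 3) * Q = Q / (24 * R ^ 3) := by ring
    rw [h1]
    exact hsmall i
  have hle : ∀ i j, |av (siteM Q R ξ S) (V i) j| ≤ 1 := fun i j =>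
    (coord_le_nrm _ j).trans (hn i)
  have hmat : (Matrix.of fun i j => av (siteM Q R ξ S) (V i) j : Matrix (Fin 4) (Fin 4) ℝ) =
      (Int.castRingHom ℝ).mapMatrix V * (siteM Q R ξ S).transpose := by
    ext i j
    simp [av, Matrix.mulVec, dotProduct, Matrix.mul_apply, mul_comm]
  have hdet : (Matrix.of fun i j => av (siteM Q R ξ S) (V i) j : Matrix (Fin 4) (Fin 4) ℝ).det =
      (V.det : ℝ) * (-1 / R ^ 3) := by
    rw [hmat, Matrix.det_mul, Matrix.det_transpose, siteM_det, hSQ, ← RingHom.map_det]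
    have h1 : -Q / (Q * R ^ 3) = -1 / R ^ 3 := by
      field_simp
    rw [h1]
    rfl
  have hV1 : (1 : ℝ) ≤ |(V.det : ℝ)| := by
    have h1 : (1 : ℤ) ≤ |V.det| := Int.one_le_abs hV
    exact_mod_cast h1
  have hlow : 1 / R ^ 3 ≤ |(Matrix.of fun i j => av (siteM Q R ξ S) (V i) j :
      Matrix (Fin 4) (Fin 4) ℝ).det| := by
    rw [hdet, abs_mul, abs_div, abs_neg, abs_one, abs_of_pos hR3]
    have h1 : 0 < 1 / R ^ 3 := by positivity
    nlinarith
  have hup : |(Matrix.of fun i j => av (siteM Q R ξ S) (V i) j :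
      Matrix (Fin 4) (Fin 4) ℝ).det| < 1 / R ^ 3 := by
    rw [Matrix.det_apply']
    have h1 : ∀ σ : Equiv.Perm (Fin 4),
        |((Equiv.Perm.sign σ : ℤ) : ℝ) * ∏ i, (Matrix.of fun i j =>
          av (siteM Q R ξ S) (V i) j : Matrix (Fin 4) (Fin 4) ℝ) (σ i) i| <
          1 / (24 * R ^ 3) := by
      intro σ
      have hs : |((Equiv.Perm.sign σ : ℤ) : ℝ)| = 1 := by
        rcases Int.units_eq_one_or (Equiv.Perm.sign σ) with h | h <;> simp [h]
      rw [abs_mul, hs, one_mul, Finset.abs_prod, Fin.prod_univ_succ]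
      have h2 : ∏ i : Fin 3, |(Matrix.of fun i j =>
          av (siteM Q R ξ S) (V i) j : Matrix (Fin 4) (Fin 4) ℝ) (σ i.succ) i.succ| ≤ 1 :=
        Finset.prod_le_one (fun i _ => abs_nonneg _) (fun i _ => hle _ _)
      have h3 := hcol (σ 0)
      have h4 : 0 ≤ ∏ i : Fin 3, |(Matrix.of fun i j =>
          av (siteM Q R ξ S) (V i) j : Matrix (Fin 4) (Fin 4) ℝ) (σ i.succ) i.succ| :=
        Finset.prod_nonneg (fun i _ => abs_nonneg _)
      have h5 : 0 ≤ |av (siteM Q R ξ S) (V (σ 0)) 0| := abs_nonneg _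
      calc |av (siteM Q R ξ S) (V (σ 0)) 0| * ∏ i : Fin 3, |(Matrix.of fun i j =>
          av (siteM Q R ξ S) (V i) j : Matrix (Fin 4) (Fin 4) ℝ) (σ i.succ) i.succ|
          ≤ |av (siteM Q R ξ S) (V (σ 0)) 0| * 1 := mul_le_mul_of_nonneg_left h2 h5
        _ < 1 / (24 * R ^ 3) := by rw [mul_one]; exact h3
    calc |∑ σ : Equiv.Perm (Fin 4), ((Equiv.Perm.sign σ : ℤ) : ℝ) * ∏ i, (Matrix.of fun i j =>
          av (siteM Q R ξ S) (V i) j : Matrix (Fin 4) (Fin 4) ℝ) (σ i) i|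
        ≤ ∑ σ : Equiv.Perm (Fin 4), |((Equiv.Perm.sign σ : ℤ) : ℝ) * ∏ i, (Matrix.of fun i j =>
          av (siteM Q R ξ S) (V i) j : Matrix (Fin 4) (Fin 4) ℝ) (σ i) i| :=
        Finset.abs_sum_le_sum_abs _ _
      _ < ∑ σ : Equiv.Perm (Fin 4), 1 / (24 * R ^ 3) :=
        Finset.sum_lt_sum_of_nonempty Finset.univ_nonempty (fun σ _ => h1 σ)
      _ = 1 / R ^ 3 := by
        rw [Finset.sum_const, Finset.card_univ, Fintype.card_perm, Fintype.card_fin]
        have h6 : Nat.factorial 4 = 24 := rfl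
        rw [h6, nsmul_eq_mul]
        push_cast
        field_simp
  linarith

end Pool.A6405.HC
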