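import Pool.Agent.H.MP_a6405b_nt.hc.SiteA

set_option autoImplicit false

namespace Pool.A6405.HC

/-- Proof: expand along the last row: the determinant is `±` a `3 × 3` minor of the rows
`M 0, M 1, M 2`, a sum of 6 products of one entry of each of these rows, each entry being at most
the norm of its row in absolute value. -/
theorem det_unit_row (M : Matrix (Fin 4) (Fin 4) ℝ) (j : Fin 4) (hj : M 3 = Pi.single j 1) :
    |M.det| ≤ 6 * (nrm (M 0) * nrm (M 1) * nrm (M 2)) := by
  have hn : ∀ y : Fin 4 → ℝ, 0 ≤ nrm y := fun y => Real.sqrt_nonneg _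
  have hp : ∀ p q r : Fin 4, |M 0 p * M 1 q * M 2 r| ≤ nrm (M 0) * nrm (M 1) * nrm (M 2) := by
    intro p q r
    rw [abs_mul, abs_mul]
    exact mul_le_mul (mul_le_mul (coord_le_nrm _ p) (coord_le_nrm _ q) (abs_nonneg _) (hn _))
      (coord_le_nrm _ r) (abs_nonneg _) (mul_nonneg (hn _) (hn _))
  have e0 : Fin.succAbove (3 : Fin 4) (0 : Fin 3) = 0 := rfl
  have e1 : Fin.succAbove (3 : Fin 4) (1 : Fin 3) = 1 := rfl
  have e2 : Fin.succAbove (3 : Fin 4) (2 : Fin 3) = 2 := rfl
  rw [Matrix.det_succ_row M 3, Finset.sum_eq_single j]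
  · rw [hj, Pi.single_eq_same, mul_one, abs_mul, abs_pow, abs_neg, abs_one, one_pow, one_mul,
      Matrix.det_fin_three]
    simp only [Matrix.submatrix_apply]
    rw [e0, e1, e2]
    have k1 := abs_le.1 (hp (j.succAbove 0) (j.succAbove 1) (j.succAbove 2))
    have k2 := abs_le.1 (hp (j.succAbove 0) (j.succAbove 2) (j.succAbove 1))
    have k3 := abs_le.1 (hp (j.succAbove 1) (j.succAbove 0) (j.succAbove 2))
    have k4 := abs_le.1 (hp (j.succAbove 1) (j.succAbove 2) (j.succAbove 0))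
    have k5 := abs_le.1 (hp (j.succAbove 2) (j.succAbove 0) (j.succAbove 1))
    have k6 := abs_le.1 (hp (j.succAbove 2) (j.succAbove 1) (j.succAbove 0))
    rw [abs_le]
    constructor
    · linarith [k1.1, k1.2, k2.1, k2.2, k3.1, k3.2, k4.1, k4.2, k5.1, k5.2, k6.1, k6.2]
    · linarith [k1.1, k1.2, k2.1, k2.2, k3.1, k3.2, k4.1, k4.2, k5.1, k5.2, k6.1, k6.2]
  · intro b _ hb
    rw [hj, Pi.single_eq_of_ne hb]
    ring
  · intro h
    exact absurd (Finset.mem_univ j) h

/-- the value of the functional with coefficients `adj V` at a vector `y` with `A y` a unit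
vector -/
private theorem fun_le (Q R : ℝ) (hQ : 0 < Q) (hR : 0 < R) (ξ S : Fin 3 → ℝ)
    (hSQ : S 0 * S 1 * S 2 = Q) (V : Matrix (Fin 4) (Fin 4) ℤ)
    (hprod : ∏ i, nrm (av (siteM Q R ξ S) (V i)) ≤ 16 / R ^ 3)
    (h3 : 1 < nrm (av (siteM Q R ξ S) (V 3))) (y : Fin 4 → ℝ) (k : Fin 4)
    (hy : (siteM Q R ξ S).mulVec y = Pi.single k 1) :
    |∑ j, ((V.adjugate j 3 : ℤ) : ℝ) * y j| ≤ 96 := by
  have hn : ∀ y : Fin 4 → ℝ, 0 ≤ nrm y := fun y => Real.sqrt_nonneg _
  set A := siteM Q R ξ S with hA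
  set VR : Matrix (Fin 4) (Fin 4) ℝ := V.map (Int.cast : ℤ → ℝ) with hVR
  have hR3 : 0 < R ^ 3 := by positivity
  -- the functional is a determinant
  have hadj : ∀ j, ((V.adjugate j 3 : ℤ) : ℝ) = VR.adjugate j 3 := by
    intro j
    have h1 := RingHom.map_adjugate (Int.castRingHom ℝ) V
    have h2 := congrFun (congrFun h1 j) 3
    exact h2
  have hN : ∑ j, ((V.adjugate j 3 : ℤ) : ℝ) * y j = (VR.updateRow 3 y).det := by
    rw [← Matrix.cramer_transpose_apply, Matrix.cramer_eq_adjugate_mulVec]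
    simp only [Matrix.mulVec, dotProduct]
    apply Finset.sum_congr rfl
    intro j _
    rw [hadj, ← Matrix.adjugate_transpose, Matrix.transpose_apply]
  -- multiply by the transpose of `A`
  set B : Matrix (Fin 4) (Fin 4) ℝ := (VR.updateRow 3 y) * A.transpose with hB
  have hrow : ∀ i l, B i l = A.mulVec ((VR.updateRow 3 y) i) l := by
    intro i l
    simp only [hB, Matrix.mul_apply, Matrix.transpose_apply, Matrix.mulVec, dotProduct]
    exact Finset.sum_congr rfl (fun x _ => mul_comm _ _)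
  have hB3 : B 3 = Pi.single k 1 := by
    funext l
    rw [hrow, Matrix.updateRow_self, hy]
  have hBi : ∀ i, i ≠ 3 → B i = av A (V i) := by
    intro i hi
    funext l
    rw [hrow, Matrix.updateRow_ne hi]
    rfl
  have hdet : B.det = (VR.updateRow 3 y).det * A.det := by
    rw [hB, Matrix.det_mul, Matrix.det_transpose]
  have hdA : |A.det| = 1 / R ^ 3 := by
    rw [hA, siteM_det, hSQ, abs_div, abs_neg, abs_of_pos hQ, abs_of_pos (by positivity)]
    field_simp
  have hb := det_unit_row B k hB3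
  rw [hBi 0 (by decide), hBi 1 (by decide), hBi 2 (by decide)] at hb
  have hp : nrm (av A (V 0)) * nrm (av A (V 1)) * nrm (av A (V 2)) ≤ 16 / R ^ 3 := by
    refine le_trans ?_ hprod
    rw [Fin.prod_univ_four]
    exact le_mul_of_one_le_right
      (mul_nonneg (mul_nonneg (hn _) (hn _)) (hn _)) h3.le
  rw [hdet, abs_mul, hdA] at hb
  rw [hN]
  have h5 : |(VR.updateRow 3 y).det| * (1 / R ^ 3) ≤ 96 * (1 / R ^ 3) := by
    refine hb.trans ?_
    have h6 : 16 / R ^ 3 = 16 * (1 / R ^ 3) := by ring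
    rw [h6] at hp
    linarith
  exact le_of_mul_le_mul_right h5 (by positivity)

/-- Bad site. Proof: let `A = siteM Q R ξ S`, `a i = av A (V i)`. The product of the first three
norms is at most `16 / R ^ 3` because the fourth one is `> 1`. Let
`n j = det (V.updateRow 3 (Pi.single j 1))` (integer). For every real vector `y`,
`N y := ∑ j, n j * y j = det (V_ℝ.updateRow 3 y)` (linearity in the row). `n ≠ 0` because
`N (V 3) = det V ≠ 0`. Multiplying by `A^T` on the right:
`N y * det A = det (a.updateRow 3 (A y))`, and `|det A| = 1 / R ^ 3`, so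
`|N y| = R ^ 3 * |det (a.updateRow 3 (A y))|`. For `y = Q (1, ξ 0, ξ 1, ξ 2)` one has
`A y = (1,0,0,0)` and `N y = Q (n 0 + ∑ ξ k n (k+1))`; for `y = -(R / S k)` times the `(k+1)`-st
unit vector, `A y` is the `(k+1)`-st unit vector and `N y = -(R / S k) n (k+1)`. By `det_unit_row`
both are at most `R ^ 3 * 6 * 16 / R ^ 3 = 96` in absolute value. -/
theorem bad_site (Q R : ℝ) (hQ : 0 < Q) (hR : 0 < R) (ξ S : Fin 3 → ℝ) (hS : ∀ k, 0 < S k)
    (hSQ : S 0 * S 1 * S 2 = Q) (V : Matrix (Fin 4) (Fin 4) ℤ) (hV : V.det ≠ 0)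
    (hprod : ∏ i, nrm (av (siteM Q R ξ S) (V i)) ≤ 16 / R ^ 3)
    (h3 : 1 < nrm (av (siteM Q R ξ S) (V 3))) :
    ∃ n : Fin 4 → ℤ, n ≠ 0 ∧ SmallFun 96 Q R ξ S n := by
  refine ⟨fun j => V.adjugate j 3, ?_, ?_, ?_⟩
  · intro h0
    apply hV
    have h1 : (V * V.adjugate) 3 3 = V.det := by
      rw [Matrix.mul_adjugate]
      simp
    rw [← h1, Matrix.mul_apply]
    apply Finset.sum_eq_zero
    intro j _
    have h2 : V.adjugate j 3 = 0 := congrFun h0 j
    rw [h2, mul_zero]
  · have h := fun_le Q R hQ hR ξ S hSQ V hprod h3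
      (fun i => Q * (Fin.cons 1 ξ : Fin 4 → ℝ) i) 0 (by
        funext i
        refine Fin.cases ?_ (fun k => ?_) i
        · simp [siteM, Matrix.mulVec, dotProduct, Fin.sum_univ_succ]
          field_simp
        · have hk : (Fin.succ k) ≠ (0 : Fin 4) := Fin.succ_ne_zero k
          rw [Pi.single_eq_of_ne hk]
          fin_cases k <;>
            simp [siteM, Matrix.mulVec, dotProduct, Fin.sum_univ_succ, Fin.cons] <;> ring)
    have h1 : ∑ j, ((V.adjugate j 3 : ℤ) : ℝ) * (Q * (Fin.cons 1 ξ : Fin 4 → ℝ) j) =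
        (((V.adjugate 0 3 : ℤ) : ℝ) +
          ∑ k : Fin 3, ξ k * ((V.adjugate k.succ 3 : ℤ) : ℝ)) * Q := by
      rw [Fin.sum_univ_succ]
      simp only [Fin.cons_zero, Fin.cons_succ]
      rw [add_mul, Finset.sum_mul]
      congr 1
      · ring
      · exact Finset.sum_congr rfl (fun k _ => by ring)
    rw [h1, abs_mul, abs_of_pos hQ] at h
    exact h
  · intro k
    have hSk := hS k
    have h := fun_le Q R hQ hR ξ S hSQ V hprod h3
      (Pi.single k.succ (-(R / S k))) k.succ (by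
        have hk0 : (0 : Fin 4) ≠ Fin.succ k := (Fin.succ_ne_zero k).symm
        rw [Matrix.mulVec_single]
        funext i
        have h0 := hS 0
        have h1 := hS 1
        have h2 := hS 2
        fin_cases k <;> fin_cases i <;>
          simp [siteM, Matrix.col, Pi.single_apply] <;> field_simp)
    have h1 : ∑ j, ((V.adjugate j 3 : ℤ) : ℝ) *
        ((Pi.single k.succ (-(R / S k)) : Fin 4 → ℝ) j) =
        ((V.adjugate k.succ 3 : ℤ) : ℝ) * (-(R / S k)) := by
      rw [Finset.sum_eq_single k.succ]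
      · rw [Pi.single_eq_same]
      · intro b _ hb
        rw [Pi.single_eq_of_ne hb, mul_zero]
      · intro hh
        exact absurd (Finset.mem_univ _) hh
    rw [h1, abs_mul, abs_neg, abs_of_pos (div_pos hR hSk), ← mul_div_assoc,
      div_le_iff₀ hSk] at h
    exact h

end Pool.A6405.HC
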