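import Pool.Agent.H.MP_a6405b_nt.hc.SiteA
import Pool.Agent.H.MP_a6405b_nt.hc.MinE

set_option autoImplicit false

namespace Pool.A6405.HC

/-- Proof: with `a = av (siteM Q R ξ S) v`: `v 0 = Q a 0`, `v (k+1) = v 0 ξ k - (R / S k) a (k+1)`
(`av_site_zero`, `av_site_succ`), so
`∑ j, n j v j = (n 0 + ∑ ξ k n (k+1)) Q a 0 - ∑ k, n (k+1) (R / S k) a (k+1)`, and all four
coefficients are at most `C` in absolute value; `sum_abs_le`. -/
theorem fun_bound (C Q R : ℝ) (hQ : 0 < Q) (hR : 0 < R) (ξ S : Fin 3 → ℝ) (hS : ∀ k, 0 < S k)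
    (n v : Fin 4 → ℤ) (hn : SmallFun C Q R ξ S n) :
    |((∑ j, n j * v j : ℤ) : ℝ)| ≤ 2 * C * nrm (av (siteM Q R ξ S) v) := by
  obtain ⟨h0, hk⟩ := hn
  have hC : 0 ≤ C := le_trans (by positivity) h0
  have ha0 := av_site_zero Q R ξ S v
  have hak := av_site_succ Q R ξ S v
  set a := av (siteM Q R ξ S) v with ha
  have hv0 : (v 0 : ℝ) = Q * a 0 := by
    rw [ha0]
    field_simp
  have hvk : ∀ k : Fin 3, (v k.succ : ℝ) = (v 0 : ℝ) * ξ k - R / S k * a k.succ := by
    intro k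
    have hSk := hS k
    rw [hak]
    field_simp
    ring
  have hsum : ((∑ j, n j * v j : ℤ) : ℝ)
      = ((n 0 : ℝ) + ∑ k : Fin 3, ξ k * (n k.succ : ℝ)) * Q * a 0
        - ∑ k : Fin 3, (n k.succ : ℝ) * (R / S k) * a k.succ := by
    rw [Fin.sum_univ_succ]
    push_cast
    rw [Finset.sum_congr rfl (fun k _ => by rw [hvk k] :
      ∀ k ∈ (Finset.univ : Finset (Fin 3)), (n k.succ : ℝ) * (v k.succ : ℝ)
        = (n k.succ : ℝ) * ((v 0 : ℝ) * ξ k - R / S k * a k.succ)), hv0]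
    simp only [Fin.sum_univ_three]
    ring
  have hc : ∀ k : Fin 3, |(n k.succ : ℝ) * (R / S k) * a k.succ| ≤ C * |a k.succ| := by
    intro k
    have hSk := hS k
    rw [abs_mul, abs_mul, abs_of_pos (div_pos hR hSk)]
    refine mul_le_mul_of_nonneg_right ?_ (abs_nonneg _)
    rw [← mul_div_assoc, div_le_iff₀ hSk]
    exact hk k
  have hc0 : |((n 0 : ℝ) + ∑ k : Fin 3, ξ k * (n k.succ : ℝ)) * Q * a 0| ≤ C * |a 0| := by
    rw [abs_mul, abs_mul, abs_of_pos hQ]
    exact mul_le_mul_of_nonneg_right h0 (abs_nonneg _)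
  rw [hsum]
  calc |((n 0 : ℝ) + ∑ k : Fin 3, ξ k * (n k.succ : ℝ)) * Q * a 0
        - ∑ k : Fin 3, (n k.succ : ℝ) * (R / S k) * a k.succ|
      ≤ |((n 0 : ℝ) + ∑ k : Fin 3, ξ k * (n k.succ : ℝ)) * Q * a 0|
        + |∑ k : Fin 3, (n k.succ : ℝ) * (R / S k) * a k.succ| := abs_sub _ _
    _ ≤ C * |a 0| + ∑ k : Fin 3, C * |a k.succ| := by
        refine add_le_add hc0 ((Finset.abs_sum_le_sum_abs _ _).trans
          (Finset.sum_le_sum fun k _ => hc k))
    _ = C * ∑ i, |a i| := by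
        rw [Fin.sum_univ_succ (fun i => |a i|), mul_add, Finset.mul_sum]
    _ ≤ C * (2 * nrm a) := mul_le_mul_of_nonneg_left (sum_abs_le a) hC
    _ = 2 * C * nrm a := by ring

/-- Uniqueness of the small functional. Proof: let `A = siteM Q R ξ S`, `|det A| = 1 / R ^ 3`, and
take `V` from `minkowski_two`: sorted norms `α 0 ≤ α 1 ≤ α 2 ≤ α 3` with product at most
`16 / R ^ 3`. By `site_lower`, `α 0, α 1 ≥ γ / R` (rows of a matrix with nonzero determinant are
nonzero). If `α 2 ≥ 1 / 384` then also `α 3 ≥ 1 / 384` and the product is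
`≥ (γ / R) ^ 2 / 384 ^ 2`, so `R ≤ 16 * 384 ^ 2 / γ ^ 2 = 2359296 / γ ^ 2`, against `hRγ`. So
`α 0, α 1, α 2 < 1 / 384`, and by `fun_bound` (`C = 192`) the integers `∑ j, n j V i j` and
`∑ j, n' j V i j` are `< 1` in absolute value for `i = 0,1,2`, i.e. zero. Let `s, s'` be their
values for `i = 3`. Then `V *ᵥ (s' • n - s • n') = 0`, so `s' • n = s • n'` (`det V ≠ 0`,
`Matrix.eq_zero_of_mulVec_eq_zero`); `s ≠ 0` since otherwise `V *ᵥ n = 0` and `n = 0`. Hence
`s * (n i * n' j) = n i * (s * n' j) = n i * s' * n j` is symmetric in `i, j`, which gives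
`n i * n' j = n j * n' i`. -/
theorem unique_fun (γ R : ℝ) (hγ : 0 < γ) (hγ1 : γ < 1) (hRγ : 2359296 / γ ^ 2 < R)
    (Q : ℕ) (hQ : 1 ≤ Q) (ξ S : Fin 3 → ℝ) (hS : ∀ k, 1 ≤ S k) (hSQ : S 0 * S 1 * S 2 = Q)
    (hbig : BigAt (γ ^ 3) Q ξ) (n n' : Fin 4 → ℤ) (hn0 : n ≠ 0) (hn0' : n' ≠ 0)
    (hn : SmallFun 192 Q R ξ S n) (hn' : SmallFun 192 Q R ξ S n') :
    ∀ i j, n i * n' j = n j * n' i := by
  have hγ2 : 0 < γ ^ 2 := by positivity
  have hγ21 : γ ^ 2 < 1 := by nlinarith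
  have hR' : 2359296 < R * γ ^ 2 := by
    rwa [div_lt_iff₀ hγ2] at hRγ
  have hR0 : 0 < R := by
    by_contra hcon
    push Not at hcon
    nlinarith
  have hR1 : 1 ≤ R := by
    by_contra hcon
    push Not at hcon
    nlinarith
  have hQ0 : (0 : ℝ) < Q := by exact_mod_cast hQ
  have hS0 : ∀ k, 0 < S k := fun k => lt_of_lt_of_le one_pos (hS k)
  have hdet : (siteM Q R ξ S).det = -(1 / R ^ 3) := by
    rw [siteM_det, hSQ]
    field_simp
  have hdet0 : (siteM Q R ξ S).det ≠ 0 := by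
    rw [hdet]
    exact neg_ne_zero.mpr (by positivity)
  obtain ⟨V, hV, hsort, hprod⟩ := minkowski_two (siteM Q R ξ S) hdet0
  have hVne : ∀ i, V i ≠ 0 := by
    intro i hi
    exact hV (Matrix.det_eq_zero_of_row_eq_zero i (fun j => by rw [hi]; rfl))
  have hlow : ∀ i, γ / R ≤ nrm (av (siteM Q R ξ S) (V i)) := fun i =>
    site_lower γ R hγ hγ1 hR1 Q hQ ξ S hS hSQ hbig (V i) (hVne i)
  have h2 : nrm (av (siteM Q R ξ S) (V 2)) < 1 / 384 := by
    by_contra hcon
    push Not at hcon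
    have h3 := hcon.trans (hsort 2 3 (by decide))
    have hγR : 0 < γ / R := by positivity
    have hp : (γ / R) * (γ / R) * (1 / 384) * (1 / 384) ≤ 16 * |(siteM Q R ξ S).det| := by
      refine le_trans ?_ hprod
      rw [Fin.prod_univ_four]
      have hpos : ∀ y : Fin 4 → ℝ, 0 ≤ nrm y := fun y => Real.sqrt_nonneg _
      exact mul_le_mul (mul_le_mul (mul_le_mul (hlow 0) (hlow 1) hγR.le (hpos _)) hcon
        (by norm_num) (mul_nonneg (hpos _) (hpos _))) h3 (by norm_num)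
        (mul_nonneg (mul_nonneg (hpos _) (hpos _)) (hpos _))
    rw [hdet, abs_neg, abs_of_pos (by positivity)] at hp
    have hp2 : γ ^ 2 * R ≤ 2359296 := by
      have h4 : (γ / R) * (γ / R) * (1 / 384) * (1 / 384) * (R ^ 3 * 147456)
          ≤ 16 * (1 / R ^ 3) * (R ^ 3 * 147456) :=
        mul_le_mul_of_nonneg_right hp (by positivity)
      have h5 : (γ / R) * (γ / R) * (1 / 384) * (1 / 384) * (R ^ 3 * 147456) = γ ^ 2 * R := by
        field_simp
        norm_num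
      have h6 : 16 * (1 / R ^ 3) * (R ^ 3 * 147456) = 2359296 := by
        field_simp
        norm_num
      rw [h5, h6] at h4
      exact h4
    nlinarith
  have hsmall : ∀ m : Fin 4 → ℤ, SmallFun 192 Q R ξ S m → ∀ i : Fin 4, i ≤ 2 →
      ∑ j, m j * V i j = 0 := by
    intro m hm i hi
    have h3 := fun_bound 192 Q R hQ0 hR0 ξ S hS0 m (V i) hm
    have h4 : |((∑ j, m j * V i j : ℤ) : ℝ)| < 1 := by
      have h5 := (hsort i 2 hi).trans_lt h2
      linarith
    have h6 : |∑ j, m j * V i j| < 1 := by exact_mod_cast h4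
    exact Int.abs_lt_one_iff.1 h6
  have hcase : ∀ i : Fin 4, i ≤ 2 ∨ i = 3 := by decide
  set s := ∑ j, n j * V 3 j with hs
  set s' := ∑ j, n' j * V 3 j with hs'
  have hlin : ∀ m : Fin 4 → ℤ, ∀ i, V.mulVec m i = ∑ j, m j * V i j := by
    intro m i
    simp only [Matrix.mulVec, dotProduct]
    exact Finset.sum_congr rfl fun j _ => mul_comm _ _
  have hker : V.mulVec (s' • n - s • n') = 0 := by
    rw [Matrix.mulVec_sub, Matrix.mulVec_smul, Matrix.mulVec_smul]
    funext i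
    simp only [Pi.sub_apply, Pi.smul_apply, smul_eq_mul, Pi.zero_apply, hlin]
    rcases hcase i with hi | hi
    · rw [hsmall n hn i hi, hsmall n' hn' i hi]
      ring
    · subst hi
      rw [← hs, ← hs']
      ring
  have heq := Matrix.eq_zero_of_mulVec_eq_zero hV hker
  have hi : ∀ i, s' * n i = s * n' i := by
    intro i
    have h3 := congrFun heq i
    simp only [Pi.sub_apply, Pi.smul_apply, smul_eq_mul, Pi.zero_apply] at h3
    linarith
  have hs0 : s ≠ 0 := by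
    intro h3
    apply hn0
    apply Matrix.eq_zero_of_mulVec_eq_zero hV
    funext i
    rw [hlin]
    rcases hcase i with hi' | hi'
    · exact hsmall n hn i hi'
    · subst hi'
      exact h3
  intro i j
  apply mul_left_cancel₀ hs0
  calc s * (n i * n' j) = n i * (s * n' j) := by ring
    _ = n i * (s' * n j) := by rw [hi j]
    _ = n j * (s' * n i) := by ring
    _ = n j * (s * n' i) := by rw [hi i]
    _ = s * (n j * n' i) := by ring

end Pool.A6405.HC
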