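import Pool.Agent.H.MP_a6405b_nt.hc.SiteD

set_option autoImplicit false

namespace Pool.A6405.HC

/-- Chain of sites. Proof: `W = Q / T ≥ 1`. For `1 ≤ u ≤ W` the site `![u, W / u, T]` is admissible,
so `hall` gives a nonzero `n` with `SmallFun 96` there. Claim: for every `i : ℕ`, with
`u i = min (2 ^ i) W`, there is a nonzero `n` with `SmallFun 96 Q R ξ ![u i, W / u i, T] n` and
`n 1 = 0`. Base `i = 0`: `u 0 = 1`, `|n 1| R ≤ 96` and `R > 96` give `n 1 = 0`. Step: let `n` be the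
functional of step `i` and `n'` the one from `hall` at `u (i+1)`. As
`u i ≤ u (i+1) ≤ 2 u i`, `SmallFun 96` at `u i` implies `SmallFun 192` at `u (i+1)`
(`96 u i ≤ 192 u (i+1)`, `96 W / u i ≤ 192 W / u (i+1)`, `96 T ≤ 192 T`, `96 ≤ 192`). By
`unique_fun`, `n j * n' 1 = n 1 * n' j = 0` for all `j`, and `n j ≠ 0` for some `j`, so `n' 1 = 0`.
For `2 ^ i ≥ W` we get `u i = W`, second coordinate of the site `1`, so `|n 2| R ≤ 96`, `n 2 = 0`.
Now `n = (n 0, 0, 0, n 3)`. If `n 3 = 0` then `|n 0| Q ≤ 96 < Q`, so `n = 0`: contradiction. Take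
`m = |n 3|` (`Int.natAbs`): `m R ≤ 96 T` and
`dni (m ξ 2) ≤ |m ξ 2 ± n 0| = |n 0 + ξ 2 n 3|`, times `Q` at most `96`. -/
theorem chain (γ R : ℝ) (hγ : 0 < γ) (hγ1 : γ < 1) (hRγ : 2359296 / γ ^ 2 < R)
    (Q : ℕ) (hQ : 96 < Q) (ξ : Fin 3 → ℝ) (T : ℝ) (hT : 1 ≤ T) (hTQ : T ≤ Q)
    (hbig : BigAt (γ ^ 3) Q ξ)
    (hall : ∀ s₀ s₁ : ℝ, 1 ≤ s₀ → 1 ≤ s₁ → s₀ * s₁ * T = Q →
      ∃ n : Fin 4 → ℤ, n ≠ 0 ∧ SmallFun 96 Q R ξ ![s₀, s₁, T] n) :
    ∃ m : ℕ, 1 ≤ m ∧ (m : ℝ) * R ≤ 96 * T ∧ dni ((m : ℝ) * ξ 2) * Q ≤ 96 := by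
  have hγ2 : 0 < γ ^ 2 := by positivity
  have hγ21 : γ ^ 2 < 1 := by nlinarith
  have hR' : 2359296 < R * γ ^ 2 := by
    rwa [div_lt_iff₀ hγ2] at hRγ
  have hR0 : 0 < R := by
    by_contra hcon
    push Not at hcon
    nlinarith
  have hR96 : 96 < R := by nlinarith
  have hT0 : 0 < T := lt_of_lt_of_le one_pos hT
  have hQr : (96 : ℝ) < Q := by exact_mod_cast hQ
  have hQ0 : (0 : ℝ) < Q := by linarith
  obtain ⟨W, hW⟩ : ∃ W : ℝ, W = Q / T := ⟨_, rfl⟩
  have hWT : W * T = Q := by rw [hW]; field_simp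
  have hW1 : 1 ≤ W := by rw [hW, le_div_iff₀ hT0]; linarith
  have hW0 : 0 < W := by linarith
  have hzero : ∀ z : ℤ, |(z : ℝ)| * R ≤ 96 → z = 0 := by
    intro z hz
    by_contra h
    have h1 : (1 : ℝ) ≤ |(z : ℝ)| := by
      exact_mod_cast Int.one_le_abs h
    nlinarith
  have hprodu : ∀ u : ℝ, 1 ≤ u → u * (W / u) * T = Q := by
    intro u hu
    have hu0 : u ≠ 0 := by linarith
    rw [mul_div_cancel₀ _ hu0, hWT]
  have hsite : ∀ u : ℝ, 1 ≤ u → u ≤ W → ∃ n : Fin 4 → ℤ, n ≠ 0 ∧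
      SmallFun 96 Q R ξ ![u, W / u, T] n := by
    intro u hu huW
    have hu0 : 0 < u := by linarith
    exact hall u (W / u) hu (by rw [le_div_iff₀ hu0]; linarith) (hprodu u hu)
  obtain ⟨u, hu⟩ : ∃ u : ℕ → ℝ, u = fun i => min ((2 : ℝ) ^ i) W := ⟨_, rfl⟩
  have hui : ∀ i, u i = min ((2 : ℝ) ^ i) W := fun i => by rw [hu]
  have hu1 : ∀ i, 1 ≤ u i := by
    intro i
    rw [hui]
    exact le_min (one_le_pow₀ (by norm_num)) hW1
  have huW : ∀ i, u i ≤ W := fun i => by rw [hui]; exact min_le_right _ _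
  have hmono : ∀ i, u i ≤ u (i + 1) := by
    intro i
    rw [hui, hui]
    exact min_le_min (pow_le_pow_right₀ (by norm_num) (Nat.le_succ i)) le_rfl
  have hdouble : ∀ i, u (i + 1) ≤ 2 * u i := by
    intro i
    rw [hui, hui, pow_succ]
    rcases le_total ((2 : ℝ) ^ i) W with h | h
    · rw [min_eq_left h]
      exact (min_le_left _ _).trans (by linarith)
    · rw [min_eq_right h]
      exact (min_le_right _ _).trans (by linarith)
  have claim : ∀ i : ℕ, ∃ n : Fin 4 → ℤ, n ≠ 0 ∧ SmallFun 96 Q R ξ ![u i, W / u i, T] n ∧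
      n 1 = 0 := by
    intro i
    induction i with
    | zero =>
      obtain ⟨n, hn0, hn⟩ := hsite (u 0) (hu1 0) (huW 0)
      refine ⟨n, hn0, hn, ?_⟩
      have h1 := hn.2 0
      have hu0 : u 0 = 1 := by
        rw [hui, pow_zero, min_eq_left hW1]
      have h2 : |((n 1 : ℤ) : ℝ)| * R ≤ 96 * u 0 := h1
      rw [hu0, mul_one] at h2
      exact hzero _ h2
    | succ i ih =>
      obtain ⟨n, hn0, hn, hn1⟩ := ih
      obtain ⟨n', hn0', hn'⟩ := hsite (u (i + 1)) (hu1 _) (huW _)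
      refine ⟨n', hn0', hn', ?_⟩
      have hp1 := hu1 i
      have hp2 := hu1 (i + 1)
      have hd := hdouble i
      have hm := hmono i
      have hS : ∀ k : Fin 3, (1 : ℝ) ≤ (![u (i + 1), W / u (i + 1), T] : Fin 3 → ℝ) k := by
        intro k
        fin_cases k
        · exact hp2
        · change 1 ≤ W / u (i + 1)
          rw [le_div_iff₀ (by linarith), one_mul]
          exact huW _
        · exact hT
      have hb : SmallFun 192 Q R ξ ![u (i + 1), W / u (i + 1), T] n := by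
        refine ⟨hn.1.trans (by norm_num), fun k => ?_⟩
        refine (hn.2 k).trans ?_
        fin_cases k
        · change 96 * u i ≤ 192 * u (i + 1)
          linarith
        · change 96 * (W / u i) ≤ 192 * (W / u (i + 1))
          have h3 : W / u i ≤ 2 * (W / u (i + 1)) := by
            rw [← mul_div_assoc, div_le_div_iff₀ (by linarith) (by linarith)]
            nlinarith
          linarith
        · change 96 * T ≤ 192 * T
          linarith
      have hb' : SmallFun 192 Q R ξ ![u (i + 1), W / u (i + 1), T] n' := by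
        refine ⟨hn'.1.trans (by norm_num), fun k => ?_⟩
        refine (hn'.2 k).trans ?_
        have := hS k
        linarith
      have huniq := unique_fun γ R hγ hγ1 hRγ Q (by omega) ξ _ hS
        (hprodu (u (i + 1)) hp2) hbig n n' hn0 hn0' hb hb'
      obtain ⟨j, hj⟩ : ∃ j, n j ≠ 0 := by
        by_contra hcon
        push Not at hcon
        exact hn0 (funext hcon)
      have h4 := huniq j 1
      rw [hn1, zero_mul] at h4
      rcases mul_eq_zero.mp h4 with h5 | h5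
      · exact absurd h5 hj
      · exact h5
  obtain ⟨i, hi⟩ := pow_unbounded_of_one_lt W (by norm_num : (1 : ℝ) < 2)
  obtain ⟨n, hn0, hn, hn1⟩ := claim i
  have hui' : u i = W := by rw [hui, min_eq_right hi.le]
  rw [hui'] at hn
  have hn2 : n 2 = 0 := by
    have h1 : |((n 2 : ℤ) : ℝ)| * R ≤ 96 * (W / W) := hn.2 1
    rw [div_self hW0.ne', mul_one] at h1
    exact hzero _ h1
  have hn3 : |((n 3 : ℤ) : ℝ)| * R ≤ 96 * T := hn.2 2
  have hn4 : |(n 0 : ℝ) + ξ 2 * (n 3 : ℝ)| * Q ≤ 96 := by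
    have h1 := hn.1
    rw [Fin.sum_univ_three] at h1
    have h2 : (n 0 : ℝ) + (ξ 0 * ((n (0 : Fin 3).succ : ℤ) : ℝ) +
        ξ 1 * ((n (1 : Fin 3).succ : ℤ) : ℝ) + ξ 2 * ((n (2 : Fin 3).succ : ℤ) : ℝ)) =
        (n 0 : ℝ) + ξ 2 * (n 3 : ℝ) := by
      have e1 : n (0 : Fin 3).succ = 0 := hn1
      have e2 : n (1 : Fin 3).succ = 0 := hn2
      have e3 : n (2 : Fin 3).succ = n 3 := rfl
      rw [e1, e2, e3]
      push_cast
      ring
    rw [h2] at h1
    exact h1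
  have hn3' : n 3 ≠ 0 := by
    intro h0
    rw [h0] at hn4
    have h1 : n 0 = 0 := by
      by_contra h
      have h2 : (1 : ℝ) ≤ |(n 0 : ℝ)| := by exact_mod_cast Int.one_le_abs h
      rw [Int.cast_zero, mul_zero, add_zero] at hn4
      nlinarith
    apply hn0
    funext j
    fin_cases j
    · exact h1
    · exact hn1
    · exact hn2
    · exact h0
  refine ⟨(n 3).natAbs, ?_, ?_, ?_⟩
  · have := Int.natAbs_ne_zero.2 hn3'
    omega
  · rw [Nat.cast_natAbs, Int.cast_abs]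
    exact hn3
  · refine le_trans (mul_le_mul_of_nonneg_right ?_ hQ0.le) hn4
    unfold dni
    rw [Nat.cast_natAbs, Int.cast_abs]
    rcases abs_choice ((n 3 : ℤ) : ℝ) with h | h
    · rw [h]
      have h1 := round_le (((n 3 : ℤ) : ℝ) * ξ 2) (-(n 0))
      refine h1.trans (le_of_eq ?_)
      push_cast
      congr 1
      ring
    · rw [h]
      have h1 := round_le ((-((n 3 : ℤ) : ℝ)) * ξ 2) (n 0)
      refine h1.trans (le_of_eq ?_)
      rw [← abs_neg]
      congr 1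
      ring

end Pool.A6405.HC
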