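import Pool.Agent.H.MP_a6405b_nt.hc.SiteB
import Pool.Agent.H.MP_a6405b_nt.hc.SiteC
import Pool.Agent.H.MP_a6405b_nt.hc.SiteE

set_option autoImplicit false

namespace Pool.A6405.HC

/-- The site lemma. Proof: `R > 1`. By `hfar` and `chain`, some admissible pair `s₀, s₁` has no
nonzero `n` with `SmallFun 96`. Let `S = ![s₀, s₁, T]` and `V` from `minkowski_two` for
`siteM Q R ξ S`, whose determinant is `-1 / R ^ 3` (`siteM_det`). By `bad_site` the largest norm,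
that of `V 3`, is at most `1`, so all are (sorted), and `good_site` gives `v` with norm `≤ 1` and
`v 0 ≥ Q / (24 R ^ 3) > 0`. Take `q = v 0` (natural number, `≥ 1`), `p k = v (k+1)`. By
`coord_le_nrm`, `av_site_zero`: `q ≤ Q`; by `av_site_succ`: `|q ξ k - p k| S k ≤ R`. -/
theorem site_lemma (γ R : ℝ) (hγ : 0 < γ) (hγ1 : γ < 1) (hRγ : 2359296 / γ ^ 2 < R)
    (Q : ℕ) (hQ : 96 < Q) (ξ : Fin 3 → ℝ) (T : ℝ) (hT : 1 ≤ T) (hTQ : T ≤ Q)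
    (hbig : BigAt (γ ^ 3) Q ξ)
    (hfar : ∀ m : ℕ, 1 ≤ m → (m : ℝ) * R ≤ 96 * T → 96 < dni ((m : ℝ) * ξ 2) * Q) :
    ∃ (q : ℕ) (p : Fin 3 → ℤ) (s₀ s₁ : ℝ), 1 ≤ s₀ ∧ 1 ≤ s₁ ∧ s₀ * s₁ * T = Q ∧
      1 ≤ q ∧ q ≤ Q ∧ (Q : ℝ) ≤ 24 * R ^ 3 * q ∧
      |(q : ℝ) * ξ 0 - p 0| * s₀ ≤ R ∧ |(q : ℝ) * ξ 1 - p 1| * s₁ ≤ R ∧
      |(q : ℝ) * ξ 2 - p 2| * T ≤ R := by
  have hγ2 : (0 : ℝ) < γ ^ 2 := by positivity
  have hγ21 : γ ^ 2 ≤ 1 := by nlinarith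
  have hR1 : (1 : ℝ) < R := by
    have h1 : (2359296 : ℝ) ≤ 2359296 / γ ^ 2 := by
      rw [le_div_iff₀ hγ2]
      nlinarith
    linarith
  have hR0 : (0 : ℝ) < R := by linarith
  have hQ0 : (0 : ℝ) < (Q : ℝ) := by
    have : 0 < Q := by omega
    exact_mod_cast this
  have hex : ∃ s₀ s₁ : ℝ, 1 ≤ s₀ ∧ 1 ≤ s₁ ∧ s₀ * s₁ * T = Q ∧
      ∀ n : Fin 4 → ℤ, n ≠ 0 → ¬ SmallFun 96 Q R ξ ![s₀, s₁, T] n := by
    by_contra hcon
    have hall : ∀ s₀ s₁ : ℝ, 1 ≤ s₀ → 1 ≤ s₁ → s₀ * s₁ * T = Q →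
        ∃ n : Fin 4 → ℤ, n ≠ 0 ∧ SmallFun 96 Q R ξ ![s₀, s₁, T] n := by
      intro s₀ s₁ h0 h1 h2
      by_contra hno
      apply hcon
      refine ⟨s₀, s₁, h0, h1, h2, ?_⟩
      intro n hn hs
      exact hno ⟨n, hn, hs⟩
    obtain ⟨m, hm1, hm2, hm3⟩ := chain γ R hγ hγ1 hRγ Q hQ ξ T hT hTQ hbig hall
    have := hfar m hm1 hm2
    linarith
  obtain ⟨s₀, s₁, h0, h1, hprod, hno⟩ := hex
  have hS0 : (![s₀, s₁, T] : Fin 3 → ℝ) 0 = s₀ := rfl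
  have hS1 : (![s₀, s₁, T] : Fin 3 → ℝ) 1 = s₁ := rfl
  have hS2 : (![s₀, s₁, T] : Fin 3 → ℝ) 2 = T := rfl
  have hSQ : (![s₀, s₁, T] : Fin 3 → ℝ) 0 * (![s₀, s₁, T] : Fin 3 → ℝ) 1 *
      (![s₀, s₁, T] : Fin 3 → ℝ) 2 = Q := by
    rw [hS0, hS1, hS2]
    exact hprod
  have hSpos : ∀ k, 0 < (![s₀, s₁, T] : Fin 3 → ℝ) k := by
    intro k
    fin_cases k
    · show 0 < s₀
      linarith
    · show 0 < s₁
      linarith
    · show 0 < T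
      linarith
  have hR3 : (0 : ℝ) < R ^ 3 := by positivity
  have hdet : (siteM Q R ξ ![s₀, s₁, T]).det = -(1 / R ^ 3) := by
    rw [siteM_det, hSQ]
    field_simp
  have habs : |(siteM Q R ξ ![s₀, s₁, T]).det| = 1 / R ^ 3 := by
    rw [hdet, abs_neg, abs_of_pos (by positivity)]
  have hne : (siteM Q R ξ ![s₀, s₁, T]).det ≠ 0 := by
    rw [hdet]
    have : (0 : ℝ) < 1 / R ^ 3 := by positivity
    linarith
  obtain ⟨V, hV, hsort, hP⟩ := minkowski_two (siteM Q R ξ ![s₀, s₁, T]) hne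
  have hP' : ∏ i, nrm (av (siteM Q R ξ ![s₀, s₁, T]) (V i)) ≤ 16 / R ^ 3 := by
    rw [habs] at hP
    calc _ ≤ 16 * (1 / R ^ 3) := hP
      _ = 16 / R ^ 3 := by ring
  have h3 : nrm (av (siteM Q R ξ ![s₀, s₁, T]) (V 3)) ≤ 1 := by
    by_contra h3
    obtain ⟨n, hn, hs⟩ := bad_site Q R hQ0 hR0 ξ ![s₀, s₁, T] hSpos hSQ V hV hP' (not_le.mp h3)
    exact hno n hn hs
  have hall1 : ∀ i, nrm (av (siteM Q R ξ ![s₀, s₁, T]) (V i)) ≤ 1 := by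
    intro i
    refine le_trans (hsort i 3 ?_) h3
    exact Fin.le_last i
  obtain ⟨v, hv1, hv2⟩ := good_site Q R hQ0 hR0 ξ ![s₀, s₁, T] hSQ V hV hall1
  have hvpos : (0 : ℝ) < (v 0 : ℝ) := by
    have : (0 : ℝ) < (Q : ℝ) / (24 * R ^ 3) := by positivity
    linarith
  have hvpos' : 0 < v 0 := by exact_mod_cast hvpos
  obtain ⟨q, hq⟩ := Int.eq_ofNat_of_zero_le hvpos'.le
  have hqv : ((q : ℕ) : ℝ) = ((v 0 : ℤ) : ℝ) := by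
    rw [hq]
    simp
  have hcoord : ∀ i, |av (siteM Q R ξ ![s₀, s₁, T]) v i| ≤ 1 := fun i =>
    le_trans (coord_le_nrm _ i) hv1
  have hk : ∀ k : Fin 3, |(q : ℝ) * ξ k - (v k.succ : ℝ)| * (![s₀, s₁, T] : Fin 3 → ℝ) k ≤ R := by
    intro k
    have hc := hcoord k.succ
    rw [av_site_succ, ← hqv, abs_div, abs_mul, abs_of_pos hR0, abs_of_pos (hSpos k),
      div_le_one hR0] at hc
    linarith [mul_comm (![s₀, s₁, T] k) |(q : ℝ) * ξ k - (v k.succ : ℝ)|]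
  refine ⟨q, fun k => v k.succ, s₀, s₁, h0, h1, hprod, ?_, ?_, ?_, ?_, ?_, ?_⟩
  · have : (0 : ℝ) < (q : ℝ) := by
      rw [hqv]
      exact hvpos
    have h' : 0 < q := by exact_mod_cast this
    omega
  · have hc := hcoord 0
    rw [av_site_zero, ← hqv, abs_div, abs_of_pos hQ0, div_le_one hQ0] at hc
    have h' : (q : ℝ) ≤ (Q : ℝ) := le_trans (le_abs_self _) hc
    exact_mod_cast h'
  · rw [div_le_iff₀ (by positivity)] at hv2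
    rw [hqv]
    linarith
  · exact hk 0
  · exact hk 1
  · exact hk 2

end Pool.A6405.HC
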