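import Pool.Agent.H.MP_a6405b_nt.hc.CountE
import Pool.Agent.H.MP_a6405b_nt.hc.Asym
import Pool.Agent.H.MP_a6405b_nt.hc.Haus

set_option autoImplicit false

namespace Pool.A6405.HC

open Filter MeasureTheory

/-- Powers of two. Proof: let `Q` be one of infinitely many naturals with
`c ≤ Q * (product of the distances)` for `1 ≤ q ≤ Q`; for `Q ≥ 2` let `2 ^ k ≤ Q < 2 ^ (k+1)`
(`k = Nat.log 2 Q`). For `1 ≤ q ≤ 2 ^ k` the product is at least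
`c / Q ≥ (c / 2) / 2 ^ k`. As `Q → ∞`, `k → ∞`, so infinitely many `k` occur. -/
theorem dyadic (ξ : Fin 3 → ℝ) (c : ℝ) (hc : 0 < c)
    (h : ∃ᶠ Q : ℕ in atTop, ∀ q : ℕ, 1 ≤ q → q ≤ Q →
      c ≤ (Q : ℝ) * (dni ((q : ℝ) * ξ 0) * dni ((q : ℝ) * ξ 1) * dni ((q : ℝ) * ξ 2))) :
    ∃ᶠ k : ℕ in atTop, BigAt (c / 2) (2 ^ k) ξ := by
  rw [frequently_atTop] at h ⊢
  intro K
  obtain ⟨Q, hQK, hQ⟩ := h (2 ^ K)
  have hQ0 : Q ≠ 0 := by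
    have := Nat.one_le_two_pow (n := K)
    omega
  refine ⟨Nat.log 2 Q, Nat.le_log_of_pow_le one_lt_two hQK, fun q hq1 hq2 => ?_⟩
  have h1 : 2 ^ Nat.log 2 Q ≤ Q := Nat.pow_log_le_self 2 hQ0
  have h2 : Q < 2 ^ (Nat.log 2 Q + 1) := Nat.lt_pow_succ_log_self one_lt_two Q
  have h3 := hQ q hq1 (hq2.trans h1)
  have h4 : (Q : ℝ) ≤ 2 * ((2 ^ Nat.log 2 Q : ℕ) : ℝ) := by
    have h5 : Q ≤ 2 * 2 ^ Nat.log 2 Q := by
      rw [pow_succ] at h2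
      omega
    exact_mod_cast h5
  have h5 : 0 ≤ dni ((q : ℝ) * ξ 0) * dni ((q : ℝ) * ξ 1) * dni ((q : ℝ) * ξ 2) :=
    mul_nonneg (mul_nonneg (abs_nonneg _) (abs_nonneg _)) (abs_nonneg _)
  have h6 : (0 : ℝ) < ((2 ^ Nat.log 2 Q : ℕ) : ℝ) := by
    have : 0 < 2 ^ Nat.log 2 Q := by positivity
    exact_mod_cast this
  rw [div_le_iff₀ h6]
  have h7 := mul_le_mul_of_nonneg_right h4 h5
  linarith

/-- The unit cube. Proof: `R = 2400000 / γ ^ 2 ≥ 96`, `b ≥ 4`. Take `ρ, C', k₀` from `scales`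
(enlarge `k₀` so that `2 ^ k₀ > 96`), choose `N₀ k, J k, M k` for `k ≥ k₀`, and apply
`hausdorff_zero` with `G k = {x ∈ Ω ∩ ucube | BigAt (γ ^ 3) (2 ^ k) (pt φ₁ φ₂ x)}`,
`N k = N₀ k * b ^ J k`, `d = n + 1 - δ` and the bound of `count_one`. -/
theorem unit_zero {n : ℕ} (γ : ℝ) (hγ : 0 < γ) (hγ1 : γ < 1) (R : ℝ) (hR : R = 2400000 / γ ^ 2)
    (b : ℕ) (hb : 500 * R ^ 6 / γ ^ 3 ≤ b) (C θ : ℝ) (hθ : 1 / 2 < θ) (hθ1 : θ ≤ 1)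
    (Ω : Set (Fin (n + 1) → ℝ)) (φ₁ φ₂ : (Fin (n + 1) → ℝ) → ℝ)
    (hφ₁ : ∀ x ∈ Ω, ∀ x' ∈ Ω, ∀ ρ : ℝ, (∀ i, |x' i - x i| ≤ ρ) →
      |φ₁ x' - φ₁ x| ≤ C * ρ ^ θ)
    (hφ₂ : ∀ x ∈ Ω, ∀ x' ∈ Ω, ∀ ρ : ℝ, (∀ i, |x' i - x i| ≤ ρ) →
      |φ₂ x' - φ₂ x| ≤ C * ρ ^ θ) :
    μH[(n : ℝ) + 1 - (2 * θ - 1) / (1 + θ) / (12 * ((b : ℝ) ^ (n + 1) * Real.log b))]
      {x | x ∈ Ω ∧ x ∈ ucube (n + 1) ∧
        ∃ᶠ k : ℕ in atTop, BigAt (γ ^ 3) (2 ^ k) (pt φ₁ φ₂ x)} = 0 := by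
  have hγ2 : 0 < γ ^ 2 := by positivity
  have hγ3 : 0 < γ ^ 3 := by positivity
  have hγ2' : γ ^ 2 ≤ 1 := pow_le_one₀ hγ.le hγ1.le
  have hγ3' : γ ^ 3 ≤ 1 := pow_le_one₀ hγ.le hγ1.le
  have hR1 : 2400000 ≤ R := by
    rw [hR, le_div_iff₀ hγ2]
    nlinarith
  have hR96 : 96 ≤ R := by linarith
  have hR6 : 1 ≤ R ^ 6 := one_le_pow₀ (by linarith)
  have hb500 : 500 ≤ 500 * R ^ 6 / γ ^ 3 := by
    rw [le_div_iff₀ hγ3]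
    nlinarith
  have hb4r : (500 : ℝ) ≤ (b : ℝ) := hb500.trans hb
  have hb4 : 4 ≤ b := by
    have : 500 ≤ b := by exact_mod_cast hb4r
    omega
  obtain ⟨ρ, C', k₀, hρ0, hρ1, hk⟩ := scales n θ hθ hθ1 R hR96 b hb4 C
  choose! N₀ J M hN0 hM hNk hT1 hT2 hT3 hsm hfin using hk
  have hd : 0 ≤ (n : ℝ) + 1 - (2 * θ - 1) / (1 + θ) / (12 * ((b : ℝ) ^ (n + 1) * Real.log b)) := by
    have hlog : (0.5 : ℝ) ≤ Real.log b := by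
      have h1 : Real.log 2 ≤ Real.log b := Real.log_le_log (by norm_num) (by linarith)
      have h2 := Real.log_two_gt_d9
      linarith
    have hbp : (1 : ℝ) ≤ (b : ℝ) ^ (n + 1) := one_le_pow₀ (by linarith)
    have hX : 1 ≤ 12 * ((b : ℝ) ^ (n + 1) * Real.log b) := by
      have h1 : 1 * (0.5 : ℝ) ≤ (b : ℝ) ^ (n + 1) * Real.log b :=
        mul_le_mul hbp hlog (by norm_num) (by positivity)
      linarith
    have h1 : (2 * θ - 1) / (1 + θ) ≤ 1 := by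
      rw [div_le_one (by linarith)]
      linarith
    have h2 : (2 * θ - 1) / (1 + θ) / (12 * ((b : ℝ) ^ (n + 1) * Real.log b)) ≤ 1 := by
      rw [div_le_one (by linarith)]
      linarith
    have h3 : (0 : ℝ) ≤ n := Nat.cast_nonneg n
    linarith
  have key := hausdorff_zero (m := n + 1)
    ((n : ℝ) + 1 - (2 * θ - 1) / (1 + θ) / (12 * ((b : ℝ) ^ (n + 1) * Real.log b))) hd
    (fun k => {x | x ∈ Ω ∧ x ∈ ucube (n + 1) ∧ BigAt (γ ^ 3) (2 ^ k) (pt φ₁ φ₂ x)})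
    (fun k => N₀ k * b ^ J k) C' ρ hρ0 hρ1 (max k₀ 7) (fun k x hx => hx.2.1)
    (fun k hk => hNk k (le_of_max_le_left hk)) (by
      intro k hk
      have hk0 : k₀ ≤ k := le_of_max_le_left hk
      have hk7 : 7 ≤ k := le_of_max_le_right hk
      have h96 : 96 < 2 ^ k := by
        have h1 : 2 ^ 7 ≤ 2 ^ k := Nat.pow_le_pow_right (by norm_num) hk7
        omega
      have h1 := count_one (n := n) γ hγ hγ1 R hR b hb (2 ^ k) h96 (N₀ k) (J k) (hN0 k hk0) (M k)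
        (hM k hk0) C θ (hT1 k hk0) (hT2 k hk0) (hT3 k hk0) (hsm k hk0) Ω φ₁ φ₂ hφ₁ hφ₂
      have h2 := hfin k hk0
      have h3 : ((N₀ k * b ^ J k : ℕ) : ℝ) = (N₀ k : ℝ) * (b : ℝ) ^ J k := by push_cast; rfl
      beta_reduce
      rw [h3]
      refine le_trans ?_ h2
      exact mul_le_mul_of_nonneg_right h1 (Real.rpow_nonneg (by positivity) _))
  refine measure_mono_null ?_ key
  rintro x ⟨hx1, hx2, hx3⟩
  exact hx3.mono fun k hk => ⟨hx1, hx2, hk⟩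

end Pool.A6405.HC
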